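import Pool.Agent.Lib.MP_d11e37_lc.Seq

/-!
Summability of the relative errors along the walk.
-/

set_option autoImplicit false

namespace Pool.Agent.MPd11e37lc

open Finset

/-- The relative error at step `i`. -/
noncomputable def errS (η N p : ℝ) (i : ℕ) : ℝ :=
  if Msz N p i * p < 1 then η + 2 * (Msz N p i * p) else 2 * (Msz N p i * p) ^ (-(1/4) : ℝ)

theorem logb_sep {K a b : ℝ} (hK : 1 < K) (ha : 0 < a) (hb : 0 < b)
    (h : b ≤ a / K ∨ K * a ≤ b) : 1 ≤ |Real.logb K b - Real.logb K a| := by
  have hK0 : 0 < K := by linarith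
  rw [← Real.logb_div hb.ne' ha.ne']
  rcases h with h | h
  · have : b / a ≤ K⁻¹ := by
      rw [div_le_iff₀ ha]
      rw [div_eq_mul_inv, mul_comm] at h
      exact h
    have h1 : Real.logb K (b / a) ≤ -1 := by
      rw [Real.logb_le_iff_le_rpow hK (div_pos hb ha), Real.rpow_neg hK0.le, Real.rpow_one]
      exact this
    rw [abs_of_nonpos (by linarith)]
    linarith
  · have : K ≤ b / a := by
      rw [le_div_iff₀ ha]; exact h
    have h1 : 1 ≤ Real.logb K (b / a) := by
      rw [Real.le_logb_iff_rpow_le hK (div_pos hb ha), Real.rpow_one]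
      exact this
    rw [abs_of_nonneg (by linarith)]
    linarith

theorem err_sum {K N p η : ℝ} (hK : 1 < K) (hN : 1 < N) (hp0 : 0 < p) (hp1 : p < 1)
    (hNp : 1 ≤ N * p) (hη : 0 ≤ η) {I : ℕ}
    (h2 : ∀ i, i < I → Msz N p i * p ≤ 1 / K ∨ K ≤ Msz N p i * p)
    (h3 : ∀ i j, i < j → j < I → Msz N p j * p ≤ (Msz N p i * p) / K ∨
        K * (Msz N p i * p) ≤ Msz N p j * p) (j : ℕ) (hj : j ≤ I) :
    ∑ i ∈ range j, errS η N p i ≤
      j * η + 2 * ((1 / K) / (1 - 1 / K)) + 2 * (K ^ (-(1/4) : ℝ) / (1 - K ^ (-(1/4) : ℝ))) := by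
  classical
  have hK0 : 0 < K := by linarith
  have hM := Msz_bounds hN hp0 hp1 hNp
  have hm : ∀ i, 0 < Msz N p i * p := fun i => mul_pos (by linarith [(hM i).1]) hp0
  have hsep : ∀ i, i < I → ∀ i', i' < I → i ≠ i' →
      1 ≤ |Real.logb K (Msz N p i * p) - Real.logb K (Msz N p i' * p)| := by
    intro i hi i' hi' hne
    rcases lt_or_gt_of_ne hne with h | h
    · rw [abs_sub_comm]
      exact logb_sep hK (hm _) (hm _) (h3 i i' h hi')
    · exact logb_sep hK (hm _) (hm _) (h3 i' i h hi)
  set s1 := (range j).filter fun i => Msz N p i * p < 1 with hs1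
  set s2 := (range j).filter fun i => ¬ (Msz N p i * p < 1) with hs2
  have hsplit : ∑ i ∈ range j, errS η N p i = ∑ i ∈ s1, errS η N p i + ∑ i ∈ s2, errS η N p i :=
    (Finset.sum_filter_add_sum_filter_not _ _ _).symm
  have e1 : ∑ i ∈ s1, errS η N p i = s1.card * η + 2 * ∑ i ∈ s1, Msz N p i * p := by
    rw [Finset.mul_sum, ← nsmul_eq_mul, ← Finset.sum_const, ← Finset.sum_add_distrib]
    apply Finset.sum_congr rfl
    intro i hi
    rw [hs1, Finset.mem_filter] at hi
    unfold errS
    rw [if_pos hi.2]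
  have e2 : ∑ i ∈ s2, errS η N p i = 2 * ∑ i ∈ s2, (Msz N p i * p) ^ (-(1/4) : ℝ) := by
    rw [Finset.mul_sum]
    apply Finset.sum_congr rfl
    intro i hi
    rw [hs2, Finset.mem_filter] at hi
    unfold errS
    rw [if_neg hi.2]
  have b1 : ∑ i ∈ s1, Msz N p i * p ≤ (1 / K) / (1 - 1 / K) := by
    have hx0 : 0 < 1 / K := by positivity
    have hx1 : 1 / K < 1 := by rw [div_lt_one hK0]; exact hK
    have := sum_geo s1 (fun i => - Real.logb K (Msz N p i * p)) ?_ ?_ hx0 hx1
    · refine le_trans (le_of_eq ?_) this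
      apply Finset.sum_congr rfl
      intro i _
      rw [one_div, Real.inv_rpow hK0.le, Real.rpow_neg hK0.le, inv_inv,
        Real.rpow_logb hK0 hK.ne' (hm i)]
    · intro i hi
      rw [hs1, Finset.mem_filter, Finset.mem_range] at hi
      have h := h2 i (by omega)
      have h' : Msz N p i * p ≤ 1 / K := by
        rcases h with h | h
        · exact h
        · linarith [hi.2]
      have : Real.logb K (Msz N p i * p) ≤ -1 := by
        rw [Real.logb_le_iff_le_rpow hK (hm i), Real.rpow_neg hK0.le, Real.rpow_one, ← one_div]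
        exact h'
      linarith
    · intro i hi i' hi' hne
      rw [hs1, Finset.mem_filter, Finset.mem_range] at hi hi'
      have := hsep i (by omega) i' (by omega) hne
      rw [neg_sub_neg, abs_sub_comm]
      exact this
  have b2 : ∑ i ∈ s2, (Msz N p i * p) ^ (-(1/4) : ℝ) ≤
      K ^ (-(1/4) : ℝ) / (1 - K ^ (-(1/4) : ℝ)) := by
    have hx0 : 0 < K ^ (-(1/4) : ℝ) := by positivity
    have hx1 : K ^ (-(1/4) : ℝ) < 1 := Real.rpow_lt_one_of_one_lt_of_neg hK (by norm_num)
    have := sum_geo s2 (fun i => Real.logb K (Msz N p i * p)) ?_ ?_ hx0 hx1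
    · refine le_trans (le_of_eq ?_) this
      apply Finset.sum_congr rfl
      intro i _
      rw [← Real.rpow_mul hK0.le, mul_comm (-(1/4) : ℝ), Real.rpow_mul hK0.le,
        Real.rpow_logb hK0 hK.ne' (hm i)]
    · intro i hi
      rw [hs2, Finset.mem_filter, Finset.mem_range] at hi
      have h := h2 i (by omega)
      have h' : K ≤ Msz N p i * p := by
        rcases h with h | h
        · exfalso
          apply hi.2
          refine lt_of_le_of_lt h ?_
          rw [div_lt_one hK0]; exact hK
        · exact h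
      rw [Real.le_logb_iff_rpow_le hK (hm i), Real.rpow_one]
      exact h'
    · intro i hi i' hi' hne
      rw [hs2, Finset.mem_filter, Finset.mem_range] at hi hi'
      exact hsep i (by omega) i' (by omega) hne
  have hc : (s1.card : ℝ) ≤ j := by
    have : s1.card ≤ (range j).card := Finset.card_filter_le _ _
    rw [Finset.card_range] at this
    exact_mod_cast this
  rw [hsplit, e1, e2]
  have := mul_le_mul_of_nonneg_right hc hη
  linarith

end Pool.Agent.MPd11e37lc
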