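import Pool.Agent.Lib.MP_d11e37_lc.Props2

/-!
Failure probabilities of the twin properties.
-/

set_option autoImplicit false
set_option linter.unusedSectionVars false

namespace Pool.Agent.MPd11e37lc

open Finset

variable {V : Type} [Fintype V] [DecidableEq V]

/-- Few twins with respect to every disjoint family of sets of size about `1 / p`. -/
def DistProp (G : SimpleGraph V) (k : ℕ) (c₁ C₂ p : ℝ) : Prop :=
  ∀ S : Fin k → Finset V, (∀ i j, i ≠ j → Disjoint (S i) (S j)) →
    (∀ j, c₁ ≤ ((S j).card : ℝ) * p ∧ ((S j).card : ℝ) * p ≤ C₂) →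
    8 * (nonuniqFam G S).card ≤ Fintype.card V

/-- Few twins with respect to the complement of every small set. -/
def BootProp (G : SimpleGraph V) : Prop :=
  ∀ Y : Finset V, Y.Nonempty → 4 * Y.card ≤ Fintype.card V → 2 * (nonuniq G Y).card ≤ Y.card

/-- Many pairs of twins give a family of disjoint pairs. -/
theorem fam_extract {G : SimpleGraph V} {k : ℕ} (S : Fin k → Finset V) {s : ℕ}
    (hs : 3 * s ≤ (nonuniqFam G S).card + 2) :
    ∃ g : Fin s ⊕ Fin s → V, Function.Injective g ∧ (∀ a j, g a ∉ S j) ∧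
      ∀ i j, (g (Sum.inl i) ∈ nb G (S j) ↔ g (Sum.inr i) ∈ nb G (S j)) := by
  classical
  obtain ⟨s', g, hginj, hg, hcard⟩ := extract_set (Finset.univ.filter fun x => ∀ j, x ∉ S j)
    (fun x => (Finset.univ.filter fun j : Fin k => x ∈ nb G (S j)))
  have hsub : (nonuniqFam G S).card ≤ 3 * s' := by
    apply hcard
    intro x hx
    unfold nonuniqFam at hx
    rw [Finset.mem_filter] at hx
    obtain ⟨-, hx1, y, hy1, hyx, hall⟩ := hx
    refine ⟨Finset.mem_filter.2 ⟨Finset.mem_univ _, hx1⟩, y,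
      Finset.mem_filter.2 ⟨Finset.mem_univ _, hy1⟩, hyx, ?_⟩
    apply Finset.filter_congr
    intro j _
    exact (hall j).symm
  have hss : s ≤ s' := by omega
  refine ⟨g ∘ Sum.map (Fin.castLE hss) (Fin.castLE hss), restrict_pairs hss hginj, ?_, ?_⟩
  · intro a j
    rcases a with a | a
    · exact (Finset.mem_filter.1 (hg (Fin.castLE hss a)).1).2 j
    · exact (Finset.mem_filter.1 (hg (Fin.castLE hss a)).2.1).2 j
  · intro i j
    have h3 := (hg (Fin.castLE hss i)).2.2
    have h4 : ∀ x : V, j ∈ (Finset.univ.filter fun j : Fin k => x ∈ nb G (S j)) ↔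
        x ∈ nb G (S j) := fun x => by rw [Finset.mem_filter]; simp
    rw [Function.comp_apply, Function.comp_apply, Sum.map_inl, Sum.map_inr, ← h4, ← h4, h3]

/-- Many pairs of twins give a family of disjoint pairs. -/
theorem boot_extract {G : SimpleGraph V} (Y : Finset V) {s : ℕ}
    (hs : 3 * s ≤ (nonuniq G Y).card + 2) :
    ∃ g : Fin s ⊕ Fin s → V, Function.Injective g ∧
      ∀ i, ∀ v, v ∉ Y → (G.Adj v (g (Sum.inl i)) ↔ G.Adj v (g (Sum.inr i))) := by
  classical
  obtain ⟨s', g, hginj, hg, hcard⟩ := extract_set (Finset.univ : Finset V)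
    (fun x => (Finset.univ.filter fun v : V => v ∉ Y ∧ G.Adj v x))
  have hsub : (nonuniq G Y).card ≤ 3 * s' := by
    apply hcard
    intro x hx
    unfold nonuniq at hx
    rw [Finset.mem_filter] at hx
    obtain ⟨-, y, hyx, hall⟩ := hx
    refine ⟨Finset.mem_univ _, y, Finset.mem_univ _, hyx, ?_⟩
    apply Finset.filter_congr
    intro v _
    constructor
    · rintro ⟨h1, h2⟩
      exact ⟨h1, (hall v h1).2 h2⟩
    · rintro ⟨h1, h2⟩
      exact ⟨h1, (hall v h1).1 h2⟩
  have hss : s ≤ s' := by omega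
  refine ⟨g ∘ Sum.map (Fin.castLE hss) (Fin.castLE hss), restrict_pairs hss hginj, ?_⟩
  intro i v hv
  have h3 := (hg (Fin.castLE hss i)).2.2
  have h4 : ∀ x : V, v ∈ (Finset.univ.filter fun v : V => v ∉ Y ∧ G.Adj v x) ↔ G.Adj v x :=
    fun x => by rw [Finset.mem_filter]; simp [hv]
  rw [Function.comp_apply, Function.comp_apply, Sum.map_inl, Sum.map_inr, ← h4, ← h4, h3]

/-- The condition on a tuple of sets and pairs. -/
def distSt (k u s : ℕ) (c₁ C₂ p : ℝ) (f : Fin k → Fin u → V) (g : Fin s ⊕ Fin s → V) : Prop :=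
  Function.Injective g ∧
    (∀ i j, i ≠ j → Disjoint (Finset.univ.image (f i)) (Finset.univ.image (f j))) ∧
    (∀ a j, g a ∉ Finset.univ.image (f j)) ∧
    (∀ j, c₁ ≤ ((Finset.univ.image (f j)).card : ℝ) * p ∧
      ((Finset.univ.image (f j)).card : ℝ) * p ≤ C₂)

/-- The event attached to a tuple. -/
def distEv (k u s : ℕ) (c₁ C₂ p : ℝ) (x : (Fin k → Fin u → V) × (Fin s ⊕ Fin s → V))
    (ω : Sym2 V → Bool) : Prop :=
  distSt k u s c₁ C₂ p x.1 x.2 ∧
    ∀ z ∈ (Finset.univ : Finset (Fin s)) ×ˢ (Finset.univ : Finset (Fin k)),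
      mat (x.2 (Sum.inl z.1)) (x.2 (Sum.inr z.1)) (Finset.univ.image (x.1 z.2)) ω

theorem dist_fail {p c₁ C₂ : ℝ} {k : ℕ} (h0 : 0 < p) (hc₁ : 0 < c₁) (ω : Sym2 V → Bool)
    (h : ¬ DistProp (gr ω) k c₁ C₂ p) :
    ∃ x, distEv k ⌊C₂ / p⌋₊ (Fintype.card V / 24) c₁ C₂ p x ω := by
  unfold DistProp at h
  push Not at h
  obtain ⟨S, hdisj, hsize, hbig⟩ := h
  obtain ⟨g, hginj, hg1, hg2⟩ := fam_extract (G := gr ω) S (s := Fintype.card V / 24) (by omega)
  have hf : ∀ j, ∃ f : Fin ⌊C₂ / p⌋₊ → V, Finset.univ.image f = S j := by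
    intro j
    apply exists_fun_image
    · rw [← Finset.card_pos]
      by_contra h0'
      have : (S j).card = 0 := by omega
      have h3 := (hsize j).1
      rw [this] at h3
      simp at h3
      linarith
    · apply Nat.le_floor
      rw [le_div_iff₀ h0]
      exact (hsize j).2
  choose f hf using hf
  refine ⟨(f, g), ⟨hginj, ?_, ?_, ?_⟩, ?_⟩
  · intro i j hij
    show Disjoint (Finset.univ.image (f i)) (Finset.univ.image (f j))
    rw [hf, hf]
    exact hdisj i j hij
  · intro a j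
    show g a ∉ Finset.univ.image (f j)
    rw [hf]
    exact hg1 a j
  · intro j
    show c₁ ≤ ((Finset.univ.image (f j)).card : ℝ) * p ∧
      ((Finset.univ.image (f j)).card : ℝ) * p ≤ C₂
    rw [hf]
    exact hsize j
  · rintro ⟨i, j⟩ _
    show mat (g (Sum.inl i)) (g (Sum.inr i)) (Finset.univ.image (f j)) ω
    rw [hf]
    unfold mat
    rw [hit_iff_mem_nb (hg1 _ j), hit_iff_mem_nb (hg1 _ j)]
    exact hg2 i j

theorem dist_prob_ev {p c₁ C₂ : ℝ} {k u s : ℕ} (h0 : 0 < p) (h1 : p ≤ 1 / 2) (hc₁ : 0 < c₁)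
    (x : (Fin k → Fin u → V) × (Fin s ⊕ Fin s → V)) :
    Pr p (distEv k u s c₁ C₂ p x) ≤
      Real.exp (-((1 - Real.exp (-c₁)) * Real.exp (-(2 * C₂)))) ^ (s * k) := by
  by_cases hst : distSt k u s c₁ C₂ p x.1 x.2
  · obtain ⟨a1, a2, a3, a4⟩ := hst
    have h3 := prob_twins (p := p)
      (m := Real.exp (-((1 - Real.exp (-c₁)) * Real.exp (-(2 * C₂))))) h0.le (by linarith) a1
      (Finset.univ : Finset (Fin k)) (fun j => Finset.univ.image (x.1 j))
      (fun i _ j _ hij => a2 i j hij) (fun a j _ => a3 a j)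
      (fun i j _ => prob_mat_le h0.le h1 hc₁.le (a3 _ j) (a3 _ j)
        (fun h => by simpa using a1 h) (a4 j).1 (a4 j).2)
    rw [Finset.card_univ, Fintype.card_fin] at h3
    refine le_trans (Pr_mono h0.le (by linarith) ?_) h3
    intro ω hω
    exact hω.2
  · rw [Pr_false]
    · exact pow_nonneg (Real.exp_pos _).le _
    · intro ω hω
      exact hst hω.1

theorem prob_distProp {p c₁ C₂ : ℝ} {k : ℕ} (h0 : 0 < p) (h1 : p ≤ 1 / 2) (hc₁ : 0 < c₁) :
    Pr p (fun ω : Sym2 V → Bool => ¬ DistProp (gr ω) k c₁ C₂ p) ≤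
      ((Fintype.card V : ℝ) ^ ⌊C₂ / p⌋₊) ^ k *
        (Fintype.card V : ℝ) ^ (Fintype.card V / 24 + Fintype.card V / 24) *
        Real.exp (-((1 - Real.exp (-c₁)) * Real.exp (-(2 * C₂)))) ^ (Fintype.card V / 24 * k) := by
  classical
  have e1 : ∀ ω : Sym2 V → Bool, ¬ DistProp (gr ω) k c₁ C₂ p →
      ∃ x ∈ (Finset.univ : Finset ((Fin k → Fin ⌊C₂ / p⌋₊ → V) ×
        (Fin (Fintype.card V / 24) ⊕ Fin (Fintype.card V / 24) → V))),
        distEv k ⌊C₂ / p⌋₊ (Fintype.card V / 24) c₁ C₂ p x ω := by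
    intro ω h
    obtain ⟨x, hx⟩ := dist_fail h0 hc₁ ω h
    exact ⟨x, Finset.mem_univ _, hx⟩
  refine le_trans (Pr_mono h0.le (by linarith) e1) ?_
  refine le_trans (Pr_exists_le h0.le (by linarith) _ _) ?_
  refine le_trans (Finset.sum_le_sum fun x _ => dist_prob_ev h0 h1 hc₁ x) (le_of_eq ?_)
  rw [Finset.sum_const, Finset.card_univ, nsmul_eq_mul]
  congr 1
  rw [Fintype.card_prod, Fintype.card_fun, Fintype.card_fun, Fintype.card_fun, Fintype.card_sum,
    Fintype.card_fin, Fintype.card_fin, Fintype.card_fin]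
  push_cast
  rfl

/-- The event attached to a tuple. -/
def bootEv (s : ℕ) (y : (Fin (6 * s) → V) × (Fin s ⊕ Fin s → V)) (ω : Sym2 V → Bool) : Prop :=
  Function.Injective y.2 ∧ ∀ z ∈ (Finset.univ : Finset (Fin s)) ×ˢ
    ((Finset.univ : Finset V).filter fun v =>
      v ∉ Finset.univ.image y.1 ∧ v ∉ Finset.univ.image y.2),
    mat (y.2 (Sum.inl z.1)) (y.2 (Sum.inr z.1)) {z.2} ω

theorem boot_fail (hN : 48 ≤ Fintype.card V) (ω : Sym2 V → Bool) (h : ¬ BootProp (gr ω)) :
    ∃ s, 1 ≤ s ∧ 16 * s ≤ Fintype.card V ∧ ∃ y, bootEv s y ω := by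
  unfold BootProp at h
  push Not at h
  obtain ⟨Y, hY, hY4, hbig⟩ := h
  obtain ⟨g, hginj, hg⟩ := boot_extract (G := gr ω) Y (s := Y.card / 6 + 1) (by omega)
  obtain ⟨f, hf⟩ := exists_fun_image (u := 6 * (Y.card / 6 + 1)) hY (by omega)
  refine ⟨Y.card / 6 + 1, by omega, by omega, (f, g), hginj, ?_⟩
  rintro ⟨i, v⟩ hz
  rw [Finset.mem_product] at hz
  have hv := (Finset.mem_filter.1 hz.2).2
  change v ∉ Finset.univ.image f ∧ v ∉ Finset.univ.image g at hv
  rw [hf] at hv
  obtain ⟨hv1, hv2⟩ := hv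
  show mat (g (Sum.inl i)) (g (Sum.inr i)) {v} ω
  have g4 := hg i v hv1
  rw [gr_adj, gr_adj] at g4
  have hne1 : v ≠ g (Sum.inl i) := fun h =>
    hv2 (Finset.mem_image.2 ⟨Sum.inl i, Finset.mem_univ _, h.symm⟩)
  have hne2 : v ≠ g (Sum.inr i) := fun h =>
    hv2 (Finset.mem_image.2 ⟨Sum.inr i, Finset.mem_univ _, h.symm⟩)
  unfold mat hit
  simp only [Finset.mem_singleton, exists_eq_left]
  constructor
  · intro h
    exact (g4.1 ⟨hne1, h⟩).2
  · intro h
    exact (g4.2 ⟨hne2, h⟩).2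

theorem boot_prob_ev {p : ℝ} {s : ℕ} (h0 : 0 < p) (h1 : p ≤ 1 / 2)
    (hs : 16 * s ≤ Fintype.card V) (y : (Fin (6 * s) → V) × (Fin s ⊕ Fin s → V)) :
    Pr p (bootEv s y) ≤ Real.exp (-(p * (Fintype.card V : ℝ) / 2)) ^ s := by
  by_cases hinj : Function.Injective y.2
  · obtain ⟨J, hJdef⟩ : ∃ J : Finset V, J = ((Finset.univ : Finset V).filter fun v =>
      v ∉ Finset.univ.image y.1 ∧ v ∉ Finset.univ.image y.2) := ⟨_, rfl⟩
    have hJmem : ∀ v, v ∈ J ↔ (v ∉ Finset.univ.image y.1 ∧ v ∉ Finset.univ.image y.2) := by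
      intro v
      rw [hJdef, Finset.mem_filter]
      simp only [Finset.mem_univ, true_and]
    have hJ : Fintype.card V ≤ J.card + 8 * s := by
      have h3 : (Finset.univ : Finset V) ⊆ J ∪
          (Finset.univ.image y.1 ∪ Finset.univ.image y.2) := by
        intro v _
        rw [Finset.mem_union, Finset.mem_union, hJmem]
        tauto
      have h4 := Finset.card_le_card h3
      have h5 := Finset.card_union_le J (Finset.univ.image y.1 ∪ Finset.univ.image y.2)
      have h6 := Finset.card_union_le (Finset.univ.image y.1) (Finset.univ.image y.2)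
      have h7 : (Finset.univ.image y.1).card ≤ 6 * s := by
        refine le_trans Finset.card_image_le ?_
        rw [Finset.card_univ, Fintype.card_fin]
      have h8 : (Finset.univ.image y.2).card ≤ 2 * s := by
        refine le_trans Finset.card_image_le ?_
        rw [Finset.card_univ, Fintype.card_sum, Fintype.card_fin]
        omega
      rw [Finset.card_univ] at h4
      omega
    have h9 := prob_twins (p := p) (m := Real.exp (-p)) h0.le (by linarith) hinj
      J (fun v => {v})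
      (fun i _ j _ hij => by rw [Finset.disjoint_singleton]; exact hij)
      (fun a v hv => by
        rw [hJmem] at hv
        rw [Finset.mem_singleton]
        rintro rfl
        exact hv.2 (Finset.mem_image_of_mem _ (Finset.mem_univ _)))
      (fun i v hv => by
        rw [hJmem] at hv
        apply prob_mat_single h0.le h1
        · rintro rfl
          exact hv.2 (Finset.mem_image_of_mem _ (Finset.mem_univ _))
        · rintro rfl
          exact hv.2 (Finset.mem_image_of_mem _ (Finset.mem_univ _))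
        · intro h
          simpa using hinj h)
    refine le_trans (Pr_mono h0.le (by linarith) (fun ω hω => by
      have := hω.2
      rw [← hJdef] at this
      exact this)) (le_trans h9 ?_)
    rw [← Real.exp_nat_mul, ← Real.exp_nat_mul]
    apply Real.exp_le_exp.2
    push_cast
    have h10 : (Fintype.card V : ℝ) ≤ J.card + 8 * s := by exact_mod_cast hJ
    have h11 : (16 : ℝ) * s ≤ Fintype.card V := by exact_mod_cast hs
    have h12 : (Fintype.card V : ℝ) / 2 ≤ J.card := by linarith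
    have hs0 : (0 : ℝ) ≤ s := by positivity
    have h13 : (s : ℝ) * p * (Fintype.card V / 2) ≤ s * p * J.card := by gcongr
    nlinarith
  · rw [Pr_false]
    · exact pow_nonneg (Real.exp_pos _).le _
    · intro ω hω
      exact hinj hω.1

theorem prob_bootProp {p : ℝ} (h0 : 0 < p) (h1 : p ≤ 1 / 2) (hN : 48 ≤ Fintype.card V)
    (hx : (Fintype.card V : ℝ) ^ 8 * Real.exp (-(p * (Fintype.card V : ℝ) / 2)) ≤ 1) :
    Pr p (fun ω : Sym2 V → Bool => ¬ BootProp (gr ω)) ≤
      (Fintype.card V : ℝ) * ((Fintype.card V : ℝ) ^ 8 *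
        Real.exp (-(p * (Fintype.card V : ℝ) / 2))) := by
  classical
  have hx0 : 0 ≤ (Fintype.card V : ℝ) ^ 8 * Real.exp (-(p * (Fintype.card V : ℝ) / 2)) := by
    positivity
  have e1 : ∀ ω : Sym2 V → Bool, ¬ BootProp (gr ω) →
      ∃ s ∈ (Finset.Icc 1 (Fintype.card V)).filter (fun s => 16 * s ≤ Fintype.card V),
        ∃ y ∈ (Finset.univ : Finset ((Fin (6 * s) → V) × (Fin s ⊕ Fin s → V))),
          bootEv s y ω := by
    intro ω h
    obtain ⟨s, hs1, hs2, y, hy⟩ := boot_fail hN ω h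
    refine ⟨s, ?_, y, Finset.mem_univ _, hy⟩
    rw [Finset.mem_filter, Finset.mem_Icc]
    omega
  refine le_trans (Pr_mono h0.le (by linarith) e1) ?_
  refine le_trans (Pr_exists_le h0.le (by linarith) _ _) ?_
  have e2 : ∀ s ∈ (Finset.Icc 1 (Fintype.card V)).filter (fun s => 16 * s ≤ Fintype.card V),
      Pr p (fun ω => ∃ y ∈ (Finset.univ : Finset ((Fin (6 * s) → V) × (Fin s ⊕ Fin s → V))),
        bootEv s y ω) ≤
      (Fintype.card V : ℝ) ^ 8 * Real.exp (-(p * (Fintype.card V : ℝ) / 2)) := by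
    intro s hs
    rw [Finset.mem_filter, Finset.mem_Icc] at hs
    obtain ⟨⟨hs1, hs2⟩, hs3⟩ := hs
    refine le_trans (Pr_exists_le h0.le (by linarith) _ _) ?_
    refine le_trans (Finset.sum_le_sum fun y _ => boot_prob_ev h0 h1 hs3 y) ?_
    rw [Finset.sum_const, Finset.card_univ, nsmul_eq_mul, Fintype.card_prod, Fintype.card_fun,
      Fintype.card_fun, Fintype.card_sum, Fintype.card_fin, Fintype.card_fin]
    push_cast
    calc (Fintype.card V : ℝ) ^ (6 * s) * (Fintype.card V : ℝ) ^ (s + s) *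
          Real.exp (-(p * (Fintype.card V : ℝ) / 2)) ^ s
        = ((Fintype.card V : ℝ) ^ 8 * Real.exp (-(p * (Fintype.card V : ℝ) / 2))) ^ s := by
          rw [mul_pow, ← pow_add, ← pow_mul]
          congr 2
          ring
      _ ≤ ((Fintype.card V : ℝ) ^ 8 * Real.exp (-(p * (Fintype.card V : ℝ) / 2))) ^ 1 :=
          pow_le_pow_of_le_one hx0 hx hs1
      _ = _ := pow_one _
  refine le_trans (Finset.sum_le_sum e2) ?_
  rw [Finset.sum_const, nsmul_eq_mul]
  have h14 : ((((Finset.Icc 1 (Fintype.card V)).filter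
      (fun s => 16 * s ≤ Fintype.card V)).card : ℕ) : ℝ) ≤ Fintype.card V := by
    have : ((Finset.Icc 1 (Fintype.card V)).filter
      (fun s => 16 * s ≤ Fintype.card V)).card ≤ (Finset.Icc 1 (Fintype.card V)).card :=
      Finset.card_filter_le _ _
    rw [Nat.card_Icc] at this
    exact_mod_cast (by omega : ((Finset.Icc 1 (Fintype.card V)).filter
      (fun s => 16 * s ≤ Fintype.card V)).card ≤ Fintype.card V)
  exact mul_le_mul_of_nonneg_right h14 hx0

end Pool.Agent.MPd11e37lc
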