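import Pool.Agent.Lib.MP_d11e37_lc.Walk

/-!
Dense regime: a family of disjoint definable sets of size about `1 / p`.
-/

set_option autoImplicit false
set_option linter.unusedSectionVars false

namespace Pool.Agent.MPd11e37lc

open Finset

variable {V : Type} [Fintype V] [DecidableEq V] {G : SimpleGraph V} {P : Finset V}

/-- Lower bound on all degrees. -/
def DegGe (G : SimpleGraph V) (p η : ℝ) : Prop :=
  ∀ v, (1 - η) * ((Fintype.card V : ℝ) * p) ≤ ((nb G {v}).card : ℝ)

/-- Upper bound on all codegrees. -/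
def CodegLe (G : SimpleGraph V) (p η : ℝ) : Prop :=
  ∀ v w, v ≠ w → ((nb G {v} ∩ nb G {w}).card : ℝ) ≤ (1 + η) * ((Fintype.card V : ℝ) * p ^ 2)

theorem shrink {K₀ p η s₁ : ℝ} {J : ℕ} (hN : 1 ≤ (Fintype.card V : ℝ)) (hp0 : 0 < p)
    (hp1 : p ≤ 1 / 2) (hη : 0 ≤ η) (hη1 : η ≤ 1 / 3)
    (hdeg : DegLe G p η) (hdeg' : DegGe G p η) (hres : ResProp G p K₀) (hK₀ : 16 ≤ K₀)
    (hs1 : K₀ ≤ s₁ * p) (hs2 : s₁ ≤ (Fintype.card V : ℝ))
    (hJ : (Fintype.card V : ℝ) * (3 / 4) ^ J ≤ s₁) :
    ∃ P B : Finset V, P.card ≤ J + 1 ∧ Def G P 1 B ∧ s₁ * p / 2 ≤ B.card ∧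
      (B.card : ℝ) ≤ s₁ := by
  classical
  have hne : Nonempty V := by
    rw [← Fintype.card_pos_iff]
    have : (0:ℝ) < Fintype.card V := by linarith
    exact_mod_cast this
  obtain ⟨b⟩ := hne
  have key : ∀ j : ℕ, ∃ P B : Finset V, P.card ≤ j + 1 ∧ Def G P 1 B ∧ s₁ * p / 2 ≤ B.card ∧
      3 * B.card ≤ 2 * Fintype.card V ∧
      ((B.card : ℝ) ≤ s₁ ∨ (B.card : ℝ) ≤ (Fintype.card V : ℝ) * (3 / 4) ^ j) := by
    intro j
    induction j with
    | zero =>
      have h1 := hdeg b
      have h2 := hdeg' b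
      have hNp : (Fintype.card V : ℝ) * p ≤ (Fintype.card V : ℝ) * (1 / 2) := by gcongr
      have hNp0 : 0 ≤ (Fintype.card V : ℝ) * p := by positivity
      have h3 : ((nb G {b}).card : ℝ) ≤ (2 / 3) * (Fintype.card V : ℝ) := by
        calc ((nb G {b}).card : ℝ) ≤ (1 + η) * ((Fintype.card V : ℝ) * p) := h1
          _ ≤ (1 + 1/3) * ((Fintype.card V : ℝ) * (1 / 2)) := by gcongr
          _ = (2 / 3) * (Fintype.card V : ℝ) := by ring
      refine ⟨{b}, nb G {b}, by simp, Def.nbr 0 _ (Def.sing 0 b (by simp)), ?_, ?_, ?_⟩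
      · refine le_trans ?_ h2
        have : s₁ * p ≤ (Fintype.card V : ℝ) * p := by gcongr
        nlinarith
      · have : (3 : ℝ) * (nb G {b}).card ≤ 2 * Fintype.card V := by linarith
        exact_mod_cast this
      · right
        simp only [pow_zero, mul_one]
        linarith
    | succ j ih =>
      obtain ⟨P, B, hP, hB, hl, h3, hu⟩ := ih
      by_cases hs : (B.card : ℝ) ≤ s₁
      · exact ⟨P, B, by omega, hB, hl, h3, Or.inl hs⟩
      · have hu' := hu.resolve_left hs
        push Not at hs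
        have hBp : s₁ * p ≤ (B.card : ℝ) * p := by gcongr
        obtain ⟨a, -, ha⟩ := hres B ∅ (by linarith) h3 (by simp)
        set q := (B.card : ℝ) * p with hq
        have hq0 : 0 < q := by linarith
        have hr : q ^ (-(1/4) : ℝ) ≤ 1 / 2 := by
          calc q ^ (-(1/4) : ℝ) ≤ (16 : ℝ) ^ (-(1/4) : ℝ) :=
                Real.rpow_le_rpow_of_nonpos (by norm_num) (by linarith) (by norm_num)
            _ = 1 / 2 := by
                rw [show (16:ℝ) = 2 ^ (4:ℝ) by norm_num, ← Real.rpow_mul (by norm_num),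
                  show (4:ℝ) * (-(1/4)) = -1 by norm_num, Real.rpow_neg_one]
                norm_num
        have ha2 : |((nb G {a} ∩ B).card : ℝ) - q| ≤ q / 2 := by
          refine le_trans ha ?_
          calc q * q ^ (-(1/4) : ℝ) ≤ q * (1/2) := by gcongr
            _ = q / 2 := by ring
        rw [abs_le] at ha2
        have hcard : (nb G {a} ∩ B).card ≤ B.card := Finset.card_le_card Finset.inter_subset_right
        refine ⟨insert a P, nb G {a} ∩ B, ?_, ?_, ?_, by omega, ?_⟩
        · exact le_trans (Finset.card_insert_le _ _) (by omega)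
        · have h8 : Def G (insert a P) 1 (nb G {a}) :=
            Def.nbr 0 _ (Def.sing 0 a (by simp))
          exact h8.inter' (hB.mono (Finset.subset_insert _ _))
        · linarith [ha2.1]
        · right
          have h5 : ((nb G {a} ∩ B).card : ℝ) ≤ 3 / 2 * q := by linarith [ha2.2]
          calc ((nb G {a} ∩ B).card : ℝ) ≤ 3 / 2 * q := h5
            _ ≤ 3 / 2 * ((B.card : ℝ) * (1 / 2)) := by rw [hq]; gcongr
            _ = (3 / 4) * (B.card : ℝ) := by ring
            _ ≤ (3 / 4) * ((Fintype.card V : ℝ) * (3 / 4) ^ j) := by gcongr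
            _ = (Fintype.card V : ℝ) * (3 / 4) ^ (j + 1) := by rw [pow_succ]; ring
  obtain ⟨P, B, h1, h2, h3, _, h5⟩ := key J
  refine ⟨P, B, h1, h2, h3, ?_⟩
  rcases h5 with h | h
  · exact h
  · linarith

open Classical in
/-- Elements of `B` which have a twin in `B` with respect to the tuple `A`. -/
noncomputable def nonuniqT (G : SimpleGraph V) {t : ℕ} (A : Fin t → V) (B : Finset V) : Finset V :=
  B.filter fun z => ∃ z' ∈ B, z' ≠ z ∧ ∀ i, (G.Adj (A i) z ↔ G.Adj (A i) z')

theorem sum_prod_tuple {t : ℕ} (w : V → ℝ) :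
    ∑ A : Fin t → V, ∏ i, w (A i) = (∑ a, w a) ^ t := by
  have := Finset.prod_univ_sum (fun _ : Fin t => (Finset.univ : Finset V)) (fun _ a => w a)
  rw [Fintype.piFinset_univ] at this
  rw [← this]
  simp

open Classical in
theorem trace_small {p η : ℝ} (t q : ℕ) (hdeg' : DegGe G p η) (z : V) :
    ∑ A : Fin t → V, (if (Finset.univ.filter fun i => G.Adj (A i) z).card < q then (1:ℝ) else 0) ≤
      2 ^ q * ((Fintype.card V : ℝ) * (1 - (1 - η) * p / 2)) ^ t := by
  have h1 : ∀ A : Fin t → V,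
      (if (Finset.univ.filter fun i => G.Adj (A i) z).card < q then (1:ℝ) else 0) ≤
      2 ^ q * ∏ i, (if G.Adj (A i) z then (1/2 : ℝ) else 1) := by
    intro A
    have e : ∏ i, (if G.Adj (A i) z then (1/2 : ℝ) else 1) =
        (1/2) ^ (Finset.univ.filter fun i => G.Adj (A i) z).card := by
      rw [Finset.prod_ite]
      simp
    rw [e]
    split_ifs with h
    · have h2 : (2:ℝ) ^ (Finset.univ.filter fun i => G.Adj (A i) z).card ≤ 2 ^ q :=
        pow_le_pow_right₀ (by norm_num) h.le
      rw [one_div, inv_pow, ← div_eq_mul_inv, le_div_iff₀ (by positivity)]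
      linarith
    · positivity
  have h2 : ∑ a : V, (if G.Adj a z then (1/2 : ℝ) else 1) ≤
      (Fintype.card V : ℝ) * (1 - (1 - η) * p / 2) := by
    have e : ∑ a : V, (if G.Adj a z then (1/2 : ℝ) else 1) =
        (Fintype.card V : ℝ) - (nb G {z}).card / 2 := by
      have : ∀ a : V, (if G.Adj a z then (1/2 : ℝ) else 1) =
          1 - (if a ∈ nb G {z} then (1/2 : ℝ) else 0) := by
        intro a
        have h : a ∈ nb G {z} ↔ G.Adj a z := by rw [mem_nb_singleton, G.adj_comm]
        by_cases hh : G.Adj a z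
        · rw [if_pos hh, if_pos (h.2 hh)]; norm_num
        · rw [if_neg hh, if_neg (fun c => hh (h.1 c))]; norm_num
      simp_rw [this]
      rw [Finset.sum_sub_distrib, ← Finset.sum_filter, Finset.filter_univ_mem]
      simp
      ring
    rw [e]
    have := hdeg' z
    linarith
  have h3 : 0 ≤ ∑ a : V, (if G.Adj a z then (1/2 : ℝ) else 1) :=
    Finset.sum_nonneg fun a _ => by split_ifs <;> norm_num
  calc _ ≤ ∑ A : Fin t → V, 2 ^ q * ∏ i, (if G.Adj (A i) z then (1/2 : ℝ) else 1) :=
        Finset.sum_le_sum fun A _ => h1 A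
    _ = 2 ^ q * (∑ a : V, (if G.Adj a z then (1/2 : ℝ) else 1)) ^ t := by
        have := sum_prod_tuple (t := t) (fun a => if G.Adj a z then (1/2 : ℝ) else 1)
        beta_reduce at this
        rw [← Finset.mul_sum, this]
    _ ≤ _ := by gcongr

open Classical in
theorem trace_coll {p η : ℝ} (hp0 : 0 < p) (hp1 : p ≤ 1 / 2) (hη : 0 ≤ η) (hη1 : η ≤ 1 / 8)
    (t q : ℕ) (hdeg' : DegGe G p η) (hcodeg : CodegLe G p η) (z z' : V) (hne : z ≠ z') :
    ∑ A : Fin t → V, (if q ≤ (Finset.univ.filter fun i => G.Adj (A i) z).card ∧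
      (∀ i, (G.Adj (A i) z ↔ G.Adj (A i) z')) then (1:ℝ) else 0) ≤
      p ^ q * (Fintype.card V : ℝ) ^ t := by
  set w : V → ℝ := fun a => if G.Adj a z ∧ G.Adj a z' then 1 / p else
    if ¬ G.Adj a z ∧ ¬ G.Adj a z' then 1 else 0 with hw
  have hw0 : ∀ a, 0 ≤ w a := by
    intro a
    simp only [hw]
    split_ifs <;> positivity
  have h1 : ∀ A : Fin t → V, (if q ≤ (Finset.univ.filter fun i => G.Adj (A i) z).card ∧
      (∀ i, (G.Adj (A i) z ↔ G.Adj (A i) z')) then (1:ℝ) else 0) ≤
      p ^ q * ∏ i, w (A i) := by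
    intro A
    split_ifs with h
    · obtain ⟨hq, hA⟩ := h
      have e : ∏ i, w (A i) = (1 / p) ^ (Finset.univ.filter fun i => G.Adj (A i) z).card := by
        have : ∀ i, w (A i) = if G.Adj (A i) z then 1 / p else 1 := by
          intro i
          simp only [hw]
          have := hA i
          by_cases h1 : G.Adj (A i) z
          · simp [h1, this.1 h1]
          · have h2 : ¬ G.Adj (A i) z' := fun h => h1 (this.2 h)
            simp [h1, h2]
        simp_rw [this]
        rw [Finset.prod_ite]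
        simp
      rw [e]
      have h2 : (1 : ℝ) ≤ 1 / p := by
        rw [le_div_iff₀ hp0]; linarith
      calc (1:ℝ) = p ^ q * (1 / p) ^ q := by
            rw [← mul_pow, mul_one_div_cancel hp0.ne', one_pow]
        _ ≤ p ^ q * (1 / p) ^ (Finset.univ.filter fun i => G.Adj (A i) z).card := by
            gcongr
    · exact mul_nonneg (by positivity) (Finset.prod_nonneg fun i _ => hw0 _)
  have h2 : ∑ a, w a ≤ (Fintype.card V : ℝ) := by
    set c : ℝ := ((nb G {z} ∩ nb G {z'}).card : ℝ) with hc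
    have e : ∑ a, w a = (Fintype.card V : ℝ) - (nb G {z}).card - (nb G {z'}).card + c + c / p := by
      have : ∀ a : V, w a = 1 - (if a ∈ nb G {z} then (1 : ℝ) else 0) -
          (if a ∈ nb G {z'} then (1 : ℝ) else 0) +
          (if a ∈ nb G {z} ∩ nb G {z'} then (1 + 1 / p : ℝ) else 0) := by
        intro a
        simp only [hw, Finset.mem_inter, mem_nb_singleton, G.adj_comm z a, G.adj_comm z' a]
        by_cases h1 : G.Adj a z <;> by_cases h2 : G.Adj a z' <;> simp [h1, h2]
      simp_rw [this]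
      rw [Finset.sum_add_distrib, Finset.sum_sub_distrib, Finset.sum_sub_distrib,
        ← Finset.sum_filter, ← Finset.sum_filter, ← Finset.sum_filter, Finset.filter_univ_mem,
        Finset.filter_univ_mem, Finset.filter_univ_mem]
      simp only [Finset.sum_const, Finset.card_univ, nsmul_eq_mul, mul_one]
      rw [← hc]
      ring
    rw [e]
    have g1 := hdeg' z
    have g2 := hdeg' z'
    have g3 := hcodeg z z' hne
    rw [← hc] at g3
    set N := (Fintype.card V : ℝ) with hN
    have hN0 : 0 ≤ N := by positivity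
    have hc0 : 0 ≤ c := by positivity
    have g4 : c / p ≤ (1 + η) * (N * p) := by
      rw [div_le_iff₀ hp0]
      calc c ≤ (1 + η) * (N * p ^ 2) := g3
        _ = (1 + η) * (N * p) * p := by ring
    have g5 : c ≤ (1 + η) * (N * p) * (1 / 2) := by
      calc c ≤ (1 + η) * (N * p ^ 2) := g3
        _ = (1 + η) * (N * p) * p := by ring
        _ ≤ (1 + η) * (N * p) * (1 / 2) := by gcongr
    have hNp : 0 ≤ N * p := by positivity
    nlinarith
  calc _ ≤ ∑ A : Fin t → V, p ^ q * ∏ i, w (A i) := Finset.sum_le_sum fun A _ => h1 A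
    _ = p ^ q * (∑ a : V, w a) ^ t := by
        rw [← Finset.mul_sum, sum_prod_tuple]
    _ ≤ _ := by
        gcongr

open Classical in
theorem exists_tuple {p η : ℝ} (hN : 1 ≤ (Fintype.card V : ℝ)) (hp0 : 0 < p) (hp1 : p ≤ 1 / 2)
    (hη : 0 ≤ η) (hη1 : η ≤ 1 / 10) (t q : ℕ) (hdeg' : DegGe G p η) (hcodeg : CodegLe G p η)
    (B : Finset V) (ht : 8 ≤ p * t) (hq : (q : ℝ) ≤ p * t / 4 + 1)
    (hB : (B.card : ℝ) * p ^ q ≤ 1 / 4) :
    ∃ A : Fin t → V, 2 * (nonuniqT G A B).card ≤ B.card := by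
  by_contra hcon
  push Not at hcon
  set N := (Fintype.card V : ℝ) with hNdef
  have hN0 : 0 < N := by linarith
  -- total count
  have h1 : ∀ A : Fin t → V, ((nonuniqT G A B).card : ℝ) ≤
      ∑ z ∈ B, ((if (Finset.univ.filter fun i => G.Adj (A i) z).card < q then (1:ℝ) else 0) +
        ∑ z' ∈ B.erase z, (if q ≤ (Finset.univ.filter fun i => G.Adj (A i) z).card ∧
          (∀ i, (G.Adj (A i) z ↔ G.Adj (A i) z')) then (1:ℝ) else 0)) := by
    intro A
    have e : ((nonuniqT G A B).card : ℝ) = ∑ z ∈ B,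
        if ∃ z' ∈ B, z' ≠ z ∧ ∀ i, (G.Adj (A i) z ↔ G.Adj (A i) z') then (1:ℝ) else 0 := by
      unfold nonuniqT
      rw [Finset.card_filter]
      push_cast
      rfl
    rw [e]
    apply Finset.sum_le_sum
    intro z _
    have hnn : ∀ z' ∈ B.erase z, (0:ℝ) ≤
        (if q ≤ (Finset.univ.filter fun i => G.Adj (A i) z).card ∧
          (∀ i, (G.Adj (A i) z ↔ G.Adj (A i) z')) then (1:ℝ) else 0) := by
      intro z' _
      split_ifs <;> norm_num
    by_cases hz : ∃ z' ∈ B, z' ≠ z ∧ ∀ i, (G.Adj (A i) z ↔ G.Adj (A i) z')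
    · rw [if_pos hz]
      by_cases hq' : (Finset.univ.filter fun i => G.Adj (A i) z).card < q
      · rw [if_pos hq']
        have := Finset.sum_nonneg hnn
        linarith
      · rw [if_neg hq']
        obtain ⟨z', hz', hne, hall⟩ := hz
        have h3 := Finset.single_le_sum hnn (Finset.mem_erase.2 ⟨hne, hz'⟩)
        rw [if_pos ⟨by omega, hall⟩] at h3
        linarith
    · rw [if_neg hz]
      have := Finset.sum_nonneg hnn
      split_ifs <;> linarith
  have h2 : ∑ A : Fin t → V, ((nonuniqT G A B).card : ℝ) ≤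
      B.card * (2 ^ q * (N * (1 - (1 - η) * p / 2)) ^ t + B.card * (p ^ q * N ^ t)) := by
    calc ∑ A : Fin t → V, ((nonuniqT G A B).card : ℝ)
        ≤ ∑ A : Fin t → V, ∑ z ∈ B,
          ((if (Finset.univ.filter fun i => G.Adj (A i) z).card < q then (1:ℝ) else 0) +
          ∑ z' ∈ B.erase z, (if q ≤ (Finset.univ.filter fun i => G.Adj (A i) z).card ∧
          (∀ i, (G.Adj (A i) z ↔ G.Adj (A i) z')) then (1:ℝ) else 0)) :=
          Finset.sum_le_sum fun A _ => h1 A
      _ = ∑ z ∈ B, ((∑ A : Fin t → V,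
            (if (Finset.univ.filter fun i => G.Adj (A i) z).card < q then (1:ℝ) else 0)) +
          ∑ z' ∈ B.erase z, ∑ A : Fin t → V,
            (if q ≤ (Finset.univ.filter fun i => G.Adj (A i) z).card ∧
            (∀ i, (G.Adj (A i) z ↔ G.Adj (A i) z')) then (1:ℝ) else 0)) := by
          rw [Finset.sum_comm]
          apply Finset.sum_congr rfl
          intro z _
          rw [Finset.sum_add_distrib]
          congr 1
          rw [Finset.sum_comm]
      _ ≤ ∑ z ∈ B, (2 ^ q * (N * (1 - (1 - η) * p / 2)) ^ t +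
          ∑ z' ∈ B.erase z, p ^ q * N ^ t) := by
          apply Finset.sum_le_sum
          intro z _
          apply add_le_add
          · exact trace_small t q hdeg' z
          · apply Finset.sum_le_sum
            intro z' hz'
            exact trace_coll hp0 hp1 hη (by linarith) t q hdeg' hcodeg z z'
              (Finset.ne_of_mem_erase hz').symm
      _ ≤ ∑ z ∈ B, (2 ^ q * (N * (1 - (1 - η) * p / 2)) ^ t + B.card * (p ^ q * N ^ t)) := by
          apply Finset.sum_le_sum
          intro z _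
          rw [Finset.sum_const, nsmul_eq_mul]
          have : ((B.erase z).card : ℝ) ≤ B.card := by
            exact_mod_cast Finset.card_erase_le
          have hpos : 0 ≤ p ^ q * N ^ t := by positivity
          gcongr
      _ = _ := by rw [Finset.sum_const, nsmul_eq_mul]
  have hlast : 2 ^ q * (N * (1 - (1 - η) * p / 2)) ^ t ≤ (1/4) * N ^ t := by
    have hfac : 0 ≤ 1 - (1 - η) * p / 2 := by nlinarith
    rw [mul_pow]
    have g1 : (1 - (1 - η) * p / 2) ^ t ≤ Real.exp (-((1 - η) * p / 2)) ^ t := by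
      gcongr
      have := Real.add_one_le_exp (-((1 - η) * p / 2))
      linarith
    have g2 : (2:ℝ) ^ q ≤ Real.exp (0.7 * q) := by
      have : (2:ℝ) ≤ Real.exp 0.7 := by
        have h5 := Real.log_two_lt_d9
        have h6 : Real.log 2 ≤ 0.7 := by linarith
        calc (2:ℝ) = Real.exp (Real.log 2) := (Real.exp_log (by norm_num)).symm
          _ ≤ Real.exp 0.7 := Real.exp_le_exp.2 h6
      calc (2:ℝ) ^ q ≤ Real.exp 0.7 ^ q := by gcongr
        _ = Real.exp (0.7 * q) := by rw [← Real.exp_nat_mul]; ring_nf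
    have g3 : Real.exp (-((1 - η) * p / 2)) ^ t = Real.exp (-((1 - η) * (p * t) / 2)) := by
      rw [← Real.exp_nat_mul]; ring_nf
    have g4 : 2 ^ q * (1 - (1 - η) * p / 2) ^ t ≤ 1 / 4 := by
      calc 2 ^ q * (1 - (1 - η) * p / 2) ^ t
          ≤ Real.exp (0.7 * q) * Real.exp (-((1 - η) * (p * t) / 2)) := by
            rw [← g3]
            gcongr
        _ = Real.exp (0.7 * q + -((1 - η) * (p * t) / 2)) := by rw [Real.exp_add]
        _ ≤ Real.exp (-1.5) := by
            apply Real.exp_le_exp.2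
            nlinarith
        _ ≤ 1 / 4 := by
            have h7 := Real.exp_one_gt_d9
            have h8 : Real.exp (-1.5) ^ 2 = (Real.exp 1 ^ 3)⁻¹ := by
              rw [← Real.exp_nat_mul, ← Real.exp_nat_mul, ← Real.exp_neg]
              norm_num
            have h9 : (16 : ℝ) ≤ Real.exp 1 ^ 3 := by
              calc (16:ℝ) ≤ 2.7 ^ 3 := by norm_num
                _ ≤ Real.exp 1 ^ 3 := by gcongr; linarith
            have h10 : Real.exp (-1.5) ^ 2 ≤ (1/4) ^ 2 := by
              rw [h8]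
              calc (Real.exp 1 ^ 3)⁻¹ ≤ (16:ℝ)⁻¹ := by gcongr
                _ = (1/4) ^ 2 := by norm_num
            exact le_of_sq_le_sq h10 (by norm_num)
    calc 2 ^ q * (N ^ t * (1 - (1 - η) * p / 2) ^ t)
        = (2 ^ q * (1 - (1 - η) * p / 2) ^ t) * N ^ t := by ring
      _ ≤ (1/4) * N ^ t := by gcongr
  have h3 : ∑ A : Fin t → V, ((nonuniqT G A B).card : ℝ) ≤ (B.card : ℝ) / 2 * N ^ t := by
    refine le_trans h2 ?_
    calc B.card * (2 ^ q * (N * (1 - (1 - η) * p / 2)) ^ t + B.card * (p ^ q * N ^ t))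
        = B.card * (2 ^ q * (N * (1 - (1 - η) * p / 2)) ^ t + (B.card * p ^ q) * N ^ t) := by
          ring
      _ ≤ B.card * ((1/4) * N ^ t + (1/4) * N ^ t) := by gcongr
      _ = _ := by ring
  have h4 : ∑ A : Fin t → V, ((B.card : ℝ) / 2) < ∑ A : Fin t → V, ((nonuniqT G A B).card : ℝ) := by
    apply Finset.sum_lt_sum_of_nonempty
    · have hne : Nonempty V := by
        rw [← Fintype.card_pos_iff]
        rw [hNdef] at hN0
        exact_mod_cast hN0
      exact Finset.univ_nonempty
    · intro A _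
      have := hcon A
      have : (B.card : ℝ) < 2 * (nonuniqT G A B).card := by exact_mod_cast this
      linarith
  rw [Finset.sum_const, Finset.card_univ, Fintype.card_fun, Fintype.card_fin, nsmul_eq_mul] at h4
  push_cast at h4
  rw [← hNdef] at h4
  linarith [mul_comm (N ^ t) ((B.card : ℝ) / 2)]

theorem regime2 {K₀ p η s₁ : ℝ} {J t q k u : ℕ} (hN : 1 ≤ (Fintype.card V : ℝ)) (hp0 : 0 < p)
    (hp1 : p ≤ 1 / 2) (hη : 0 ≤ η) (hη1 : η ≤ 1 / 10)
    (hdeg : DegLe G p η) (hdeg' : DegGe G p η) (hcodeg : CodegLe G p η) (hres : ResProp G p K₀)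
    (hK₀ : 16 ≤ K₀) (hs1 : K₀ ≤ s₁ * p) (hs2 : s₁ ≤ (Fintype.card V : ℝ))
    (hJ : (Fintype.card V : ℝ) * (3 / 4) ^ J ≤ s₁)
    (ht : 8 ≤ p * t) (hq : (q : ℝ) ≤ p * t / 4 + 1) (hsq : s₁ * p ^ q ≤ 1 / 4)
    (hku : 4 * (k * u : ℝ) ≤ s₁ * p) :
    ∃ P : Finset V, P.card ≤ J + 1 + t ∧ ∃ S : Fin k → Finset V, (∀ j, Def G P 1 (S j)) ∧
      (∀ i j, i ≠ j → Disjoint (S i) (S j)) ∧ (∀ j, (S j).card = u) := by
  classical
  obtain ⟨P, B, hP, hB, hBl, hBu⟩ := shrink hN hp0 hp1 hη (by linarith) hdeg hdeg' hres hK₀ hs1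
    hs2 hJ
  obtain ⟨A, hA⟩ := exists_tuple hN hp0 hp1 hη hη1 t q hdeg' hcodeg B ht hq
    (le_trans (by gcongr) hsq)
  set P' : Finset V := P ∪ Finset.univ.image A with hP'
  have hP'c : P'.card ≤ J + 1 + t := by
    refine le_trans (Finset.card_union_le _ _) ?_
    have : (Finset.univ.image A).card ≤ t := by
      refine le_trans Finset.card_image_le ?_
      simp
    omega
  set B' := B \ nonuniqT G A B with hB'
  have hB'c : (k * u : ℝ) ≤ B'.card := by
    have h1 : B.card ≤ B'.card + (nonuniqT G A B).card := by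
      have : B ⊆ B' ∪ nonuniqT G A B := by
        intro x hx
        rw [hB', Finset.mem_union, Finset.mem_sdiff]
        tauto
      exact le_trans (Finset.card_le_card this) (Finset.card_union_le _ _)
    have h2 : (B.card : ℝ) ≤ 2 * B'.card := by
      have : B.card ≤ 2 * B'.card := by omega
      exact_mod_cast this
    linarith
  have hB'c' : k * u ≤ B'.card := by exact_mod_cast hB'c
  -- singletons of B' are definable
  have hsing : ∀ z ∈ B', Def G P' 1 {z} := by
    intro z hz
    rw [hB', Finset.mem_sdiff] at hz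
    have h1 := Def.pattern (G := G) (P := P') (d := 0) Finset.univ (fun i : Fin t => {A i})
      (fun i _ => Def.sing 0 (A i) (by simp [hP'])) z
    have h2 : Def G P' 1 B := hB.mono Finset.subset_union_left
    have h3 := h1.inter' h2
    convert h3 using 1
    ext y
    simp only [Finset.mem_singleton, Finset.mem_inter, Finset.mem_filter, Finset.mem_univ,
      true_and, true_implies, mem_nb_singleton]
    constructor
    · rintro rfl
      exact ⟨fun _ => Iff.rfl, hz.1⟩
    · rintro ⟨hy1, hy2⟩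
      by_contra hne
      apply hz.2
      unfold nonuniqT
      rw [Finset.mem_filter]
      exact ⟨hz.1, y, hy2, hne, fun i => (hy1 i).symm⟩
  obtain ⟨f⟩ : Nonempty (Fin k × Fin u ↪ {x // x ∈ B'}) := by
    rw [Function.Embedding.nonempty_iff_card_le]
    simpa using hB'c'
  refine ⟨P', hP'c, fun j => Finset.univ.image fun i => (f (j, i)).val, ?_, ?_, ?_⟩
  · intro j
    apply Def.of_singletons hsing
    intro x hx
    rw [Finset.mem_image] at hx
    obtain ⟨i, -, rfl⟩ := hx
    exact (f (j, i)).2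
  · intro i j hij
    rw [Finset.disjoint_left]
    intro x hx hx'
    rw [Finset.mem_image] at hx hx'
    obtain ⟨a, -, ha⟩ := hx
    obtain ⟨b, -, hb⟩ := hx'
    have := f.injective (Subtype.ext (ha.trans hb.symm))
    exact hij (Prod.ext_iff.1 this).1
  · intro j
    rw [Finset.card_image_of_injective]
    · simp
    · intro a b hab
      have := f.injective (Subtype.ext hab)
      exact (Prod.ext_iff.1 this).2

end Pool.Agent.MPd11e37lc
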