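import Pool.Agent.Lib.MP_d11e37_lc.Regime1
import Pool.Agent.Lib.MP_d11e37_lc.Regime2
import Pool.Agent.Lib.MP_d11e37_lc.Props3
import Pool.Agent.Lib.MP_d11e37_lc.Err

/-!
Deterministic conclusion for sparse graphs.
-/

set_option autoImplicit false
set_option linter.unusedSectionVars false

namespace Pool.Agent.MPd11e37lc

open Finset

/-- The basic constant. -/
noncomputable def KK : ℝ := 4294967296

theorem KK_rpow : KK ^ (-(1/4) : ℝ) = 1 / 256 := by
  have h : KK = (256 : ℝ) ^ (4 : ℝ) := by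
    unfold KK
    norm_num
  rw [h, ← Real.rpow_mul (by norm_num)]
  norm_num

theorem KK_sqrt : 2 * Real.exp (-(Real.sqrt (KK / 2) / 4)) ≤ Real.exp (-10) := by
  have h1 : (32768 : ℝ) ≤ Real.sqrt (KK / 2) := by
    apply Real.le_sqrt_of_sq_le
    unfold KK
    norm_num
  have h2 : (2 : ℝ) ≤ Real.exp 1 := by
    have := Real.add_one_le_exp (1 : ℝ)
    linarith
  calc 2 * Real.exp (-(Real.sqrt (KK / 2) / 4))
      ≤ Real.exp 1 * Real.exp (-(Real.sqrt (KK / 2) / 4)) := by gcongr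
    _ = Real.exp (1 + -(Real.sqrt (KK / 2) / 4)) := by rw [← Real.exp_add]
    _ ≤ Real.exp (-10) := by
        apply Real.exp_le_exp.2
        linarith

theorem ev_pow (A B : ℝ) (hB : 0 < B) {i j : ℕ} (hij : i < j) :
    ∀ᶠ l : ℝ in Filter.atTop, A * l ^ i ≤ B * l ^ j := by
  filter_upwards [Filter.eventually_ge_atTop (1 : ℝ), Filter.eventually_ge_atTop (A / B)] with l h1 h2
  have hl0 : 0 ≤ l := by linarith
  rw [div_le_iff₀ hB] at h2
  calc A * l ^ i ≤ (l * B) * l ^ i := by gcongr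
    _ = B * l ^ (i + 1) := by ring
    _ ≤ B * l ^ j := by
        have := pow_le_pow_right₀ h1 (show i + 1 ≤ j by omega)
        gcongr

/-- The number of steps. -/
theorem ceil_facts {n : ℕ} {l : ℝ} (hl : l = Real.log n) (hl1 : 1 ≤ l) :
    (n : ℝ) = Real.exp l ∧ l ≤ (⌈l⌉₊ : ℝ) ∧ ((⌈l⌉₊ : ℕ) : ℝ) < l + 1 ∧ 1 ≤ ⌈l⌉₊ ∧
      n < 2 ^ (2 * ⌈l⌉₊) := by
  have hn : (0 : ℝ) < n := by
    by_contra h
    have : (n : ℝ) = 0 := le_antisymm (not_lt.1 h) (by positivity)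
    rw [this, Real.log_zero] at hl
    linarith
  have h1 : (n : ℝ) = Real.exp l := by rw [hl, Real.exp_log hn]
  have h2 : l ≤ (⌈l⌉₊ : ℝ) := Nat.le_ceil l
  have h3 : ((⌈l⌉₊ : ℕ) : ℝ) < l + 1 := Nat.ceil_lt_add_one (by linarith)
  have h4 : 1 ≤ ⌈l⌉₊ := Nat.one_le_ceil_iff.2 (by linarith)
  refine ⟨h1, h2, h3, h4, ?_⟩
  have h5 : (n : ℝ) < (2 : ℝ) ^ (2 * ⌈l⌉₊) := by
    calc (n : ℝ) = Real.exp l := h1
      _ ≤ Real.exp ((⌈l⌉₊ : ℕ) : ℝ) := Real.exp_le_exp.2 h2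
      _ = Real.exp 1 ^ ⌈l⌉₊ := by rw [← Real.exp_nat_mul, mul_one]
      _ < 4 ^ ⌈l⌉₊ := by
          apply pow_lt_pow_left₀ _ (Real.exp_pos _).le (by omega)
          have := Real.exp_one_lt_d9
          linarith
      _ = (2 : ℝ) ^ (2 * ⌈l⌉₊) := by
          rw [pow_mul]; norm_num
  exact_mod_cast h5

/-- Conclusion of the final stage. -/
theorem finish {n : ℕ} {G : SimpleGraph (Fin n)} {P : Finset (Fin n)} {l p c₁ C₂ : ℝ} {d k : ℕ}
    (hl : l = Real.log n) (hl1 : 1 ≤ l) (hp : 0 < p) {S : Fin k → Finset (Fin n)}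
    (hS : ∀ j, Def G P d (S j)) (hdisj : ∀ i j, i ≠ j → Disjoint (S i) (S j))
    (hsize : ∀ j, c₁ ≤ ((S j).card : ℝ) * p ∧ ((S j).card : ℝ) * p ≤ C₂)
    (hdist : DistProp G k c₁ C₂ p) (hboot : BootProp G) (hk : 8 * (k * C₂) ≤ n * p) :
    DefinedBy G (P.card + ((d + 1 + 2 * ⌈l⌉₊) + 2)) := by
  classical
  obtain ⟨h1, h2, h3, h4, h5⟩ := ceil_facts hl hl1
  apply definedBy_of_def
  apply final_stage (S := S) hboot hS
  · rw [Fintype.card_fin]
    have h6 : ((Finset.univ.biUnion S).card : ℝ) ≤ ∑ j : Fin k, ((S j).card : ℝ) := by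
      have : (Finset.univ.biUnion S).card ≤ ∑ j : Fin k, (S j).card := Finset.card_biUnion_le
      exact_mod_cast this
    have h7 : ((Finset.univ.biUnion S).card : ℝ) * p ≤ k * C₂ := by
      calc ((Finset.univ.biUnion S).card : ℝ) * p ≤ (∑ j : Fin k, ((S j).card : ℝ)) * p := by
            gcongr
        _ = ∑ j : Fin k, ((S j).card : ℝ) * p := Finset.sum_mul _ _ _
        _ ≤ ∑ j : Fin k, C₂ := Finset.sum_le_sum fun j _ => (hsize j).2
        _ = k * C₂ := by rw [Finset.sum_const, Finset.card_univ, Fintype.card_fin, nsmul_eq_mul]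
    have h8 : (8 * ((Finset.univ.biUnion S).card : ℝ)) * p ≤ n * p := by linarith
    have h9 := le_of_mul_le_mul_right h8 hp
    exact_mod_cast h9
  · exact hdist S hdisj hsize
  · rw [Fintype.card_fin]
    exact h5

/-- Deterministic conclusion for sparse graphs. -/
theorem det1 (D : ℝ) (hD : 0 < D) : ∀ᶠ l : ℝ in Filter.atTop, ∀ (n : ℕ) (G : SimpleGraph (Fin n))
    (p : ℝ) (k : ℕ), l = Real.log n → 0 < p → (k : ℝ) ≤ D * l → 320 * k * p ≤ 1 → p ≤ 1 / KK →
    l ^ 20 ≤ n * p → DegLe G p (1 / l ^ 4) → ExpProp G p (1 / l ^ 4) → ResProp G p (KK / 2) →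
    DistProp G k (1 / (16 * KK)) (8 * KK) p → BootProp G →
    ∃ m : ℕ, (m : ℝ) ≤ (10 + D) * l ∧ DefinedBy G m := by
  filter_upwards [Filter.eventually_ge_atTop (10 : ℝ), ev_pow KK 1 one_pos (show 0 < 20 by norm_num),
    ev_pow (2048 * D) 1 one_pos (show 2 < 4 by norm_num),
    ev_pow (512 * (8 * KK * D) * D) 1 one_pos (show 3 < 20 by norm_num),
    ev_pow (8 * KK * D) 1 one_pos (show 1 < 20 by norm_num),
    ev_pow (8 * (D * (8 * KK))) 1 one_pos (show 1 < 20 by norm_num)] with l hl10 e1 e2 e3 e4 e5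
  intro n G p k hl hp hk hkp hpK hnp hdeg hexp hres hdist hboot
  have hKK : (0 : ℝ) < KK := by unfold KK; norm_num
  have hl1 : 1 ≤ l := by linarith
  have hl0 : 0 < l := by linarith
  obtain ⟨h1, h2, h3, h4, h5⟩ := ceil_facts hl hl1
  have hcard : (Fintype.card (Fin n) : ℝ) = n := by rw [Fintype.card_fin]
  have hn0 : (0 : ℝ) < n := by rw [h1]; exact Real.exp_pos _
  have hNp0 : (0 : ℝ) < n * p := by positivity
  simp only [pow_zero, mul_one, one_mul, pow_one] at e1 e2 e3 e4 e5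
  have hK1 : (1 : ℝ) < KK := by unfold KK; norm_num
  have hKnp : KK ≤ n * p := by linarith
  have hp1 : p < 1 := lt_of_le_of_lt hpK (by rw [div_lt_one hKK]; exact hK1)
  have hn1 : (1 : ℝ) < n := by nlinarith
  have hnL : (n : ℝ) ≤ KK ^ ⌈l⌉₊ := by
    calc (n : ℝ) = Real.exp l := h1
      _ ≤ Real.exp ((⌈l⌉₊ : ℕ) : ℝ) := Real.exp_le_exp.2 h2
      _ = Real.exp 1 ^ ⌈l⌉₊ := by rw [← Real.exp_nat_mul, mul_one]
      _ ≤ KK ^ ⌈l⌉₊ := by
          apply pow_le_pow_left₀ (Real.exp_pos _).le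
          have := Real.exp_one_lt_d9
          unfold KK
          linarith
  obtain ⟨I, hI, ⟨hM1, hM2⟩, g2, g3, g4⟩ := seq_main hK1 hn1 hp hpK hKnp hnL
  have hIl : (I : ℝ) ≤ l := by
    have : ((I + 1 : ℕ) : ℝ) ≤ (⌈l⌉₊ : ℕ) := by exact_mod_cast hI
    push_cast at this
    linarith
  set η : ℝ := 1 / l ^ 4 with hη
  have hη0 : 0 ≤ η := by positivity
  have hlη : l * η ≤ 1 / 10 := by
    rw [hη, mul_one_div, div_le_div_iff₀ (by positivity) (by norm_num)]
    have : l ^ 4 = l * l ^ 3 := by ring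
    rw [this, one_mul]
    have h6 : (10 : ℝ) ^ 3 ≤ l ^ 3 := pow_le_pow_left₀ (by norm_num) hl10 3
    nlinarith
  have hη1 : η ≤ 1 := by nlinarith
  have hIη' : (I : ℝ) * η ≤ 1 / 10 := by nlinarith
  have hE : ∀ j, j ≤ I → ∑ i ∈ range j, errS η (Fintype.card (Fin n)) p i ≤ 1 / 2 := by
    intro j hj
    rw [hcard]
    refine le_trans (err_sum hK1 hn1 hp hp1 (by linarith) hη0 g2 g3 j hj) ?_
    rw [KK_rpow]
    have h6 : (j : ℝ) * η ≤ 1 / 10 := by
      have : (j : ℝ) ≤ I := by exact_mod_cast hj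
      nlinarith
    have h7 : 2 * ((1 / KK) / (1 - 1 / KK)) ≤ 1 / 10 := by
      unfold KK; norm_num
    have h8 : 2 * ((1 / 256 : ℝ) / (1 - 1 / 256)) ≤ 1 / 10 := by norm_num
    linarith
  set κ : ℝ := (2 * η + k * (8 * KK / ((Fintype.card (Fin n) : ℝ) * p))) * (128 * k) with hκ
  have hk0 : (0 : ℝ) ≤ k := by positivity
  have hterm : (k : ℝ) * (8 * KK / ((Fintype.card (Fin n) : ℝ) * p)) ≤ 8 * KK * D * l / l ^ 20 := by
    rw [hcard]
    have h6 : 8 * KK / ((n : ℝ) * p) ≤ 8 * KK / l ^ 20 := by gcongr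
    calc (k : ℝ) * (8 * KK / (n * p)) ≤ (D * l) * (8 * KK / l ^ 20) := by gcongr
      _ = 8 * KK * D * l / l ^ 20 := by ring
  have hIκ : (I : ℝ) * κ ≤ 1 / 2 := by
    have h6 : κ ≤ (2 * η + 8 * KK * D * l / l ^ 20) * (128 * (D * l)) := by
      rw [hκ]
      gcongr
    have h7 : (I : ℝ) * κ ≤ l * ((2 * η + 8 * KK * D * l / l ^ 20) * (128 * (D * l))) := by
      gcongr
    refine le_trans h7 ?_
    have h8 : l * ((2 * η + 8 * KK * D * l / l ^ 20) * (128 * (D * l))) =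
        (1 / 2) * ((512 * D * l ^ 2) / l ^ 4) +
        (1 / 4) * ((512 * (8 * KK * D) * D * l ^ 3) / l ^ 20) := by
      rw [hη]
      ring
    rw [h8]
    have h9 : (512 * D * l ^ 2) / l ^ 4 ≤ 1 / 2 := by
      rw [div_le_div_iff₀ (by positivity) (by norm_num)]
      have : 0 ≤ D * l ^ 2 := by positivity
      linarith
    have h10 : (512 * (8 * KK * D) * D * l ^ 3) / l ^ 20 ≤ 1 := by
      rw [div_le_one (by positivity)]
      exact e3
    linarith
  have hIη : (1 + η) ^ I ≤ 2 := by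
    calc (1 + η) ^ I ≤ (Real.exp η) ^ I := by
          apply pow_le_pow_left₀ (by linarith)
          have := Real.add_one_le_exp η
          linarith
      _ = Real.exp (I * η) := by rw [← Real.exp_nat_mul]
      _ ≤ Real.exp (1 / 2) := Real.exp_le_exp.2 (by linarith)
      _ ≤ 2 := exp_half_le_two
  have hk1 : (k : ℝ) * (8 * KK / ((Fintype.card (Fin n) : ℝ) * p)) ≤ 1 := by
    refine le_trans hterm ?_
    rw [div_le_one (by positivity)]
    exact e4
  have hkp' : 160 * (1 + η) * k * p ≤ 1 := by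
    have h6 : 160 * (1 + η) * k * p ≤ 160 * (1 + 1) * k * p := by gcongr
    linarith
  have hkV : k ≤ Fintype.card (Fin n) := by
    rw [Fintype.card_fin]
    have h6 : (k : ℝ) ≤ n := by
      rw [← hcard] at hNp0
      rw [mul_div_assoc', div_le_one hNp0, hcard] at hk1
      have : (k : ℝ) * 1 ≤ k * (8 * KK) := by
        gcongr
        linarith
      nlinarith
    exact_mod_cast h6
  rw [← hcard] at g2 g3 g4 hM1 hM2
  obtain ⟨P, hP, S, s1, s2, s3, s4⟩ := regime1 (G := G) (K := KK) (p := p) (η := η) (κ := κ) (k := k)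
    (by unfold KK; norm_num) (by rw [hcard]; exact hn1) hp hp1 (by rw [hcard]; linarith) hη0
    (by positivity) hdeg hexp hres g2 g4 hE hM2 le_rfl hIκ hIη hk1 hkp' hkV
  refine ⟨P.card + ((I + 1 + 2 * ⌈l⌉₊) + 2), ?_, finish hl hl1 hp s1 s2 ?_ hdist hboot ?_⟩
  · have h6 : P.card + ((I + 1 + 2 * ⌈l⌉₊) + 2) ≤ 4 * ⌈l⌉₊ + k + 2 := by omega
    have h7 : ((P.card + ((I + 1 + 2 * ⌈l⌉₊) + 2) : ℕ) : ℝ) ≤ ((4 * ⌈l⌉₊ + k + 2 : ℕ) : ℝ) := by
      exact_mod_cast h6
    refine le_trans h7 ?_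
    push_cast
    nlinarith
  · intro j
    constructor
    · calc 1 / (16 * KK) = (1 / KK) / 16 := by ring
        _ ≤ (Msz (Fintype.card (Fin n)) p I * p) / 16 := by gcongr
        _ = (Msz (Fintype.card (Fin n)) p I / 16) * p := by ring
        _ ≤ ((S j).card : ℝ) * p := by
            have := s3 j
            gcongr
    · calc ((S j).card : ℝ) * p ≤ (8 * Msz (Fintype.card (Fin n)) p I) * p := by
            have := s4 j
            gcongr
        _ = 8 * (Msz (Fintype.card (Fin n)) p I * p) := by ring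
        _ ≤ 8 * KK := by gcongr
  · calc 8 * ((k : ℝ) * (8 * KK)) ≤ 8 * ((D * l) * (8 * KK)) := by gcongr
      _ = 8 * (D * (8 * KK)) * l := by ring
      _ ≤ l ^ 20 := e5
      _ ≤ n * p := hnp

end Pool.Agent.MPd11e37lc
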