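import Pool.Agent.Lib.MP_d11e37_lc.Asym1

/-!
Deterministic conclusion for denser graphs.
-/

set_option autoImplicit false
set_option linter.unusedSectionVars false

namespace Pool.Agent.MPd11e37lc

open Finset

/-- The bound on `8 k p ^ r`. -/
theorem small_pow {D l p k : ℝ} {r q : ℕ} (hl : 1 ≤ l) (hp0 : 0 < p) (hp1 : p ≤ 1 / 2)
    (hD : 0 < D) (hk : k ≤ D * l) (hqr : q = r + 2) (hq8 : 8 ≤ q) (hq : 8 * (p * l) ≤ q)
    (e1 : 32 * D * l ≤ l ^ 3) (e2 : 32 * D ≤ 3 * l) : 8 * k * p ^ r ≤ 1 / 4 := by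
  have hl0 : 0 < l := by linarith
  by_cases h : p ^ 2 * l ≤ 1
  · have h1 : p ^ r ≤ p ^ 6 := pow_le_pow_of_le_one hp0.le (by linarith) (by omega)
    have h2 : p ^ 6 ≤ (1 / l) ^ 3 := by
      have : p ^ 6 = (p ^ 2) ^ 3 := by ring
      rw [this]
      apply pow_le_pow_left₀ (by positivity)
      rw [le_div_iff₀ hl0]
      exact h
    calc 8 * k * p ^ r ≤ 8 * (D * l) * (1 / l) ^ 3 := by
          have h3 := le_trans h1 h2
          gcongr
      _ = (32 * D * l) / (4 * l ^ 3) := by field_simp; ring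
      _ ≤ l ^ 3 / (4 * l ^ 3) := by gcongr
      _ = 1 / 4 := by field_simp
  · push Not at h
    have hr0 : (0 : ℝ) ≤ r := by positivity
    have hqR : (q : ℝ) = r + 2 := by rw [hqr]; push_cast; ring
    have hq8R : (8 : ℝ) ≤ q := by exact_mod_cast hq8
    have h1 : (6 : ℝ) * (p * l) ≤ r := by linarith
    have h2 : 36 * l ≤ (r : ℝ) ^ 2 := by
      have h3 : (6 * (p * l)) ^ 2 ≤ (r : ℝ) ^ 2 := pow_le_pow_left₀ (by positivity) h1 2
      have h4 : (6 * (p * l)) ^ 2 = 36 * l * (p ^ 2 * l) := by ring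
      rw [h4] at h3
      nlinarith
    have h5 : 3 * l ^ 2 ≤ Real.exp ((r : ℝ) / 2) := by
      have h6 := Real.pow_div_factorial_le_exp ((r : ℝ) / 2) (by positivity) 4
      have h7 : ((r : ℝ) / 2) ^ 4 / (Nat.factorial 4 : ℕ) = ((r : ℝ) ^ 2) ^ 2 / 384 := by
        norm_num [Nat.factorial]
        ring
      rw [h7] at h6
      have h8 : (36 * l) ^ 2 ≤ ((r : ℝ) ^ 2) ^ 2 := pow_le_pow_left₀ (by positivity) h2 2
      nlinarith
    have h9 : p ^ r ≤ Real.exp (-((r : ℝ) / 2)) := by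
      have h10 : p ≤ Real.exp (-(1 / 2)) := by
        have := Real.add_one_le_exp (-(1 / 2) : ℝ)
        linarith
      calc p ^ r ≤ (Real.exp (-(1 / 2))) ^ r := pow_le_pow_left₀ hp0.le h10 r
        _ = Real.exp (-((r : ℝ) / 2)) := by
            rw [← Real.exp_nat_mul]
            congr 1
            ring
    have h11 : 0 < Real.exp ((r : ℝ) / 2) := Real.exp_pos _
    calc 8 * k * p ^ r ≤ 8 * (D * l) * Real.exp (-((r : ℝ) / 2)) := by gcongr
      _ = 8 * (D * l) / Real.exp ((r : ℝ) / 2) := by rw [Real.exp_neg, ← div_eq_mul_inv]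
      _ ≤ 8 * (D * l) / (3 * l ^ 2) := by gcongr
      _ ≤ 1 / 4 := by
          rw [div_le_div_iff₀ (by positivity) (by norm_num)]
          nlinarith

/-- Deterministic conclusion for denser graphs. -/
theorem det2 (D c CA : ℝ) (hD : 0 < D) (hc : 0 < c) (hCA : 32 ≤ CA) (hCA' : 32 ≤ c * CA) :
    ∀ᶠ l : ℝ in Filter.atTop, ∀ (n : ℕ) (G : SimpleGraph (Fin n)) (p : ℝ) (k : ℕ),
    l = Real.log n → 0 < p → p ≤ 1 / 2 → c ≤ p * l → (k : ℝ) ≤ D * l → KK ≤ k → l ^ 20 ≤ n * p →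
    DegLe G p (1 / l ^ 4) → DegGe G p (1 / l ^ 4) → CodegLe G p (1 / l ^ 4) →
    ResProp G p (KK / 2) → DistProp G k (1 / (16 * KK)) (8 * KK) p → BootProp G →
    ∃ m : ℕ, (m : ℝ) ≤ (20 + CA) * l ∧ DefinedBy G m := by
  filter_upwards [Filter.eventually_ge_atTop (10 : ℝ),
    ev_pow (8 * D) c hc (show 1 < 19 by norm_num),
    ev_pow (32 * D) 1 one_pos (show 1 < 3 by norm_num),
    ev_pow (32 * D) 3 (by norm_num) (show 0 < 1 by norm_num),
    ev_pow (8 * (D * (8 * KK))) 1 one_pos (show 1 < 20 by norm_num)] with l hl10 e1 e2 e3 e5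
  intro n G p k hl hp hp2 hcp hk hKk hnp hdeg hdeg' hcodeg hres hdist hboot
  simp only [pow_zero, mul_one, one_mul, pow_one] at e1 e2 e3 e5
  have hKK : (0 : ℝ) < KK := by unfold KK; norm_num
  have hK1 : (1 : ℝ) < KK := by unfold KK; norm_num
  have hl1 : 1 ≤ l := by linarith
  have hl0 : 0 < l := by linarith
  obtain ⟨h1, h2, h3, h4, h5⟩ := ceil_facts hl hl1
  have hcard : (Fintype.card (Fin n) : ℝ) = n := by rw [Fintype.card_fin]
  have hn0 : (0 : ℝ) < n := by rw [h1]; exact Real.exp_pos _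
  have hn1 : (1 : ℝ) ≤ n := by rw [h1]; exact Real.one_le_exp hl0.le
  have hk1 : (1 : ℝ) ≤ k := by linarith
  have hk0 : (0 : ℝ) ≤ k := by linarith
  have hp2pos : 0 < p ^ 2 := by positivity
  have hp2le : p ^ 2 ≤ 1 := by nlinarith
  set η : ℝ := 1 / l ^ 4 with hη
  have hη0 : 0 ≤ η := by positivity
  have hη1 : η ≤ 1 / 10 := by
    rw [hη]
    apply one_div_le_one_div_of_le (by norm_num)
    calc (10 : ℝ) ≤ l := hl10
      _ = l ^ 1 := (pow_one l).symm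
      _ ≤ l ^ 4 := pow_le_pow_right₀ hl1 (by norm_num)
  set s₁ : ℝ := 8 * k / p ^ 2 with hs₁
  have hs₁p : s₁ * p = 8 * k / p := by
    rw [hs₁]; field_simp
  have hs₁one : 1 ≤ s₁ := by
    rw [hs₁, le_div_iff₀ hp2pos]
    linarith
  have hs1 : KK / 2 ≤ s₁ * p := by
    rw [hs₁p, le_div_iff₀ hp]
    nlinarith
  have hs2 : s₁ ≤ (Fintype.card (Fin n) : ℝ) := by
    rw [hcard, hs₁, div_le_iff₀ hp2pos]
    have h6 : c * l ^ 19 * l ≤ (n * p ^ 2) * l := by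
      calc c * l ^ 19 * l = c * l ^ 20 := by ring
        _ ≤ (p * l) * (n * p) := by gcongr
        _ = (n * p ^ 2) * l := by ring
    have h7 := le_of_mul_le_mul_right h6 hl0
    calc 8 * (k : ℝ) ≤ 8 * (D * l) := by gcongr
      _ = 8 * D * l := by ring
      _ ≤ c * l ^ 19 := e1
      _ ≤ n * p ^ 2 := h7
  have hJ : (Fintype.card (Fin n) : ℝ) * (3 / 4) ^ (4 * ⌈l⌉₊) ≤ s₁ := by
    refine le_trans ?_ hs₁one
    have h6 : (3 / 4 : ℝ) ^ (4 * ⌈l⌉₊) ≤ Real.exp (-l) := by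
      have h7 : (3 / 4 : ℝ) ≤ Real.exp (-(1 / 4)) := by
        have := Real.add_one_le_exp (-(1 / 4) : ℝ)
        linarith
      calc (3 / 4 : ℝ) ^ (4 * ⌈l⌉₊) ≤ (Real.exp (-(1 / 4))) ^ (4 * ⌈l⌉₊) :=
            pow_le_pow_left₀ (by norm_num) h7 _
        _ = Real.exp (-(⌈l⌉₊ : ℕ)) := by
            rw [← Real.exp_nat_mul]
            congr 1
            push_cast
            ring
        _ ≤ Real.exp (-l) := Real.exp_le_exp.2 (by linarith)
    rw [hcard, h1]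
    calc Real.exp l * (3 / 4) ^ (4 * ⌈l⌉₊) ≤ Real.exp l * Real.exp (-l) := by gcongr
      _ = 1 := by rw [← Real.exp_add]; simp
  set t : ℕ := ⌈CA * l⌉₊ with ht
  have ht1 : CA * l ≤ t := Nat.le_ceil _
  have ht2 : (t : ℝ) < CA * l + 1 := Nat.ceil_lt_add_one (by positivity)
  have hpt1 : p * (CA * l) ≤ p * t := by gcongr
  have hpt : 32 ≤ p * t := by
    have : c * CA ≤ (p * l) * CA := by gcongr
    linarith [mul_comm CA (p * l), mul_assoc p CA l, mul_comm CA l]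
  set q : ℕ := ⌈p * t / 4⌉₊ with hq
  have hq1 : p * t / 4 ≤ q := Nat.le_ceil _
  have hq2 : (q : ℝ) ≤ p * t / 4 + 1 := (Nat.ceil_lt_add_one (by positivity)).le
  have hq8 : 8 ≤ q := by
    have : (8 : ℝ) ≤ q := by linarith
    exact_mod_cast this
  obtain ⟨r, hr⟩ := Nat.exists_eq_add_of_le (show 2 ≤ q by omega)
  have hq3 : 8 * (p * l) ≤ q := by
    have : (p * l) * 32 ≤ (p * l) * CA := by gcongr
    linarith [mul_comm CA (p * l), mul_assoc p CA l, mul_comm CA l]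
  have hsq : s₁ * p ^ q ≤ 1 / 4 := by
    have h6 : s₁ * p ^ q = 8 * k * p ^ r := by
      rw [hr, pow_add, hs₁]
      field_simp
    rw [h6]
    exact small_pow (D := D) (l := l) hl1 hp hp2 hD hk (by omega) hq8 hq3 e2 e3
  set u : ℕ := ⌈1 / p⌉₊ with hu
  have hu1 : 1 / p ≤ u := Nat.le_ceil _
  have hu2 : (u : ℝ) ≤ 2 / p := by
    have h6 : (u : ℝ) < 1 / p + 1 := Nat.ceil_lt_add_one (by positivity)
    have h7 : 1 ≤ 1 / p := by rw [le_div_iff₀ hp]; linarith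
    have h8 : 2 / p = 1 / p + 1 / p := by ring
    linarith
  have hup1 : 1 ≤ (u : ℝ) * p := by
    rwa [div_le_iff₀ hp] at hu1
  have hup2 : (u : ℝ) * p ≤ 2 := by
    rwa [le_div_iff₀ hp] at hu2
  have hku : 4 * ((k : ℝ) * u) ≤ s₁ * p := by
    rw [hs₁p, le_div_iff₀ hp]
    have : (k : ℝ) * (u * p) ≤ k * 2 := by gcongr
    linarith [mul_assoc (k : ℝ) u p]
  obtain ⟨P, hP, S, s1, s2, s3⟩ := regime2 (G := G) (K₀ := KK / 2) (p := p) (η := η) (s₁ := s₁)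
    (J := 4 * ⌈l⌉₊) (t := t) (q := q) (k := k) (u := u) (by rw [hcard]; exact hn1) hp hp2 hη0 hη1
    hdeg hdeg' hcodeg hres (by unfold KK; norm_num) hs1 hs2 hJ (by linarith) hq2 hsq hku
  refine ⟨P.card + ((1 + 1 + 2 * ⌈l⌉₊) + 2), ?_, finish hl hl1 hp s1 s2 ?_ hdist hboot ?_⟩
  · have h6 : P.card + ((1 + 1 + 2 * ⌈l⌉₊) + 2) ≤ 6 * ⌈l⌉₊ + t + 5 := by omega
    have h7 : ((P.card + ((1 + 1 + 2 * ⌈l⌉₊) + 2) : ℕ) : ℝ) ≤ ((6 * ⌈l⌉₊ + t + 5 : ℕ) : ℝ) := by
      exact_mod_cast h6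
    refine le_trans h7 ?_
    push_cast
    nlinarith
  · intro j
    rw [s3 j]
    constructor
    · refine le_trans ?_ hup1
      rw [div_le_one (by positivity)]
      linarith
    · refine le_trans hup2 ?_
      linarith
  · calc 8 * ((k : ℝ) * (8 * KK)) ≤ 8 * ((D * l) * (8 * KK)) := by gcongr
      _ = 8 * (D * (8 * KK)) * l := by ring
      _ ≤ l ^ 20 := e5
      _ ≤ n * p := hnp

end Pool.Agent.MPd11e37lc
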