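import Pool.Agent.Lib.MP_d11e37_lc.Asym2

/-!
All failure probabilities are small.
-/

set_option autoImplicit false
set_option linter.unusedSectionVars false

namespace Pool.Agent.MPd11e37lc

open Finset

/-- Failure probabilities which do not need density. -/
theorem fail1 (D : ℝ) (hD : 0 < D) : ∀ᶠ l : ℝ in Filter.atTop, ∀ (n : ℕ)
    (p : ℝ) (k : ℕ), l = Real.log n → 0 < p → p ≤ 1 / 2 → (k : ℝ) ≤ D * l →
    4 * l ≤ (1 - Real.exp (-(1 / (16 * KK)))) * Real.exp (-(2 * (8 * KK))) * k →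
    l ^ 20 ≤ n * p →
    Pr p (fun ω : Sym2 (Fin n) → Bool => ¬ DegLe (gr ω) p (1 / l ^ 4)) ≤ Real.exp (-l) ∧
    Pr p (fun ω : Sym2 (Fin n) → Bool => ¬ ExpProp (gr ω) p (1 / l ^ 4)) ≤ Real.exp (-l) ∧
    Pr p (fun ω : Sym2 (Fin n) → Bool => ¬ ResProp (gr ω) p (KK / 2)) ≤ Real.exp (-l) ∧
    Pr p (fun ω : Sym2 (Fin n) → Bool =>
      ¬ DistProp (gr ω) k (1 / (16 * KK)) (8 * KK) p) ≤ Real.exp (-l) ∧
    Pr p (fun ω : Sym2 (Fin n) → Bool => ¬ BootProp (gr ω)) ≤ Real.exp (-l) ∧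
    Pr p (fun ω : Sym2 (Fin n) → Bool => ¬ DegGe (gr ω) p (1 / l ^ 4)) ≤ Real.exp (-l) := by
  filter_upwards [Filter.eventually_ge_atTop (10 : ℝ),
    ev_pow (384 * KK * D) 1 one_pos (show 2 < 20 by norm_num)] with l hl10 e1
  intro n p k hl hp hp2 hk hθ hnp
  simp only [pow_zero, mul_one, one_mul, pow_one] at e1
  have hKK : (0 : ℝ) < KK := by unfold KK; norm_num
  have hK1 : (1 : ℝ) < KK := by unfold KK; norm_num
  have hl1 : 1 ≤ l := by linarith
  have hl0 : 0 < l := by linarith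
  obtain ⟨h1, h2, h3, h4, h5⟩ := ceil_facts hl hl1
  have hcard : (Fintype.card (Fin n) : ℝ) = n := by rw [Fintype.card_fin]
  have hn0 : (0 : ℝ) < n := by rw [h1]; exact Real.exp_pos _
  have hp1 : p ≤ 1 := by linarith
  have hk0 : (0 : ℝ) ≤ k := by positivity
  -- powers of l
  have b12 : 1000 * l ≤ l ^ 12 := by
    have h6 : (10 : ℝ) ^ 11 ≤ l ^ 11 := pow_le_pow_left₀ (by norm_num) hl10 11
    have h7 : l ^ 12 = l ^ 11 * l := by ring
    rw [h7]
    nlinarith
  have b20 : 1000 * l ≤ l ^ 20 := by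
    have h6 : (10 : ℝ) ^ 19 ≤ l ^ 19 := pow_le_pow_left₀ (by norm_num) hl10 19
    have h7 : l ^ 20 = l ^ 19 * l := by ring
    rw [h7]
    nlinarith
  have hnl : l ^ 20 ≤ n := by nlinarith
  have hn48 : (10000 : ℝ) ≤ n := by linarith
  have hn48' : 10000 ≤ n := by exact_mod_cast hn48
  have hη2 : ∀ x : ℝ, l ^ 20 ≤ x → l ^ 12 ≤ (1 / l ^ 4) ^ 2 * x := by
    intro x hx
    calc l ^ 12 = (1 / l ^ 4) ^ 2 * l ^ 20 := by field_simp
      _ ≤ (1 / l ^ 4) ^ 2 * x := by gcongr
  have hη0 : (0 : ℝ) ≤ 1 / l ^ 4 := by positivity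
  have hη1 : 1 / l ^ 4 ≤ 1 := by
    rw [div_le_one (by positivity)]
    exact one_le_pow₀ hl1
  have hn1p : l ^ 20 ≤ 2 * ((n - 1) * p) := by nlinarith
  refine ⟨?_, ?_, ?_, ?_, ?_, ?_⟩
  · refine le_trans (prob_degLe hp.le hp1 hη0 hη1) ?_
    rw [hcard]
    nth_rewrite 1 [h1]
    rw [← Real.exp_add]
    apply Real.exp_le_exp.2
    have := hη2 _ hn1p
    linarith [mul_assoc ((1 / l ^ 4) ^ 2) 2 ((n - 1) * p)]
  · have h6 := hη2 _ hnp
    have h7 : (Fintype.card (Fin n) : ℝ) *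
        Real.exp (-((1 / l ^ 4) ^ 2 * ((Fintype.card (Fin n) : ℝ) * p) / 8)) ≤
        Real.exp (-(2 * l)) := by
      rw [hcard]
      nth_rewrite 1 [h1]
      rw [← Real.exp_add]
      apply Real.exp_le_exp.2
      linarith
    refine le_trans (prob_expProp hp.le hp2 hη0 hη1 (by rw [hcard]; linarith) ?_) ?_
    · refine le_trans h7 ?_
      rw [Real.exp_le_one_iff]
      linarith
    · calc 2 * ((Fintype.card (Fin n) : ℝ) *
          Real.exp (-((1 / l ^ 4) ^ 2 * ((Fintype.card (Fin n) : ℝ) * p) / 8)))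
          ≤ Real.exp l * Real.exp (-(2 * l)) := by
            have h8 : (2 : ℝ) ≤ Real.exp l := by
              have := Real.add_one_le_exp l
              linarith
            gcongr
        _ = Real.exp (-l) := by
            rw [← Real.exp_add]
            congr 1
            ring
  · refine le_trans (prob_resProp hp.le hp1 (by unfold KK; norm_num) KK_sqrt) ?_
    rw [hcard]
    apply Real.exp_le_exp.2
    linarith
  · refine le_trans (prob_distProp hp hp2 (by positivity)) ?_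
    set θ := (1 - Real.exp (-(1 / (16 * KK)))) * Real.exp (-(2 * (8 * KK))) with hθdef
    rw [hcard, Fintype.card_fin]
    set s := n / 24 with hs
    have hs1 : (n : ℝ) ≤ 48 * s := by
      have : n ≤ 48 * s := by omega
      exact_mod_cast this
    have h6 : (((n : ℝ) ^ ⌊8 * KK / p⌋₊) ^ k) = Real.exp (l * (⌊8 * KK / p⌋₊ * k)) := by
      rw [h1, ← Real.exp_nat_mul, ← Real.exp_nat_mul]
      congr 1
      ring
    have h7 : (n : ℝ) ^ (s + s) = Real.exp (2 * s * l) := by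
      rw [h1, ← Real.exp_nat_mul]
      congr 1
      push_cast
      ring
    have h8 : Real.exp (-θ) ^ (s * k) = Real.exp (-(s * (θ * k))) := by
      rw [← Real.exp_nat_mul]
      congr 1
      push_cast
      ring
    rw [h6, h7, h8, ← Real.exp_add, ← Real.exp_add]
    apply Real.exp_le_exp.2
    have hfl : (⌊8 * KK / p⌋₊ : ℝ) ≤ 8 * KK / p := Nat.floor_le (by positivity)
    have h9 : (⌊8 * KK / p⌋₊ : ℝ) * k ≤ s := by
      have h10 : 8 * KK / p ≤ 8 * KK * (n / l ^ 20) := by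
        rw [div_le_iff₀ hp, mul_assoc (8 * KK), div_mul_eq_mul_div]
        have : 1 ≤ n * p / l ^ 20 := by
          rw [le_div_iff₀ (by positivity)]
          linarith
        nlinarith
      calc (⌊8 * KK / p⌋₊ : ℝ) * k ≤ (8 * KK * (n / l ^ 20)) * (D * l) := by
            have := le_trans hfl h10
            gcongr
        _ = (384 * KK * D * l ^ 2) / l ^ 20 * (n / (48 * l)) := by
            field_simp
            ring
        _ ≤ 1 * (n / (48 * l)) := by
            gcongr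
            rw [div_le_one (by positivity)]
            exact e1
        _ ≤ 1 * (n / 48) := by
            gcongr
            linarith
        _ ≤ s := by linarith
    have hs0 : (0 : ℝ) ≤ s := by positivity
    have h11 : (s : ℝ) * (4 * l) ≤ s * (θ * k) := by gcongr
    have h12 : l * ((⌊8 * KK / p⌋₊ : ℝ) * k) ≤ l * s := by gcongr
    have h13 : (1 : ℝ) ≤ s := by linarith
    nlinarith
  · have h6 : (Fintype.card (Fin n) : ℝ) ^ 8 *
        Real.exp (-(p * (Fintype.card (Fin n) : ℝ) / 2)) ≤ Real.exp (-(2 * l)) := by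
      rw [hcard]
      nth_rewrite 1 [h1]
      rw [← Real.exp_nat_mul, ← Real.exp_add]
      apply Real.exp_le_exp.2
      push_cast
      linarith [mul_comm p (n : ℝ)]
    refine le_trans (prob_bootProp hp hp2 (by rw [Fintype.card_fin]; omega) ?_) ?_
    · refine le_trans h6 ?_
      rw [Real.exp_le_one_iff]
      linarith
    · calc (Fintype.card (Fin n) : ℝ) * ((Fintype.card (Fin n) : ℝ) ^ 8 *
          Real.exp (-(p * (Fintype.card (Fin n) : ℝ) / 2)))
          ≤ Real.exp l * Real.exp (-(2 * l)) := by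
            have h8 : (Fintype.card (Fin n) : ℝ) ≤ Real.exp l := by rw [hcard, h1]
            gcongr
        _ = Real.exp (-l) := by
            rw [← Real.exp_add]
            congr 1
            ring
  · refine le_trans (prob_degGe hp.le hp1 hη0 ?_) ?_
    · rw [hcard]
      have : 2 ≤ 1 / l ^ 4 * l ^ 20 := by
        have h6 : 1 / l ^ 4 * l ^ 20 = l ^ 16 := by field_simp
        rw [h6]
        calc (2 : ℝ) ≤ l := by linarith
          _ = l ^ 1 := (pow_one l).symm
          _ ≤ l ^ 16 := pow_le_pow_right₀ hl1 (by norm_num)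
      refine le_trans this ?_
      gcongr
      linarith
    · rw [hcard]
      nth_rewrite 1 [h1]
      rw [← Real.exp_add]
      apply Real.exp_le_exp.2
      have := hη2 _ hn1p
      have h6 : (1 / l ^ 4 / 2) ^ 2 * ((n - 1) * p) / 2 = (1 / l ^ 4) ^ 2 * (2 * ((n - 1) * p)) / 16 := by
        ring
      rw [h6]
      linarith

/-- Failure probability of the codegree property. -/
theorem fail2 (c : ℝ) (hc : 0 < c) : ∀ᶠ l : ℝ in Filter.atTop, ∀ (n : ℕ)
    (p : ℝ), l = Real.log n → 0 < p → p ≤ 1 / 2 → c ≤ p * l → l ^ 20 ≤ n * p →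
    Pr p (fun ω : Sym2 (Fin n) → Bool => ¬ CodegLe (gr ω) p (1 / l ^ 4)) ≤ Real.exp (-l) := by
  filter_upwards [Filter.eventually_ge_atTop (10 : ℝ),
    ev_pow 24 c hc (show 2 < 12 by norm_num)] with l hl10 e1
  intro n p hl hp hp2 hcp hnp
  have hl1 : 1 ≤ l := by linarith
  have hl0 : 0 < l := by linarith
  obtain ⟨h1, h2, h3, h4, h5⟩ := ceil_facts hl hl1
  have hcard : (Fintype.card (Fin n) : ℝ) = n := by rw [Fintype.card_fin]
  have hn0 : (0 : ℝ) < n := by rw [h1]; exact Real.exp_pos _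
  have hp1 : p ≤ 1 := by linarith
  have hη0 : (0 : ℝ) ≤ 1 / l ^ 4 := by positivity
  have hη1 : 1 / l ^ 4 ≤ 1 := by
    rw [div_le_one (by positivity)]
    exact one_le_pow₀ hl1
  have b20 : 1000 * l ≤ l ^ 20 := by
    have h6 : (10 : ℝ) ^ 19 ≤ l ^ 19 := pow_le_pow_left₀ (by norm_num) hl10 19
    have h7 : l ^ 20 = l ^ 19 * l := by ring
    rw [h7]
    nlinarith
  have hnl : l ^ 20 ≤ n := by nlinarith
  refine le_trans (prob_codegLe hp.le hp1 hη0 hη1) ?_
  rw [hcard]
  nth_rewrite 1 [h1]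
  rw [← Real.exp_nat_mul, ← Real.exp_add]
  apply Real.exp_le_exp.2
  push_cast
  -- main estimate
  have h6 : c * l ^ 20 ≤ (n * p ^ 2) * l := by
    calc c * l ^ 20 ≤ (p * l) * (n * p) := by gcongr
      _ = (n * p ^ 2) * l := by ring
  have h7 : n * p ^ 2 ≤ 2 * ((n - 2) * p ^ 2) := by
    have : (0 : ℝ) ≤ p ^ 2 := by positivity
    nlinarith
  have h8 : (c * l ^ 12) ≤ ((1 / l ^ 4) ^ 2 * (2 * ((n - 2) * p ^ 2))) * l := by
    calc c * l ^ 12 = (1 / l ^ 4) ^ 2 * (c * l ^ 20) := by field_simp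
      _ ≤ (1 / l ^ 4) ^ 2 * ((n * p ^ 2) * l) := by gcongr
      _ ≤ (1 / l ^ 4) ^ 2 * ((2 * ((n - 2) * p ^ 2)) * l) := by gcongr
      _ = ((1 / l ^ 4) ^ 2 * (2 * ((n - 2) * p ^ 2))) * l := by ring
  have h9 : (24 * l) * l ≤ ((1 / l ^ 4) ^ 2 * (2 * ((n - 2) * p ^ 2))) * l := by
    calc (24 * l) * l = 24 * l ^ 2 := by ring
      _ ≤ _ := le_trans e1 h8
  have h10 := le_of_mul_le_mul_right h9 hl0
  linarith [mul_assoc ((1 / l ^ 4) ^ 2) 2 ((n - 2) * p ^ 2)]

end Pool.Agent.MPd11e37lc
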