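import Pool.Agent.Lib.MP_d11e37_lc.Game

/-!
Closure properties of `Def`, bootstrapping of individual definability and the final stage.
-/

set_option autoImplicit false
set_option linter.unusedSectionVars false

namespace Pool.Agent.MPd11e37lc

open Finset

variable {V : Type} [Fintype V] [DecidableEq V] {G : SimpleGraph V} {P : Finset V}

theorem Def.compl' {d : ℕ} {B : Finset V} (h : Def G P d B) : Def G P d Bᶜ := by
  have h1 := Def.compl d B h
  refine (congrArg (Def G P d) ?_).mp h1
  ext x
  simp only [Finset.mem_compl]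

theorem Def.union' {d : ℕ} {B B' : Finset V} (h : Def G P d B) (h' : Def G P d B') :
    Def G P d (B ∪ B') := by
  have h1 := Def.union d B B' h h'
  refine (congrArg (Def G P d) ?_).mp h1
  ext x
  simp only [Finset.mem_union]

theorem Def.mono_succ {d d' : ℕ} {B : Finset V} (h : Def G P d B) (hd : d ≤ d') :
    Def G P d' B := by
  obtain ⟨e, rfl⟩ := Nat.exists_eq_add_of_le hd
  induction e with
  | zero => exact h
  | succ e ih => exact Def.succ _ _ (ih (by omega))

theorem Def.mono {d : ℕ} {P' B : Finset V} (h : Def G P d B) (hP : P ⊆ P') :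
    Def G P' d B := by
  induction h with
  | empty d => exact Def.empty d
  | sing d v hv => exact Def.sing d v (hP hv)
  | compl d B _ ih => exact Def.compl d B ih
  | union d B B' _ _ ih ih' => exact Def.union d B B' ih ih'
  | nbr d B _ ih => exact Def.nbr d B ih
  | succ d B _ ih => exact Def.succ d B ih

theorem Def.inter' {d : ℕ} {B B' : Finset V} (h : Def G P d B) (h' : Def G P d B') :
    Def G P d (B ∩ B') := by
  have := (h.compl'.union' h'.compl').compl'
  have e : (Bᶜ ∪ B'ᶜ)ᶜ = B ∩ B' := by
    ext x; simp
  rwa [e] at this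

theorem Def.sdiff' {d : ℕ} {B B' : Finset V} (h : Def G P d B) (h' : Def G P d B') :
    Def G P d (B \ B') := by
  have := h.inter' h'.compl'
  have e : B ∩ B'ᶜ = B \ B' := by
    ext x; simp
  rwa [e] at this

theorem Def.univ' {d : ℕ} : Def G P d (Finset.univ : Finset V) := by
  have := (Def.empty (G := G) (P := P) d).compl'
  simpa using this

theorem Def.biUnion' {ι : Type} {d : ℕ} (s : Finset ι) (f : ι → Finset V)
    (h : ∀ i ∈ s, Def G P d (f i)) : Def G P d (s.biUnion f) := by
  classical
  induction s using Finset.induction_on with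
  | empty => simpa using Def.empty d
  | insert a s ha ih =>
    rw [Finset.biUnion_insert]
    exact (h a (by simp)).union' (ih fun i hi => h i (by simp [hi]))

theorem Def.of_singletons {d : ℕ} {U : Finset V} (h : ∀ u ∈ U, Def G P d {u}) {S : Finset V}
    (hS : S ⊆ U) : Def G P d S := by
  have := Def.biUnion' (G := G) (P := P) (d := d) S (fun u => {u}) (fun u hu => h u (hS hu))
  have e : S.biUnion (fun u => {u}) = S := by
    ext x; simp
  rwa [e] at this

theorem Def.forall' {ι : Type} {d : ℕ} (s : Finset ι) (f : ι → Finset V)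
    (h : ∀ i ∈ s, Def G P d (f i)) :
    Def G P d (Finset.univ.filter fun x => ∀ i ∈ s, x ∈ f i) := by
  have := (Def.biUnion' (G := G) (P := P) (d := d) s (fun i => (f i)ᶜ)
    (fun i hi => (h i hi).compl')).compl'
  have e : (s.biUnion (fun i => (f i)ᶜ))ᶜ = Finset.univ.filter fun x => ∀ i ∈ s, x ∈ f i := by
    ext x; simp
  rwa [e] at this

open Classical in
/-- The set of vertices with the same neighbourhood pattern as `x` with respect to a family. -/
theorem Def.pattern {ι : Type} {d : ℕ} (s : Finset ι) (f : ι → Finset V)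
    (h : ∀ i ∈ s, Def G P d (f i)) (x : V) :
    Def G P (d + 1) (Finset.univ.filter fun y => ∀ i ∈ s, (y ∈ nb G (f i) ↔ x ∈ nb G (f i))) := by
  have := Def.forall' (G := G) (P := P) (d := d + 1) s
    (fun i => if x ∈ nb G (f i) then nb G (f i) else (nb G (f i))ᶜ)
    (fun i hi => by
      split_ifs
      · exact Def.nbr _ _ (h i hi)
      · exact (Def.nbr _ _ (h i hi)).compl')
  convert this using 1
  ext y
  simp only [Finset.mem_filter, Finset.mem_univ, true_and]
  refine forall₂_congr fun i hi => ?_
  split_ifs with hx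
  · simp [hx]
  · simp [hx]

theorem mem_nb_singleton {u v : V} : v ∈ nb G {u} ↔ G.Adj u v := by
  simp [mem_nb]

open Classical in
/-- Vertices having a twin with respect to the complement of `Y`. -/
noncomputable def nonuniq (G : SimpleGraph V) (Y : Finset V) : Finset V :=
  Finset.univ.filter fun x => ∃ y, y ≠ x ∧ ∀ v, v ∉ Y → (G.Adj v x ↔ G.Adj v y)

theorem boot_step {d : ℕ} {Y : Finset V} (hU : ∀ u, u ∉ Y → Def G P d {u}) :
    ∀ x, x ∉ nonuniq G Y → Def G P (d + 1) {x} := by
  classical
  intro x hx
  have h := Def.pattern (G := G) (P := P) (d := d) (Yᶜ) (fun u => ({u} : Finset V))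
    (fun u hu => hU u (by simpa using hu)) x
  convert h using 1
  ext y
  simp only [Finset.mem_singleton, Finset.mem_filter, Finset.mem_univ, true_and,
    Finset.mem_compl, mem_nb_singleton]
  constructor
  · rintro rfl
    exact fun _ _ => Iff.rfl
  · intro hy
    by_contra hne
    apply hx
    simp only [nonuniq, Finset.mem_filter, Finset.mem_univ, true_and]
    exact ⟨y, hne, fun v hv => (hy v hv).symm⟩

/-- Bootstrapping: if the bad sets halve, then all vertices are individually definable. -/
theorem boot {t d : ℕ} {Y : Finset V}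
    (hboot : ∀ Y : Finset V, Y.Nonempty → 4 * Y.card ≤ Fintype.card V →
      2 * (nonuniq G Y).card ≤ Y.card)
    (hY : 4 * Y.card ≤ Fintype.card V) (ht : Y.card < 2 ^ t)
    (hU : ∀ u, u ∉ Y → Def G P d {u}) : ∀ x, Def G P (d + t) {x} := by
  induction t generalizing d Y with
  | zero =>
    intro x
    have : Y = ∅ := by
      rw [← Finset.card_eq_zero]; simpa using ht
    subst this
    exact hU x (by simp)
  | succ t ih =>
    by_cases hYe : Y.Nonempty
    · have h1 := hboot Y hYe hY
      intro x
      have h2 := ih (d := d + 1) (Y := nonuniq G Y) (by omega) (by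
        rw [pow_succ] at ht; omega) (boot_step hU) x
      have : d + 1 + t = d + (t + 1) := by ring
      rwa [this] at h2
    · rw [Finset.not_nonempty_iff_eq_empty] at hYe
      subst hYe
      intro x
      exact (hU x (by simp)).mono_succ (by omega)

open Classical in
/-- Vertices outside the union of the family having a twin outside this union. -/
noncomputable def nonuniqFam (G : SimpleGraph V) {k : ℕ} (S : Fin k → Finset V) : Finset V :=
  Finset.univ.filter fun x => (∀ j, x ∉ S j) ∧ ∃ y, (∀ j, y ∉ S j) ∧ y ≠ x ∧
    ∀ j, (x ∈ nb G (S j) ↔ y ∈ nb G (S j))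

/-- The final stage. -/
theorem final_stage {t d k : ℕ} {S : Fin k → Finset V}
    (hboot : ∀ Y : Finset V, Y.Nonempty → 4 * Y.card ≤ Fintype.card V →
      2 * (nonuniq G Y).card ≤ Y.card)
    (hS : ∀ j, Def G P d (S j))
    (hcard : 8 * (Finset.univ.biUnion S).card ≤ Fintype.card V)
    (hZ : 8 * (nonuniqFam G S).card ≤ Fintype.card V)
    (ht : Fintype.card V < 2 ^ t) : ∀ x, Def G P (d + 1 + t) {x} := by
  classical
  set Y : Finset V := Finset.univ.biUnion S ∪ nonuniqFam G S with hYdef
  have hYc : Y.card ≤ (Finset.univ.biUnion S).card + (nonuniqFam G S).card :=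
    Finset.card_union_le _ _
  have hYV : Y.card ≤ Fintype.card V := Finset.card_le_univ Y
  apply boot (Y := Y) hboot (by omega) (by omega)
  intro x hx
  rw [hYdef, Finset.mem_union, not_or] at hx
  obtain ⟨hx1, hx2⟩ := hx
  have h1 := Def.pattern (G := G) (P := P) (d := d) Finset.univ S (fun j _ => hS j) x
  have h2 : Def G P (d + 1) (Finset.univ.biUnion S)ᶜ :=
    ((Def.biUnion' (G := G) (P := P) (d := d) Finset.univ S (fun j _ => hS j)).compl').succ
  have h3 := h1.inter' h2
  convert h3 using 1
  ext y
  simp only [Finset.mem_singleton, Finset.mem_inter, Finset.mem_filter, Finset.mem_univ,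
    true_and, true_implies, Finset.mem_compl, Finset.mem_biUnion, not_exists]
  constructor
  · rintro rfl
    refine ⟨fun _ => Iff.rfl, ?_⟩
    simpa using hx1
  · rintro ⟨hy1, hy2⟩
    by_contra hne
    apply hx2
    simp only [nonuniqFam, Finset.mem_filter, Finset.mem_univ, true_and]
    refine ⟨by simpa using hx1, y, hy2, hne, fun j => (hy1 j).symm⟩

end Pool.Agent.MPd11e37lc
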