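import Mathlib

/-!
Extraction of many disjoint twin pairs.
-/

set_option autoImplicit false
set_option linter.unusedSectionVars false

namespace Pool.Agent.MPd11e37lc

open Finset

variable {V : Type} [Fintype V] [DecidableEq V]

open Classical in
theorem extract {α : Type} (W : Finset V) (φ : V → α) :
    ∃ s : ℕ, ∃ g : Fin s ⊕ Fin s → V, Function.Injective g ∧
      (∀ i, g (Sum.inl i) ∈ W ∧ g (Sum.inr i) ∈ W ∧ φ (g (Sum.inl i)) = φ (g (Sum.inr i))) ∧
      (W.filter fun x => ∃ y ∈ W, y ≠ x ∧ φ y = φ x).card ≤ 3 * s := by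
  -- families of disjoint pairs
  set good : Finset (Finset (V × V)) := Finset.univ.filter fun M =>
    (∀ e ∈ M, e.1 ≠ e.2 ∧ e.1 ∈ W ∧ e.2 ∈ W ∧ φ e.1 = φ e.2) ∧
    (∀ e ∈ M, ∀ e' ∈ M, e ≠ e' → e.1 ≠ e'.1 ∧ e.1 ≠ e'.2 ∧ e.2 ≠ e'.1 ∧ e.2 ≠ e'.2) with hgood
  have hne : good.Nonempty := ⟨∅, by simp [hgood]⟩
  obtain ⟨M, hM, hmax⟩ := Finset.exists_max_image good (fun M => M.card) hne
  have hM' := hM
  rw [hgood, Finset.mem_filter] at hM'
  obtain ⟨-, hM1, hM2⟩ := hM'
  set R : Finset V := M.biUnion fun e => {e.1, e.2} with hR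
  have hRc : R.card ≤ 2 * M.card := by
    calc R.card ≤ ∑ e ∈ M, ({e.1, e.2} : Finset V).card := Finset.card_biUnion_le
      _ ≤ ∑ e ∈ M, 2 := Finset.sum_le_sum fun e _ => Finset.card_le_two
      _ = 2 * M.card := by rw [Finset.sum_const, smul_eq_mul, mul_comm]
  have hR1 : ∀ e ∈ M, e.1 ∈ R := fun e he => Finset.mem_biUnion.2 ⟨e, he, by simp⟩
  have hR2 : ∀ e ∈ M, e.2 ∈ R := fun e he => Finset.mem_biUnion.2 ⟨e, he, by simp⟩
  -- no further pair can be added
  have hadd : ∀ a b, a ∈ W → b ∈ W → a ≠ b → φ a = φ b → a ∉ R → b ∉ R → False := by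
    intro a b ha hb hab hφ haR hbR
    have hnot : (a, b) ∉ M := fun h => haR (hR1 _ h)
    have hmem : insert (a, b) M ∈ good := by
      rw [hgood, Finset.mem_filter]
      refine ⟨Finset.mem_univ _, ?_, ?_⟩
      · intro e he
        rw [Finset.mem_insert] at he
        rcases he with rfl | he
        · exact ⟨hab, ha, hb, hφ⟩
        · exact hM1 e he
      · intro e he e' he' hee
        rw [Finset.mem_insert] at he he'
        rcases he with rfl | he
        · rcases he' with rfl | he'
          · exact absurd rfl hee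
          · have g1 := hR1 _ he'
            have g2 := hR2 _ he'
            refine ⟨fun h => ?_, fun h => ?_, fun h => ?_, fun h => ?_⟩
            · simp only at h
              rw [← h] at g1; exact haR g1
            · simp only at h
              rw [← h] at g2; exact haR g2
            · simp only at h
              rw [← h] at g1; exact hbR g1
            · simp only at h
              rw [← h] at g2; exact hbR g2
        · rcases he' with rfl | he'
          · have g1 := hR1 _ he
            have g2 := hR2 _ he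
            refine ⟨fun h => ?_, fun h => ?_, fun h => ?_, fun h => ?_⟩
            · simp only at h
              rw [h] at g1; exact haR g1
            · simp only at h
              rw [h] at g1; exact hbR g1
            · simp only at h
              rw [h] at g2; exact haR g2
            · simp only at h
              rw [h] at g2; exact hbR g2
          · exact hM2 e he e' he' hee
    have := hmax _ hmem
    simp only [Finset.card_insert_of_notMem hnot] at this
    omega
  set Z := W.filter fun x => ∃ y ∈ W, y ≠ x ∧ φ y = φ x with hZ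
  -- uncovered elements
  have hcov : ∀ z ∈ Z \ R, ∃ e ∈ M, φ e.1 = φ z := by
    intro z hz
    rw [Finset.mem_sdiff, hZ, Finset.mem_filter] at hz
    obtain ⟨⟨hzW, y, hyW, hyz, hφ⟩, hzR⟩ := hz
    by_cases hyR : y ∈ R
    · rw [hR, Finset.mem_biUnion] at hyR
      obtain ⟨e, he, hye⟩ := hyR
      simp only [Finset.mem_insert, Finset.mem_singleton] at hye
      refine ⟨e, he, ?_⟩
      rcases hye with rfl | rfl
      · exact hφ
      · rw [← hφ]; exact (hM1 e he).2.2.2
    · exact (hadd y z hyW hzW hyz hφ hyR hzR).elim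
  have hZR : (Z \ R).card ≤ M.card := by
    choose! h hh1 hh2 using hcov
    apply Finset.card_le_card_of_injOn h (fun z hz => hh1 z hz)
    intro z hz z' hz' hzz
    by_contra hne
    have e1 := hh2 z hz
    have e2 := hh2 z' hz'
    rw [hzz] at e1
    rw [Finset.mem_coe, Finset.mem_sdiff, hZ, Finset.mem_filter] at hz hz'
    exact hadd z z' hz.1.1 hz'.1.1 hne (e1.symm.trans e2) hz.2 hz'.2
  refine ⟨M.card, Sum.elim (fun i => (M.equivFin.symm i).val.1) (fun i => (M.equivFin.symm i).val.2),
    ?_, ?_, ?_⟩
  · intro a b hab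
    rcases a with i | i <;> rcases b with j | j
    · simp only [Sum.elim_inl] at hab
      by_contra hne
      have hne' : (M.equivFin.symm i).val ≠ (M.equivFin.symm j).val := by
        intro h
        apply hne
        have := M.equivFin.symm.injective (Subtype.ext h)
        rw [this]
      exact (hM2 _ (M.equivFin.symm i).2 _ (M.equivFin.symm j).2 hne').1 hab
    · simp only [Sum.elim_inl, Sum.elim_inr] at hab
      exfalso
      by_cases hij : i = j
      · subst hij
        exact (hM1 _ (M.equivFin.symm i).2).1 hab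
      · have hne' : (M.equivFin.symm i).val ≠ (M.equivFin.symm j).val := by
          intro h
          exact hij (M.equivFin.symm.injective (Subtype.ext h))
        exact (hM2 _ (M.equivFin.symm i).2 _ (M.equivFin.symm j).2 hne').2.1 hab
    · simp only [Sum.elim_inl, Sum.elim_inr] at hab
      exfalso
      by_cases hij : i = j
      · subst hij
        exact (hM1 _ (M.equivFin.symm i).2).1 hab.symm
      · have hne' : (M.equivFin.symm i).val ≠ (M.equivFin.symm j).val := by
          intro h
          exact hij (M.equivFin.symm.injective (Subtype.ext h))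
        exact (hM2 _ (M.equivFin.symm i).2 _ (M.equivFin.symm j).2 hne').2.2.1 hab
    · simp only [Sum.elim_inr] at hab
      by_contra hne
      have hne' : (M.equivFin.symm i).val ≠ (M.equivFin.symm j).val := by
        intro h
        apply hne
        have := M.equivFin.symm.injective (Subtype.ext h)
        rw [this]
      exact (hM2 _ (M.equivFin.symm i).2 _ (M.equivFin.symm j).2 hne').2.2.2 hab
  · intro i
    simp only [Sum.elim_inl, Sum.elim_inr]
    exact ⟨(hM1 _ (M.equivFin.symm i).2).2.1, (hM1 _ (M.equivFin.symm i).2).2.2.1,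
      (hM1 _ (M.equivFin.symm i).2).2.2.2⟩
  · have : Z.card ≤ (Z \ R).card + R.card := by
      have h1 : Z ⊆ (Z \ R) ∪ R := by
        intro x hx
        rw [Finset.mem_union, Finset.mem_sdiff]
        tauto
      exact le_trans (Finset.card_le_card h1) (Finset.card_union_le _ _)
    omega

theorem extract_set {α : Type} (W : Finset V) (φ : V → α) :
    ∃ s : ℕ, ∃ g : Fin s ⊕ Fin s → V, Function.Injective g ∧
      (∀ i, g (Sum.inl i) ∈ W ∧ g (Sum.inr i) ∈ W ∧ φ (g (Sum.inl i)) = φ (g (Sum.inr i))) ∧
      ∀ Z : Finset V, (∀ x ∈ Z, x ∈ W ∧ ∃ y ∈ W, y ≠ x ∧ φ y = φ x) → Z.card ≤ 3 * s := by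
  classical
  obtain ⟨s, g, h1, h2, h3⟩ := extract W φ
  refine ⟨s, g, h1, h2, fun Z hZ => le_trans (Finset.card_le_card ?_) h3⟩
  intro x hx
  have := hZ x hx
  simp only [Finset.mem_filter]
  exact this

/-- Restrict to a smaller number of pairs. -/
theorem restrict_pairs {s s' : ℕ} (h : s' ≤ s) {g : Fin s ⊕ Fin s → V}
    (hg : Function.Injective g) :
    Function.Injective (g ∘ Sum.map (Fin.castLE h) (Fin.castLE h)) := by
  apply hg.comp
  exact Sum.map_injective.2 ⟨Fin.castLE_injective h, Fin.castLE_injective h⟩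

theorem exists_fun_image {u : ℕ} {S : Finset V} (hS : S.Nonempty) (hu : S.card ≤ u) :
    ∃ f : Fin u → V, Finset.univ.image f = S := by
  classical
  obtain ⟨x, hx⟩ := hS
  have hcard : 0 < S.card := Finset.card_pos.2 ⟨x, hx⟩
  refine ⟨fun i => if h : i.val < S.card then (S.equivFin.symm ⟨i.val, h⟩).val else x, ?_⟩
  ext y
  simp only [Finset.mem_image, Finset.mem_univ, true_and]
  constructor
  · rintro ⟨i, rfl⟩
    split_ifs with h
    · exact (S.equivFin.symm _).2
    · exact hx
  · intro hy
    have hlt := (S.equivFin ⟨y, hy⟩).2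
    refine ⟨⟨(S.equivFin ⟨y, hy⟩).val, lt_of_lt_of_le hlt hu⟩, ?_⟩
    simp

end Pool.Agent.MPd11e37lc
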