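import Pool.Agent.Lib.MP_d11e37_lc.Walk

/-!
Families of disjoint definable sets.
-/

set_option autoImplicit false
set_option linter.unusedSectionVars false

namespace Pool.Agent.MPd11e37lc

open Finset

variable {V : Type} [Fintype V] [DecidableEq V] {G : SimpleGraph V} {P : Finset V}

theorem sum_card_nb_inter (R : Finset V) :
    ∑ a : V, (nb G {a} ∩ R).card = ∑ u ∈ R, (nb G {u}).card := by
  classical
  have h1 : ∀ a : V, (nb G {a} ∩ R).card = ∑ u ∈ R, if G.Adj a u then 1 else 0 := by
    intro a
    rw [Finset.card_eq_sum_ones, Finset.inter_comm, ← Finset.filter_mem_eq_inter,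
      Finset.sum_filter]
    apply Finset.sum_congr rfl
    intro u _
    simp [mem_nb_singleton]
  have h2 : ∀ u : V, (nb G {u}).card = ∑ a : V, if G.Adj a u then 1 else 0 := by
    intro u
    rw [Finset.card_eq_sum_ones, ← Finset.filter_univ_mem (nb G {u}), Finset.sum_filter]
    apply Finset.sum_congr rfl
    intro a _
    simp [mem_nb_singleton, G.adj_comm]
  simp_rw [h1, h2]
  rw [Finset.sum_comm]

theorem select {K₀ p η : ℝ} (hp0 : 0 < p) (hη : 0 ≤ η) (hdeg : DegLe G p η) (hres : ResProp G p K₀)
    {d : ℕ} {B : Finset V} (hB : Def G P d B) (hd : 1 ≤ d) (hq : K₀ ≤ (B.card : ℝ) * p)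
    (hK₀ : 16 ≤ K₀) (hB3 : 3 * B.card ≤ 2 * Fintype.card V) (k : ℕ)
    (hkp : 160 * (1 + η) * k * p ≤ 1) :
    ∃ P' : Finset V, P ⊆ P' ∧ P'.card ≤ P.card + k ∧ ∃ S : Fin k → Finset V,
      (∀ j, Def G P' d (S j)) ∧ (∀ i j, i ≠ j → Disjoint (S i) (S j)) ∧
      (∀ j, (B.card : ℝ) * p / 4 ≤ (S j).card) ∧
      (∀ j, ((S j).card : ℝ) ≤ 2 * ((B.card : ℝ) * p)) := by
  classical
  set q := (B.card : ℝ) * p with hqdef
  have hq0 : 0 < q := by linarith
  have hr : q ^ (-(1/4) : ℝ) ≤ 1 / 2 := by
    calc q ^ (-(1/4) : ℝ) ≤ (16 : ℝ) ^ (-(1/4) : ℝ) :=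
          Real.rpow_le_rpow_of_nonpos (by norm_num) (by linarith) (by norm_num)
      _ = 1 / 2 := by
          rw [show (16:ℝ) = 2 ^ (4:ℝ) by norm_num, ← Real.rpow_mul (by norm_num),
            show (4:ℝ) * (-(1/4)) = -1 by norm_num, Real.rpow_neg_one]
          norm_num
  have key : ∀ j, j ≤ k → ∃ P' : Finset V, P ⊆ P' ∧ P'.card ≤ P.card + j ∧
      ∃ S : ℕ → Finset V, (∀ i, i < j → Def G P' d (S i)) ∧
        (∀ i i', i < j → i' < j → i ≠ i' → Disjoint (S i) (S i')) ∧
        (∀ i, i < j → q / 4 ≤ (S i).card) ∧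
        (∀ i, i < j → ((S i).card : ℝ) ≤ 2 * q) := by
    intro j
    induction j with
    | zero => intro _; exact ⟨P, Finset.Subset.refl _, by simp, fun _ => ∅, by simp, by simp,
        by simp, by simp⟩
    | succ j ih =>
      intro hj
      obtain ⟨P', hPP', hP'c, S, hSD, hSdisj, hSl, hSu⟩ := ih (by omega)
      set R := (range j).biUnion S with hR
      have hRc : (R.card : ℝ) ≤ 2 * j * q := by
        calc (R.card : ℝ) ≤ ((∑ i ∈ range j, (S i).card : ℕ) : ℝ) := by
              exact_mod_cast Finset.card_biUnion_le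
          _ = ∑ i ∈ range j, ((S i).card : ℝ) := by push_cast; rfl
          _ ≤ ∑ i ∈ range j, 2 * q :=
              Finset.sum_le_sum fun i hi => hSu i (Finset.mem_range.1 hi)
          _ = 2 * j * q := by simp; ring
      set F := Finset.univ.filter fun a => q / 8 < ((nb G {a} ∩ R).card : ℝ) with hF
      have hFc : (q / 8) * F.card ≤ (1 + η) * ((Fintype.card V : ℝ) * p) * R.card := by
        calc (q / 8) * F.card = ∑ a ∈ F, q / 8 := by simp; ring
          _ ≤ ∑ a ∈ F, ((nb G {a} ∩ R).card : ℝ) := by
              apply Finset.sum_le_sum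
              intro a ha
              rw [hF, Finset.mem_filter] at ha
              exact ha.2.le
          _ ≤ ∑ a : V, ((nb G {a} ∩ R).card : ℝ) :=
              Finset.sum_le_sum_of_subset_of_nonneg (Finset.subset_univ _)
                (fun _ _ _ => by positivity)
          _ = ((∑ a : V, (nb G {a} ∩ R).card : ℕ) : ℝ) := by push_cast; rfl
          _ = ((∑ u ∈ R, (nb G {u}).card : ℕ) : ℝ) := by rw [sum_card_nb_inter]
          _ = ∑ u ∈ R, ((nb G {u}).card : ℝ) := by push_cast; rfl
          _ ≤ ∑ u ∈ R, (1 + η) * ((Fintype.card V : ℝ) * p) :=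
              Finset.sum_le_sum fun u _ => hdeg u
          _ = (1 + η) * ((Fintype.card V : ℝ) * p) * R.card := by
              rw [Finset.sum_const, nsmul_eq_mul]; ring
      have hF10 : 10 * F.card ≤ Fintype.card V := by
        have hjk : (j : ℝ) ≤ k := by exact_mod_cast (by omega : j ≤ k)
        have hV0 : (0:ℝ) ≤ Fintype.card V := by positivity
        have h1 : (q / 8) * F.card ≤ (1 + η) * ((Fintype.card V : ℝ) * p) * (2 * j * q) :=
          le_trans hFc (by gcongr)
        have h2 : (F.card : ℝ) ≤ 16 * (1 + η) * j * p * (Fintype.card V : ℝ) := by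
          have : (q / 8) * F.card ≤ (q / 8) * (16 * (1 + η) * j * p * (Fintype.card V : ℝ)) := by
            calc (q / 8) * F.card ≤ (1 + η) * ((Fintype.card V : ℝ) * p) * (2 * j * q) := h1
              _ = (q / 8) * (16 * (1 + η) * j * p * (Fintype.card V : ℝ)) := by ring
          exact le_of_mul_le_mul_left this (by positivity)
        have h3 : 10 * (16 * (1 + η) * j * p * (Fintype.card V : ℝ)) ≤ Fintype.card V := by
          have h4 : 160 * (1 + η) * j * p ≤ 1 := by
            refine le_trans ?_ hkp
            gcongr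
          calc 10 * (16 * (1 + η) * j * p * (Fintype.card V : ℝ))
              = (160 * (1 + η) * j * p) * (Fintype.card V : ℝ) := by ring
            _ ≤ 1 * (Fintype.card V : ℝ) := by gcongr
            _ = _ := one_mul _
        have : (10 : ℝ) * F.card ≤ Fintype.card V := by linarith
        exact_mod_cast this
      obtain ⟨a, haF, ha⟩ := hres B F hq hB3 hF10
      have haF' : ((nb G {a} ∩ R).card : ℝ) ≤ q / 8 := by
        by_contra hcon
        push Not at hcon
        apply haF
        rw [hF, Finset.mem_filter]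
        exact ⟨Finset.mem_univ _, hcon⟩
      rw [← hqdef] at ha
      have ha2 : |((nb G {a} ∩ B).card : ℝ) - q| ≤ q / 2 := by
        refine le_trans ha ?_
        calc q * q ^ (-(1/4) : ℝ) ≤ q * (1/2) := by gcongr
          _ = q / 2 := by ring
      rw [abs_le] at ha2
      set T := (nb G {a} ∩ B) \ R with hT
      have hTl : q / 4 ≤ (T.card : ℝ) := by
        have h1 : (nb G {a} ∩ B).card ≤ T.card + (nb G {a} ∩ R).card := by
          have : nb G {a} ∩ B ⊆ T ∪ (nb G {a} ∩ R) := by
            intro x hx
            simp only [hT, Finset.mem_union, Finset.mem_sdiff, Finset.mem_inter] at hx ⊢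
            tauto
          exact le_trans (Finset.card_le_card this) (Finset.card_union_le _ _)
        have h2 : ((nb G {a} ∩ B).card : ℝ) ≤ T.card + (nb G {a} ∩ R).card := by
          exact_mod_cast h1
        linarith [ha2.1]
      have hTu : (T.card : ℝ) ≤ 2 * q := by
        have h1 : T.card ≤ (nb G {a} ∩ B).card := Finset.card_le_card Finset.sdiff_subset
        have h2 : (T.card : ℝ) ≤ (nb G {a} ∩ B).card := by exact_mod_cast h1
        linarith [ha2.2]
      have hTD : Def G (insert a P') d T := by
        have h8 : Def G (insert a P') 1 (nb G {a}) :=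
          Def.nbr 0 _ (Def.sing 0 a (by simp))
        have h9 : Def G (insert a P') d B := hB.mono (hPP'.trans (Finset.subset_insert _ _))
        have h10 : Def G (insert a P') d R := Def.biUnion' _ _ fun i hi =>
          (hSD i (Finset.mem_range.1 hi)).mono (Finset.subset_insert _ _)
        exact ((h8.mono_succ hd).inter' h9).sdiff' h10
      have hTdisj : ∀ i, i < j → Disjoint (S i) T := by
        intro i hi
        rw [Finset.disjoint_left]
        intro x hx hxT
        rw [hT, Finset.mem_sdiff] at hxT
        apply hxT.2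
        rw [hR, Finset.mem_biUnion]
        exact ⟨i, Finset.mem_range.2 hi, hx⟩
      refine ⟨insert a P', hPP'.trans (Finset.subset_insert _ _), ?_,
        fun i => if i < j then S i else T, ?_, ?_, ?_, ?_⟩
      · have := Finset.card_insert_le a P'
        omega
      · intro i hi
        by_cases hij : i < j
        · simp only [hij, if_true]
          exact (hSD i hij).mono (Finset.subset_insert _ _)
        · simp only [hij, if_false]
          exact hTD
      · intro i i' hi hi' hne
        by_cases hij : i < j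
        · by_cases hij' : i' < j
          · simp only [hij, hij', if_true]
            exact hSdisj i i' hij hij' hne
          · simp only [hij, hij', if_true, if_false]
            exact hTdisj i hij
        · by_cases hij' : i' < j
          · simp only [hij, hij', if_true, if_false]
            exact (hTdisj i' hij').symm
          · exfalso; omega
      · intro i hi
        by_cases hij : i < j
        · simp only [hij, if_true]
          exact hSl i hij
        · simp only [hij, if_false]
          exact hTl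
      · intro i hi
        by_cases hij : i < j
        · simp only [hij, if_true]
          exact hSu i hij
        · simp only [hij, if_false]
          exact hTu
  obtain ⟨P', h1, h2, S, h3, h4, h5, h6⟩ := key k le_rfl
  exact ⟨P', h1, h2, fun j => S j, fun j => h3 j j.2,
    fun i j hij => h4 i j i.2 j.2 (fun h => hij (Fin.ext h)), fun j => h5 j j.2,
    fun j => h6 j j.2⟩

theorem fam_expand {p η κ A A' : ℝ} {k d : ℕ} (hp0 : 0 < p) (hη : 0 ≤ η) (hdeg : DegLe G p η)
    (hexp : ExpProp G p η) {S : Fin k → Finset V} (hD : ∀ j, Def G P d (S j))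
    (hdisj : ∀ i j, i ≠ j → Disjoint (S i) (S j))
    (hSl : ∀ j, A ≤ ((S j).card : ℝ)) (hSu : ∀ j, ((S j).card : ℝ) ≤ A')
    (hsmall : k * A' * p ≤ 1) (hκ : (2 * η + k * A' * p) * (k * A') ≤ κ * A) :
    ∃ S' : Fin k → Finset V, (∀ j, Def G P (d + 1) (S' j)) ∧
      (∀ i j, i ≠ j → Disjoint (S' i) (S' j)) ∧
      (∀ j, A * ((Fintype.card V : ℝ) * p) * (1 - κ) ≤ ((S' j).card : ℝ)) ∧
      (∀ j, ((S' j).card : ℝ) ≤ A' * ((Fintype.card V : ℝ) * p) * (1 + η)) := by
  classical
  set Np := (Fintype.card V : ℝ) * p with hNp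
  have hNp0 : 0 ≤ Np := by positivity
  set Q := Finset.univ.biUnion S with hQ
  have hQc : (Q.card : ℝ) = ∑ j, ((S j).card : ℝ) := by
    rw [hQ, Finset.card_biUnion (fun i _ j _ hij => hdisj i j hij)]
    push_cast; rfl
  have hQle : (Q.card : ℝ) ≤ k * A' := by
    rw [hQc]
    calc ∑ j, ((S j).card : ℝ) ≤ ∑ j : Fin k, A' := Finset.sum_le_sum fun j _ => hSu j
      _ = k * A' := by simp
  have hQp : (Q.card : ℝ) * p ≤ k * A' * p := by gcongr
  have hexpQ := hexp Q (le_trans hQp hsmall)
  refine ⟨fun j => nb G (S j) \ (Finset.univ.erase j).biUnion fun i => nb G (S i), ?_, ?_, ?_, ?_⟩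
  · intro j
    exact (Def.nbr _ _ (hD j)).sdiff' (Def.biUnion' _ _ fun i _ => Def.nbr _ _ (hD i))
  · intro i j hij
    rw [Finset.disjoint_left]
    intro x hx hxj
    rw [Finset.mem_sdiff] at hx hxj
    apply hxj.2
    rw [Finset.mem_biUnion]
    exact ⟨i, by simp [hij], hx.1⟩
  · intro j
    have hcover : nb G Q ⊆ (nb G (S j) \ (Finset.univ.erase j).biUnion fun i => nb G (S i)) ∪
        (Finset.univ.erase j).biUnion fun i => nb G (S i) := by
      intro x hx
      rw [mem_nb] at hx
      obtain ⟨u, hu, hux⟩ := hx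
      rw [hQ, Finset.mem_biUnion] at hu
      obtain ⟨i, -, hi⟩ := hu
      have hxi : x ∈ nb G (S i) := mem_nb.2 ⟨u, hi, hux⟩
      rw [Finset.mem_union]
      by_cases hx2 : x ∈ (Finset.univ.erase j).biUnion fun i => nb G (S i)
      · exact Or.inr hx2
      · left
        rw [Finset.mem_sdiff]
        refine ⟨?_, hx2⟩
        by_cases hij : i = j
        · rw [← hij]; exact hxi
        · exfalso
          apply hx2
          rw [Finset.mem_biUnion]
          exact ⟨i, by simp [hij], hxi⟩
    have h1 : ((nb G Q).card : ℝ) ≤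
        ((nb G (S j) \ (Finset.univ.erase j).biUnion fun i => nb G (S i)).card : ℝ) +
        (((Finset.univ.erase j).biUnion fun i => nb G (S i)).card : ℝ) := by
      exact_mod_cast le_trans (Finset.card_le_card hcover) (Finset.card_union_le _ _)
    have h2 : (((Finset.univ.erase j).biUnion fun i => nb G (S i)).card : ℝ) ≤
        (1 + η) * Np * (Q.card - (S j).card) := by
      calc (((Finset.univ.erase j).biUnion fun i => nb G (S i)).card : ℝ)
          ≤ ((∑ i ∈ Finset.univ.erase j, (nb G (S i)).card : ℕ) : ℝ) := by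
            exact_mod_cast Finset.card_biUnion_le
        _ = ∑ i ∈ Finset.univ.erase j, ((nb G (S i)).card : ℝ) := by push_cast; rfl
        _ ≤ ∑ i ∈ Finset.univ.erase j, (1 + η) * Np * ((S i).card : ℝ) :=
            Finset.sum_le_sum fun i _ => card_nb_le hdeg (S i)
        _ = (1 + η) * Np * ∑ i ∈ Finset.univ.erase j, ((S i).card : ℝ) := by
            rw [Finset.mul_sum]
        _ = (1 + η) * Np * (Q.card - (S j).card) := by
            rw [hQc, ← Finset.add_sum_erase Finset.univ (fun i => ((S i).card : ℝ))
              (Finset.mem_univ j)]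
            ring
    have h3 : (2 * η + (Q.card : ℝ) * p) * Q.card ≤ κ * A := by
      refine le_trans ?_ hκ
      have hQp0 : 0 ≤ (Q.card : ℝ) * p := by positivity
      have : 0 ≤ 2 * η + k * A' * p := by linarith
      gcongr
    have h4 := hSl j
    have h5 : Np * ((2 * η + (Q.card : ℝ) * p) * Q.card) ≤ Np * (κ * A) :=
      mul_le_mul_of_nonneg_left h3 hNp0
    have h6 : Np * A ≤ Np * (S j).card := mul_le_mul_of_nonneg_left h4 hNp0
    have h7 : 0 ≤ η * Np * ((S j).card : ℝ) := by positivity
    nlinarith [h1, h2, hexpQ, h5, h6, h7]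
  · intro j
    have h1 : ((nb G (S j) \ (Finset.univ.erase j).biUnion fun i => nb G (S i)).card : ℝ) ≤
        (nb G (S j)).card := by
      exact_mod_cast Finset.card_le_card Finset.sdiff_subset
    calc _ ≤ ((nb G (S j)).card : ℝ) := h1
      _ ≤ (1 + η) * Np * (S j).card := card_nb_le hdeg (S j)
      _ ≤ (1 + η) * Np * A' := by
          have := hSu j
          gcongr
      _ = A' * Np * (1 + η) := by ring

end Pool.Agent.MPd11e37lc
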