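import Pool.Agent.Lib.MP_d11e37_lc.Logic

/-!
Game part: properties of the Ehrenfeucht relation, the closure `Def` of definable sets, and the
reduction of the definability of a graph to the individual definability of its vertices.
-/

set_option autoImplicit false

namespace Pool.Agent.MPd11e37lc

open FirstOrder FirstOrder.Language

variable {V W U : Type}

theorem EF.symm {G : SimpleGraph V} {H : SimpleGraph W} {d m : ℕ} {a : Fin m → V} {b : Fin m → W}
    (h : EF G H d m a b) : EF H G d m b a := by
  induction d generalizing m with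
  | zero => exact fun i j => ⟨(h i j).1.symm, (h i j).2.symm⟩
  | succ d ih =>
    refine ⟨fun y => ?_, fun x => ?_⟩
    · obtain ⟨x, hx⟩ := h.2 y
      exact ⟨x, ih hx⟩
    · obtain ⟨y, hy⟩ := h.1 x
      exact ⟨y, ih hy⟩

theorem EF.trans {G : SimpleGraph V} {H : SimpleGraph W} {K : SimpleGraph U} {d m : ℕ}
    {a : Fin m → V} {b : Fin m → W} {c : Fin m → U}
    (h : EF G H d m a b) (h' : EF H K d m b c) : EF G K d m a c := by
  induction d generalizing m with
  | zero => exact fun i j => ⟨(h i j).1.trans (h' i j).1, (h i j).2.trans (h' i j).2⟩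
  | succ d ih =>
    refine ⟨fun x => ?_, fun z => ?_⟩
    · obtain ⟨y, hy⟩ := h.1 x
      obtain ⟨z, hz⟩ := h'.1 y
      exact ⟨z, ih hy hz⟩
    · obtain ⟨y, hy⟩ := h'.2 z
      obtain ⟨x, hx⟩ := h.2 y
      exact ⟨x, ih hx hy⟩

theorem snoc_comp_ext {m m' : ℕ} (f : Fin m' → Fin m) (a : Fin m → V) (x : V) :
    (Fin.snoc (α := fun _ => V) a x : Fin (m + 1) → V) ∘
      (Fin.snoc (α := fun _ => Fin (m + 1)) (fun i => Fin.castSucc (f i)) (Fin.last m)) =
      Fin.snoc (α := fun _ => V) (a ∘ f) x := by
  funext i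
  refine Fin.lastCases ?_ (fun i => ?_) i
  · simp
  · simp

theorem EF.comp {G : SimpleGraph V} {H : SimpleGraph W} {d m m' : ℕ}
    {a : Fin m → V} {b : Fin m → W} (f : Fin m' → Fin m)
    (h : EF G H d m a b) : EF G H d m' (a ∘ f) (b ∘ f) := by
  induction d generalizing m m' with
  | zero => exact fun i j => h (f i) (f j)
  | succ d ih =>
    refine ⟨fun x => ?_, fun y => ?_⟩
    · obtain ⟨y, hy⟩ := h.1 x
      refine ⟨y, ?_⟩
      have := ih (Fin.snoc (α := fun _ => Fin (m + 1)) (fun i => Fin.castSucc (f i)) (Fin.last m)) hy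
      rwa [snoc_comp_ext, snoc_comp_ext] at this
    · obtain ⟨x, hx⟩ := h.2 y
      refine ⟨x, ?_⟩
      have := ih (Fin.snoc (α := fun _ => Fin (m + 1)) (fun i => Fin.castSucc (f i)) (Fin.last m)) hx
      rwa [snoc_comp_ext, snoc_comp_ext] at this

theorem EF.pred {G : SimpleGraph V} {H : SimpleGraph W} {d m : ℕ} {a : Fin m → V} {b : Fin m → W}
    (h : EF G H (d + 1) m a b) : EF G H d m a b := by
  induction d generalizing m with
  | zero =>
    intro i j
    obtain ⟨y, hy⟩ := h.1 (a i)
    have := hy (Fin.castSucc i) (Fin.castSucc j)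
    simpa using this
  | succ d ih =>
    refine ⟨fun x => ?_, fun y => ?_⟩
    · obtain ⟨y, hy⟩ := h.1 x
      exact ⟨y, ih hy⟩
    · obtain ⟨x, hx⟩ := h.2 y
      exact ⟨x, ih hx⟩

theorem EF.zero {G : SimpleGraph V} {H : SimpleGraph W} {d m : ℕ} {a : Fin m → V} {b : Fin m → W}
    (h : EF G H d m a b) : EF G H 0 m a b := by
  induction d with
  | zero => exact h
  | succ d ih => exact ih h.pred

theorem EF.of_iso {G : SimpleGraph V} {H : SimpleGraph W} (e : G ≃g H) {d m : ℕ}
    (a : Fin m → V) : EF G H d m a (e ∘ a) := by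
  induction d generalizing m with
  | zero => exact fun i j => ⟨by simp, e.map_adj_iff.symm⟩
  | succ d ih =>
    have key : ∀ x : V, (Fin.snoc (α := fun _ => W) (e ∘ a) (e x) : Fin (m + 1) → W) =
        e ∘ (Fin.snoc (α := fun _ => V) a x) := by
      intro x
      funext i
      refine Fin.lastCases ?_ (fun i => ?_) i
      · simp
      · simp
    refine ⟨fun x => ⟨e x, ?_⟩, fun y => ⟨e.symm y, ?_⟩⟩
    · rw [key]; exact ih _
    · have : y = e (e.symm y) := by simp
      rw [this, key]
      simpa using ih _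

theorem EF.play {G : SimpleGraph V} {H : SimpleGraph W} {k e : ℕ}
    {a : Fin 0 → V} {b : Fin 0 → W}
    (h : EF G H (k + e) 0 a b) (c : Fin k → V) : ∃ c' : Fin k → W, EF G H e k c c' := by
  induction k generalizing e with
  | zero =>
    refine ⟨b, ?_⟩
    have : c = a := by funext i; exact i.elim0
    rw [this]
    simpa using h
  | succ k ih =>
    have h' : EF G H (k + (e + 1)) 0 a b := by
      have : k + 1 + e = k + (e + 1) := by ring
      rwa [this] at h
    obtain ⟨c', hc'⟩ := ih h' (Fin.init (α := fun _ => V) c)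
    obtain ⟨y, hy⟩ := hc'.1 (c (Fin.last k))
    refine ⟨Fin.snoc (α := fun _ => W) c' y, ?_⟩
    rwa [Fin.snoc_init_self] at hy

open Classical in
/-- The set of all vertices having a neighbour in `B`. -/
noncomputable def nb {V : Type} [Fintype V] (G : SimpleGraph V) (B : Finset V) : Finset V :=
  Finset.univ.filter fun v => ∃ u ∈ B, G.Adj u v

theorem mem_nb {V : Type} [Fintype V] {G : SimpleGraph V} {B : Finset V} {v : V} :
    v ∈ nb G B ↔ ∃ u ∈ B, G.Adj u v := by
  classical
  simp [nb]

open Classical in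
/-- The sets of vertices built from the singletons of `P` by Boolean operations and at most `d`
nested neighbourhood operations. -/
inductive Def {V : Type} [Fintype V] (G : SimpleGraph V) (P : Finset V) : ℕ → Finset V → Prop
  | empty (d : ℕ) : Def G P d ∅
  | sing (d : ℕ) (v : V) : v ∈ P → Def G P d {v}
  | compl (d : ℕ) (B : Finset V) : Def G P d B → Def G P d Bᶜ
  | union (d : ℕ) (B B' : Finset V) : Def G P d B → Def G P d B' → Def G P d (B ∪ B')
  | nbr (d : ℕ) (B : Finset V) : Def G P d B → Def G P (d + 1) (nb G B)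
  | succ (d : ℕ) (B : Finset V) : Def G P d B → Def G P (d + 1) B

open Classical in
theorem Def.inv {V : Type} [Fintype V] {G : SimpleGraph V} {P : Finset V} {d : ℕ} {B : Finset V}
    (hB : Def G P d B) {k : ℕ} (c : Fin k → V) (hc : ∀ v ∈ P, ∃ i, c i = v) :
    ∀ x y, EF G G d (k + 1) (Fin.snoc (α := fun _ => V) c x) (Fin.snoc (α := fun _ => V) c y) →
      x ∈ B → y ∈ B := by
  induction hB with
  | empty d => intro x y _ hx; simp at hx
  | sing d v hv =>
    intro x y h hx
    obtain ⟨i, hi⟩ := hc v hv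
    have := (h.zero (Fin.castSucc i) (Fin.last k)).1
    simp only [Fin.snoc_castSucc, Fin.snoc_last] at this
    simp only [Finset.mem_singleton] at hx ⊢
    rw [hi] at this
    exact (this.1 hx.symm).symm
  | compl d B _ ih =>
    intro x y h hx
    simp only [Finset.mem_compl] at hx ⊢
    exact fun hy => hx (ih y x h.symm hy)
  | union d B B' _ _ ih ih' =>
    intro x y h hx
    simp only [Finset.mem_union] at hx ⊢
    exact hx.imp (ih x y h) (ih' x y h)
  | nbr d B _ ih =>
    intro x y h hx
    rw [mem_nb] at hx ⊢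
    obtain ⟨u, hu, hux⟩ := hx
    obtain ⟨v, hv⟩ := h.1 u
    refine ⟨v, ?_, ?_⟩
    · apply ih u v _ hu
      have := EF.comp (Fin.snoc (α := fun _ => Fin (k + 1 + 1))
        (fun i : Fin k => Fin.castSucc (Fin.castSucc i)) (Fin.last (k + 1))) hv
      convert this using 1
      · funext i
        refine Fin.lastCases ?_ (fun i => ?_) i
        · simp
        · simp
      · funext i
        refine Fin.lastCases ?_ (fun i => ?_) i
        · simp
        · simp
    · have := (hv.zero (Fin.last (k + 1)) (Fin.castSucc (Fin.last k))).2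
      simp only [Fin.snoc_castSucc, Fin.snoc_last] at this
      exact this.1 hux
  | succ d B _ ih =>
    intro x y h hx
    exact ih x y h.pred hx

/-- `G` is defined among finite graphs by a sentence of quantifier depth at most `K`. -/
def DefinedBy {n : ℕ} (G : SimpleGraph (Fin n)) (K : ℕ) : Prop :=
  ∃ φ : FirstOrder.Language.Sentence FirstOrder.Language.graph, QD 0 φ K ∧
    ∀ (m : ℕ) (H : SimpleGraph (Fin m)),
      (@FirstOrder.Language.Sentence.Realize FirstOrder.Language.graph (Fin m) H.structure φ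
        ↔ Nonempty (SimpleGraph.Iso G H))

theorem iso_of_EF [Fintype V] {G : SimpleGraph V} {H : SimpleGraph W}
    {P : Finset V} {d : ℕ} (hP : ∀ v, Def G P d {v}) {a : Fin 0 → V} {b : Fin 0 → W}
    (h : EF G H (P.card + (d + 2)) 0 a b) : Nonempty (SimpleGraph.Iso G H) := by
  classical
  set k := P.card with hk
  let c : Fin k → V := fun i => (P.equivFin.symm i).val
  have hc : ∀ v ∈ P, ∃ i, c i = v := by
    intro v hv
    exact ⟨P.equivFin ⟨v, hv⟩, by simp [c]⟩
  obtain ⟨c', hc'⟩ := h.play c
  -- uniqueness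
  have uniq : ∀ x x' : V, ∀ y : W,
      EF G H d (k + 1) (Fin.snoc (α := fun _ => V) c x) (Fin.snoc (α := fun _ => W) c' y) →
      EF G H d (k + 1) (Fin.snoc (α := fun _ => V) c x') (Fin.snoc (α := fun _ => W) c' y) →
      x = x' := by
    intro x x' y h1 h2
    have := (hP x).inv c hc x x' (h1.trans h2.symm) (by simp)
    rw [Finset.mem_singleton] at this
    exact this.symm
  have pair : ∀ x x' : V, ∀ y y' : W,
      EF G H (d + 1) (k + 1) (Fin.snoc (α := fun _ => V) c x) (Fin.snoc (α := fun _ => W) c' y) →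
      EF G H (d + 1) (k + 1) (Fin.snoc (α := fun _ => V) c x') (Fin.snoc (α := fun _ => W) c' y') →
      (x = x' ↔ y = y') ∧ (G.Adj x x' ↔ H.Adj y y') := by
    intro x x' y y' h1 h2
    obtain ⟨x'', hx''⟩ := h1.2 y'
    have h3 := EF.comp (Fin.snoc (α := fun _ => Fin (k + 1 + 1))
        (fun i : Fin k => Fin.castSucc (Fin.castSucc i)) (Fin.last (k + 1))) hx''
    have e1 : (Fin.snoc (α := fun _ => V) (Fin.snoc (α := fun _ => V) c x) x'' : Fin (k + 1 + 1) → V) ∘
        (Fin.snoc (α := fun _ => Fin (k + 1 + 1))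
        (fun i : Fin k => Fin.castSucc (Fin.castSucc i)) (Fin.last (k + 1))) =
        Fin.snoc (α := fun _ => V) c x'' := by
      funext i
      refine Fin.lastCases ?_ (fun i => ?_) i
      · simp
      · simp
    have e2 : (Fin.snoc (α := fun _ => W) (Fin.snoc (α := fun _ => W) c' y) y' : Fin (k + 1 + 1) → W) ∘
        (Fin.snoc (α := fun _ => Fin (k + 1 + 1))
        (fun i : Fin k => Fin.castSucc (Fin.castSucc i)) (Fin.last (k + 1))) =
        Fin.snoc (α := fun _ => W) c' y' := by
      funext i
      refine Fin.lastCases ?_ (fun i => ?_) i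
      · simp
      · simp
    rw [e1, e2] at h3
    have hxx : x'' = x' := uniq _ _ _ h3 h2.pred
    rw [hxx] at hx''
    have h4 := hx''.zero (Fin.castSucc (Fin.last k)) (Fin.last (k + 1))
    simpa using h4
  choose g hg using hc'.2
  choose f hf using hc'.1
  have hfg : ∀ x, g (f x) = x := fun x => ((pair _ _ _ _ (hg (f x)) (hf x)).1).2 rfl
  have hgf : ∀ y, f (g y) = y := fun y => ((pair _ _ _ _ (hf (g y)) (hg y)).1).1 rfl
  exact ⟨{ toFun := f, invFun := g, left_inv := hfg, right_inv := hgf,
           map_rel_iff' := by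
            intro x x'
            exact ((pair _ _ _ _ (hf x) (hf x')).2).symm }⟩

theorem definedBy_of_def {n : ℕ} {G : SimpleGraph (Fin n)} {P : Finset (Fin n)} {d : ℕ}
    (hP : ∀ v, Def G P d {v}) : DefinedBy G (P.card + (d + 2)) := by
  refine ⟨hint G (P.card + (d + 2)) 0 (fun i => i.elim0), QD_hint _ _ _ _, ?_⟩
  intro m H
  unfold FirstOrder.Language.Sentence.Realize FirstOrder.Language.Formula.Realize
  rw [realize_hint]
  constructor
  · exact fun h => iso_of_EF hP h
  · rintro ⟨e⟩
    have h1 := EF.of_iso e (d := P.card + (d + 2)) (m := 0) (fun i => i.elim0)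
    refine (congrArg (EF G H (P.card + (d + 2)) 0 _) ?_).mp h1
    funext i
    exact i.elim0

end Pool.Agent.MPd11e37lc
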