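import Mathlib

/-!
Logic part: Ehrenfeucht game relation on finite graphs, Hintikka formulas, and the reduction of
the definability of a graph to the individual definability of its vertices.
-/

set_option autoImplicit false

namespace Pool.Agent.MPd11e37lc

open FirstOrder FirstOrder.Language

/-- Bounded formulas in the language of graphs. -/
abbrev BF (m : ℕ) := FirstOrder.Language.BoundedFormula FirstOrder.Language.graph Empty m

/-- `QD m φ k`: the quantifier depth of `φ` is at most `k`. -/
inductive QD : (m : ℕ) → BF m → ℕ → Prop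
  | falsum (m k : ℕ) : QD m BoundedFormula.falsum k
  | equal (m k : ℕ) (t₁ t₂) : QD m (BoundedFormula.equal t₁ t₂) k
  | rel (m k l : ℕ) (R : FirstOrder.Language.graph.Relations l) (ts) :
      QD m (BoundedFormula.rel R ts) k
  | imp (m k : ℕ) (ψ χ : BF m) : QD m ψ k → QD m χ k → QD m (ψ.imp χ) k
  | all (m k : ℕ) (ψ : BF (m + 1)) : QD (m + 1) ψ k → QD m ψ.all (k + 1)

theorem QD.not {m k : ℕ} {φ : BF m} (h : QD m φ k) : QD m φ.not k :=
  QD.imp _ _ _ _ h (QD.falsum _ _)

theorem QD.bot {m k : ℕ} : QD m (⊥ : BF m) k := QD.falsum _ _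

theorem QD.top {m k : ℕ} : QD m (⊤ : BF m) k := QD.not QD.bot

theorem QD.inf {m k : ℕ} {φ ψ : BF m} (h : QD m φ k) (h' : QD m ψ k) : QD m (φ ⊓ ψ) k :=
  QD.not (QD.imp _ _ _ _ h (QD.not h'))

theorem QD.sup {m k : ℕ} {φ ψ : BF m} (h : QD m φ k) (h' : QD m ψ k) : QD m (φ ⊔ ψ) k :=
  QD.imp _ _ _ _ (QD.not h) h'

theorem QD.ex {m k : ℕ} {φ : BF (m + 1)} (h : QD (m + 1) φ k) : QD m φ.ex (k + 1) :=
  QD.not (QD.all _ _ _ (QD.not h))

theorem QD.foldr_inf {m k : ℕ} (l : List (BF m)) (h : ∀ φ ∈ l, QD m φ k) :
    QD m (l.foldr (· ⊓ ·) ⊤) k := by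
  induction l with
  | nil => exact QD.top
  | cons a l ih =>
    simp only [List.foldr_cons]
    exact QD.inf (h a (by simp)) (ih fun φ hφ => h φ (by simp [hφ]))

theorem QD.foldr_sup {m k : ℕ} (l : List (BF m)) (h : ∀ φ ∈ l, QD m φ k) :
    QD m (l.foldr (· ⊔ ·) ⊥) k := by
  induction l with
  | nil => exact QD.bot
  | cons a l ih =>
    simp only [List.foldr_cons]
    exact QD.sup (h a (by simp)) (ih fun φ hφ => h φ (by simp [hφ]))

theorem QD.iInf {m k : ℕ} {β : Type} [Finite β] {f : β → BF m} (h : ∀ b, QD m (f b) k) :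
    QD m (BoundedFormula.iInf f) k := by
  unfold BoundedFormula.iInf
  apply QD.foldr_inf
  intro φ hφ
  simp only [List.mem_map] at hφ
  obtain ⟨b, -, rfl⟩ := hφ
  exact h b

theorem QD.iSup {m k : ℕ} {β : Type} [Finite β] {f : β → BF m} (h : ∀ b, QD m (f b) k) :
    QD m (BoundedFormula.iSup f) k := by
  unfold BoundedFormula.iSup
  apply QD.foldr_sup
  intro φ hφ
  simp only [List.mem_map] at hφ
  obtain ⟨b, -, rfl⟩ := hφ
  exact h b

/-- The Ehrenfeucht game relation: Duplicator survives `d` more rounds. -/
def EF {V W : Type} (G : SimpleGraph V) (H : SimpleGraph W) :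
    (d m : ℕ) → (Fin m → V) → (Fin m → W) → Prop
  | 0, _, a, b => ∀ i j, (a i = a j ↔ b i = b j) ∧ (G.Adj (a i) (a j) ↔ H.Adj (b i) (b j))
  | d + 1, m, a, b =>
      (∀ x, ∃ y, EF G H d (m + 1) (Fin.snoc (α := fun _ => V) a x) (Fin.snoc (α := fun _ => W) b y)) ∧
      (∀ y, ∃ x, EF G H d (m + 1) (Fin.snoc (α := fun _ => V) a x) (Fin.snoc (α := fun _ => W) b y))

open Classical in
/-- The literal describing equality. -/
noncomputable def litEq (m : ℕ) (i j : Fin m) (P : Prop) : BF m :=
  if P then BoundedFormula.equal (Term.var (Sum.inr i)) (Term.var (Sum.inr j))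
  else (BoundedFormula.equal (Term.var (Sum.inr i)) (Term.var (Sum.inr j)) : BF m).not

open Classical in
/-- The literal describing adjacency. -/
noncomputable def litAdj (m : ℕ) (i j : Fin m) (P : Prop) : BF m :=
  if P then BoundedFormula.rel adj ![Term.var (Sum.inr i), Term.var (Sum.inr j)]
  else (BoundedFormula.rel adj ![Term.var (Sum.inr i), Term.var (Sum.inr j)] : BF m).not

theorem QD.litEq {m k : ℕ} {i j : Fin m} {P : Prop} : QD m (litEq m i j P) k := by
  unfold Pool.Agent.MPd11e37lc.litEq
  split_ifs
  · exact QD.equal _ _ _ _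
  · exact QD.not (QD.equal _ _ _ _)

theorem QD.litAdj {m k : ℕ} {i j : Fin m} {P : Prop} : QD m (litAdj m i j P) k := by
  unfold Pool.Agent.MPd11e37lc.litAdj
  split_ifs
  · exact QD.rel _ _ _ _ _
  · exact QD.not (QD.rel _ _ _ _ _)

/-- The Hintikka formula of a tuple. -/
noncomputable def hint {V : Type} [Finite V] (G : SimpleGraph V) :
    (d m : ℕ) → (Fin m → V) → BF m
  | 0, m, a => BoundedFormula.iInf (fun ij : Fin m × Fin m =>
      litEq m ij.1 ij.2 (a ij.1 = a ij.2) ⊓ litAdj m ij.1 ij.2 (G.Adj (a ij.1) (a ij.2)))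
  | d + 1, m, a =>
      (BoundedFormula.iInf fun x : V => (hint G d (m + 1) (Fin.snoc (α := fun _ => V) a x)).ex) ⊓
      (BoundedFormula.iSup fun x : V => hint G d (m + 1) (Fin.snoc (α := fun _ => V) a x)).all

theorem QD_hint {V : Type} [Finite V] (G : SimpleGraph V) (d m : ℕ) (a : Fin m → V) :
    QD m (hint G d m a) d := by
  induction d generalizing m with
  | zero =>
    unfold hint
    exact QD.iInf fun ij => QD.inf QD.litEq QD.litAdj
  | succ d ih =>
    unfold hint
    exact QD.inf (QD.iInf fun x => QD.ex (ih _ _)) (QD.all _ _ _ (QD.iSup fun x => ih _ _))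

theorem realize_hint {V W : Type} [Finite V] (G : SimpleGraph V) (H : SimpleGraph W)
    (d m : ℕ) (a : Fin m → V) (b : Fin m → W) (v : Empty → W) :
    @BoundedFormula.Realize FirstOrder.Language.graph W H.structure Empty m (hint G d m a) v b ↔
      EF G H d m a b := by
  letI := H.structure
  induction d generalizing m with
  | zero =>
    unfold hint EF
    rw [BoundedFormula.realize_iInf]
    constructor
    · intro h i j
      have := h (i, j)
      rw [BoundedFormula.realize_inf] at this
      obtain ⟨h1, h2⟩ := this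
      constructor
      · unfold litEq at h1
        split_ifs at h1 with hP
        · simp only [hP, true_iff]
          simpa [BoundedFormula.Realize] using h1
        · simp only at hP
          simp only [hP, false_iff]
          simpa [BoundedFormula.Realize] using h1
      · unfold litAdj at h2
        split_ifs at h2 with hP
        · simp only [hP, true_iff]
          simpa [BoundedFormula.Realize, SimpleGraph.structure, Structure.RelMap] using h2
        · simp only at hP
          simp only [hP, false_iff]
          simpa [BoundedFormula.Realize, SimpleGraph.structure, Structure.RelMap] using h2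
    · rintro h ⟨i, j⟩
      rw [BoundedFormula.realize_inf]
      obtain ⟨h1, h2⟩ := h i j
      constructor
      · unfold litEq
        split_ifs with hP
        · simpa [BoundedFormula.Realize] using h1.1 hP
        · simpa [BoundedFormula.Realize] using fun h => hP (h1.2 h)
      · unfold litAdj
        split_ifs with hP
        · simpa [BoundedFormula.Realize, SimpleGraph.structure, Structure.RelMap] using h2.1 hP
        · simpa [BoundedFormula.Realize, SimpleGraph.structure, Structure.RelMap] using
            fun h => hP (h2.2 h)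
  | succ d ih =>
    unfold hint EF
    rw [BoundedFormula.realize_inf, BoundedFormula.realize_iInf, BoundedFormula.realize_all]
    simp only [BoundedFormula.realize_ex, BoundedFormula.realize_iSup, ih]

end Pool.Agent.MPd11e37lc
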