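import Pool.Agent.Lib.MP_d11e37_lc.Asym3

/-!
Random graphs are defined with logarithmic quantifier depth.
-/

set_option autoImplicit false
set_option linter.unusedSectionVars false

namespace Pool.Agent.MPd11e37lc

open Finset

/-- Sparse regime. -/
theorem main_sparse (D : ℝ) (hD : 1 ≤ D) : ∀ᶠ l : ℝ in Filter.atTop, ∀ (n : ℕ)
    (p : ℝ) (k : ℕ), l = Real.log n → 0 < p → p ≤ 1 / 2 → (k : ℝ) ≤ D * l →
    4 * l ≤ (1 - Real.exp (-(1 / (16 * KK)))) * Real.exp (-(2 * (8 * KK))) * k →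
    l ^ 20 ≤ n * p → p * l ≤ 1 / (320 * D) →
    Pr p (fun ω : Sym2 (Fin n) → Bool =>
      ¬ ∃ m : ℕ, (m : ℝ) ≤ (10 + D) * l ∧ DefinedBy (gr ω) m) ≤ 6 * Real.exp (-l) := by
  have hD0 : 0 < D := by linarith
  filter_upwards [Filter.eventually_ge_atTop (10 : ℝ), Filter.eventually_ge_atTop KK, det1 D hD0,
    fail1 D hD0] with l hl10 hlK hdet hfail
  intro n p k hl hp hp2 hk hθ hnp hpl
  have hl0 : 0 < l := by linarith
  have hKK : (0 : ℝ) < KK := by unfold KK; norm_num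
  obtain ⟨f1, f2, f3, f4, f5, f6⟩ := hfail n p k hl hp hp2 hk hθ hnp
  have hp1 : p ≤ 1 := by linarith
  have hkp : 320 * (k : ℝ) * p ≤ 1 := by
    calc 320 * (k : ℝ) * p ≤ 320 * (D * l) * p := by gcongr
      _ = 320 * D * (p * l) := by ring
      _ ≤ 320 * D * (1 / (320 * D)) := by gcongr
      _ = 1 := by field_simp
  have hpK : p ≤ 1 / KK := by
    rw [le_div_iff₀ hKK]
    have h1 : 1 / (320 * D) ≤ 1 := by
      rw [div_le_one (by positivity)]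
      linarith
    calc p * KK ≤ p * l := by gcongr
      _ ≤ 1 := by linarith
  have key : ∀ ω : Sym2 (Fin n) → Bool,
      (¬ ∃ m : ℕ, (m : ℝ) ≤ (10 + D) * l ∧ DefinedBy (gr ω) m) →
      (¬ DegLe (gr ω) p (1 / l ^ 4)) ∨ (¬ ExpProp (gr ω) p (1 / l ^ 4)) ∨
      (¬ ResProp (gr ω) p (KK / 2)) ∨ (¬ DistProp (gr ω) k (1 / (16 * KK)) (8 * KK) p) ∨
      (¬ BootProp (gr ω)) := by
    intro ω h
    by_contra hcon
    push Not at hcon
    obtain ⟨g1, g2, g3, g4, g5⟩ := hcon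
    exact h (hdet n (gr ω) p k hl hp hk hkp hpK hnp g1 g2 g3 g4 g5)
  refine le_trans (Pr_mono hp.le hp1 key) ?_
  have a1 := Pr_or_le hp.le hp1 (fun ω : Sym2 (Fin n) → Bool => ¬ DegLe (gr ω) p (1 / l ^ 4))
    (fun ω => (¬ ExpProp (gr ω) p (1 / l ^ 4)) ∨
      (¬ ResProp (gr ω) p (KK / 2)) ∨ (¬ DistProp (gr ω) k (1 / (16 * KK)) (8 * KK) p) ∨
      (¬ BootProp (gr ω)))
  have a2 := Pr_or_le hp.le hp1 (fun ω : Sym2 (Fin n) → Bool => ¬ ExpProp (gr ω) p (1 / l ^ 4))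
    (fun ω => (¬ ResProp (gr ω) p (KK / 2)) ∨
      (¬ DistProp (gr ω) k (1 / (16 * KK)) (8 * KK) p) ∨ (¬ BootProp (gr ω)))
  have a3 := Pr_or_le hp.le hp1 (fun ω : Sym2 (Fin n) → Bool => ¬ ResProp (gr ω) p (KK / 2))
    (fun ω => (¬ DistProp (gr ω) k (1 / (16 * KK)) (8 * KK) p) ∨ (¬ BootProp (gr ω)))
  have a4 := Pr_or_le hp.le hp1
    (fun ω : Sym2 (Fin n) → Bool => ¬ DistProp (gr ω) k (1 / (16 * KK)) (8 * KK) p)
    (fun ω => ¬ BootProp (gr ω))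
  have := Real.exp_pos (-l)
  linarith

/-- Dense regime. -/
theorem main_dense (D c CA : ℝ) (hD : 1 ≤ D) (hc : 0 < c) (hCA : 32 ≤ CA) (hCA' : 32 ≤ c * CA) :
    ∀ᶠ l : ℝ in Filter.atTop, ∀ (n : ℕ)
    (p : ℝ) (k : ℕ), l = Real.log n → 0 < p → p ≤ 1 / 2 → (k : ℝ) ≤ D * l → KK ≤ k →
    4 * l ≤ (1 - Real.exp (-(1 / (16 * KK)))) * Real.exp (-(2 * (8 * KK))) * k →
    l ^ 20 ≤ n * p → c ≤ p * l →
    Pr p (fun ω : Sym2 (Fin n) → Bool =>
      ¬ ∃ m : ℕ, (m : ℝ) ≤ (20 + CA) * l ∧ DefinedBy (gr ω) m) ≤ 6 * Real.exp (-l) := by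
  have hD0 : 0 < D := by linarith
  filter_upwards [Filter.eventually_ge_atTop (10 : ℝ), det2 D c CA hD0 hc hCA hCA',
    fail1 D hD0, fail2 c hc] with l hl10 hdet hfail hfail2
  intro n p k hl hp hp2 hk hkK hθ hnp hpl
  have hl0 : 0 < l := by linarith
  obtain ⟨f1, f2, f3, f4, f5, f6⟩ := hfail n p k hl hp hp2 hk hθ hnp
  have f7 := hfail2 n p hl hp hp2 hpl hnp
  have hp1 : p ≤ 1 := by linarith
  have key : ∀ ω : Sym2 (Fin n) → Bool,
      (¬ ∃ m : ℕ, (m : ℝ) ≤ (20 + CA) * l ∧ DefinedBy (gr ω) m) →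
      (¬ DegLe (gr ω) p (1 / l ^ 4)) ∨ (¬ DegGe (gr ω) p (1 / l ^ 4)) ∨
      (¬ CodegLe (gr ω) p (1 / l ^ 4)) ∨
      (¬ ResProp (gr ω) p (KK / 2)) ∨ (¬ DistProp (gr ω) k (1 / (16 * KK)) (8 * KK) p) ∨
      (¬ BootProp (gr ω)) := by
    intro ω h
    by_contra hcon
    push Not at hcon
    obtain ⟨g1, g2, g3, g4, g5, g6⟩ := hcon
    exact h (hdet n (gr ω) p k hl hp hp2 hpl hk hkK hnp g1 g2 g3 g4 g5 g6)
  refine le_trans (Pr_mono hp.le hp1 key) ?_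
  have a1 := Pr_or_le hp.le hp1 (fun ω : Sym2 (Fin n) → Bool => ¬ DegLe (gr ω) p (1 / l ^ 4))
    (fun ω => (¬ DegGe (gr ω) p (1 / l ^ 4)) ∨
      (¬ CodegLe (gr ω) p (1 / l ^ 4)) ∨
      (¬ ResProp (gr ω) p (KK / 2)) ∨ (¬ DistProp (gr ω) k (1 / (16 * KK)) (8 * KK) p) ∨
      (¬ BootProp (gr ω)))
  have a1' := Pr_or_le hp.le hp1 (fun ω : Sym2 (Fin n) → Bool => ¬ DegGe (gr ω) p (1 / l ^ 4))
    (fun ω => (¬ CodegLe (gr ω) p (1 / l ^ 4)) ∨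
      (¬ ResProp (gr ω) p (KK / 2)) ∨ (¬ DistProp (gr ω) k (1 / (16 * KK)) (8 * KK) p) ∨
      (¬ BootProp (gr ω)))
  have a2 := Pr_or_le hp.le hp1 (fun ω : Sym2 (Fin n) → Bool => ¬ CodegLe (gr ω) p (1 / l ^ 4))
    (fun ω => (¬ ResProp (gr ω) p (KK / 2)) ∨
      (¬ DistProp (gr ω) k (1 / (16 * KK)) (8 * KK) p) ∨ (¬ BootProp (gr ω)))
  have a3 := Pr_or_le hp.le hp1 (fun ω : Sym2 (Fin n) → Bool => ¬ ResProp (gr ω) p (KK / 2))
    (fun ω => (¬ DistProp (gr ω) k (1 / (16 * KK)) (8 * KK) p) ∨ (¬ BootProp (gr ω)))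
  have a4 := Pr_or_le hp.le hp1
    (fun ω : Sym2 (Fin n) → Bool => ¬ DistProp (gr ω) k (1 / (16 * KK)) (8 * KK) p)
    (fun ω => ¬ BootProp (gr ω))
  have := Real.exp_pos (-l)
  linarith

/-- Random graphs are defined by sentences of logarithmic quantifier depth. -/
theorem main_bound : ∃ C : ℝ, 0 < C ∧ ∀ᶠ l : ℝ in Filter.atTop, ∀ (n : ℕ) (p : ℝ),
    l = Real.log n → 0 < p → p ≤ 1 / 2 → l ^ 20 ≤ n * p →
    Pr p (fun ω : Sym2 (Fin n) → Bool =>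
      ¬ ∃ m : ℕ, (m : ℝ) ≤ C * l ∧ DefinedBy (gr ω) m) ≤ 6 * Real.exp (-l) := by
  have hKK : (0 : ℝ) < KK := by unfold KK; norm_num
  set θ := (1 - Real.exp (-(1 / (16 * KK)))) * Real.exp (-(2 * (8 * KK))) with hθ
  have h1 : Real.exp (-(1 / (16 * KK))) < 1 := by
    rw [Real.exp_lt_one_iff]
    have : 0 < 1 / (16 * KK) := by positivity
    linarith
  have hθ0 : 0 < θ := mul_pos (by linarith) (Real.exp_pos _)
  set C₃ := 4 / θ with hC₃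
  have hC₃0 : 0 < C₃ := by positivity
  set D := C₃ + 1 with hD
  have hD1 : 1 ≤ D := by linarith
  set c := 1 / (320 * D) with hc
  have hc0 : 0 < c := by positivity
  have hc1 : c ≤ 1 := by
    rw [hc, div_le_one (by positivity)]
    linarith
  set CA := 32 / c with hCA
  have hCA1 : 32 ≤ CA := by
    rw [hCA, le_div_iff₀ hc0]
    linarith
  have hCA2 : 32 ≤ c * CA := by
    rw [hCA]
    field_simp
    norm_num
  refine ⟨20 + D + CA, by linarith, ?_⟩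
  filter_upwards [Filter.eventually_ge_atTop (10 : ℝ), Filter.eventually_ge_atTop (KK / C₃),
    main_sparse D hD1, main_dense D c CA hD1 hc0 hCA1 hCA2] with l hl10 hlK hs hd
  intro n p hl hp hp2 hnp
  have hl0 : 0 < l := by linarith
  have hk1 : C₃ * l ≤ (⌈C₃ * l⌉₊ : ℕ) := Nat.le_ceil _
  have hk2 : ((⌈C₃ * l⌉₊ : ℕ) : ℝ) ≤ D * l := by
    have : ((⌈C₃ * l⌉₊ : ℕ) : ℝ) < C₃ * l + 1 := Nat.ceil_lt_add_one (by positivity)
    rw [hD]
    linarith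
  have hk3 : KK ≤ (⌈C₃ * l⌉₊ : ℕ) := by
    rw [div_le_iff₀ hC₃0] at hlK
    linarith [mul_comm C₃ l]
  have hk4 : 4 * l ≤ θ * (⌈C₃ * l⌉₊ : ℕ) := by
    calc 4 * l = θ * (C₃ * l) := by rw [hC₃]; field_simp
      _ ≤ θ * (⌈C₃ * l⌉₊ : ℕ) := by gcongr
  have hp1 : p ≤ 1 := by linarith
  rcases le_total (p * l) c with h | h
  · refine le_trans (Pr_mono hp.le hp1 ?_) (hs n p ⌈C₃ * l⌉₊ hl hp hp2 hk2 hk4 hnp h)
    rintro ω hω ⟨m, hm1, hm2⟩
    refine hω ⟨m, le_trans hm1 ?_, hm2⟩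
    nlinarith
  · refine le_trans (Pr_mono hp.le hp1 ?_) (hd n p ⌈C₃ * l⌉₊ hl hp hp2 hk2 hk3 hk4 hnp h)
    rintro ω hω ⟨m, hm1, hm2⟩
    refine hω ⟨m, le_trans hm1 ?_, hm2⟩
    nlinarith

/-- The range of `p` is contained in the range covered by `main_bound`. -/
theorem range_ok {δ : ℝ} (hδ : δ < 1) : ∀ᶠ l : ℝ in Filter.atTop, ∀ (n : ℕ) (p : ℝ),
    l = Real.log n → (n : ℝ) ^ (-δ) ≤ p → l ^ 20 ≤ n * p := by
  have ha : 0 < 1 - δ := by linarith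
  filter_upwards [Filter.eventually_ge_atTop (10 : ℝ),
    ev_pow 1 ((1 - δ) ^ 21 / (Nat.factorial 21 : ℕ)) (by positivity) (show 20 < 21 by norm_num)]
    with l hl10 e1
  intro n p hl hp
  have hl1 : 1 ≤ l := by linarith
  obtain ⟨h1, -, -, -, -⟩ := ceil_facts hl hl1
  have hn0 : (0 : ℝ) < n := by rw [h1]; exact Real.exp_pos _
  calc l ^ 20 = 1 * l ^ 20 := (one_mul _).symm
    _ ≤ (1 - δ) ^ 21 / (Nat.factorial 21 : ℕ) * l ^ 21 := e1
    _ = ((1 - δ) * l) ^ 21 / (Nat.factorial 21 : ℕ) := by rw [mul_pow]; ring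
    _ ≤ Real.exp ((1 - δ) * l) := Real.pow_div_factorial_le_exp _ (by positivity) 21
    _ = n * (n : ℝ) ^ (-δ) := by
        rw [Real.rpow_def_of_pos hn0, ← hl]
        nth_rewrite 1 [h1]
        rw [← Real.exp_add]
        congr 1
        ring
    _ ≤ n * p := by gcongr

theorem tendsto_main {δ : ℝ} (hδ : δ < 1) (p : ℕ → ℝ)
    (hp : ∀ᶠ n : ℕ in Filter.atTop, (n : ℝ) ^ (-δ) ≤ p n ∧ p n ≤ 1 / 2) :
    ∃ C : ℝ, 0 < C ∧ Filter.Tendsto (fun n : ℕ => Pr (p n) (fun ω : Sym2 (Fin n) → Bool =>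
      ∃ m : ℕ, (m : ℝ) ≤ C * Real.log n ∧ DefinedBy (gr ω) m)) Filter.atTop (nhds 1) := by
  obtain ⟨C, hC, hmain⟩ := main_bound
  refine ⟨C, hC, ?_⟩
  have hlog : Filter.Tendsto (fun n : ℕ => Real.log (n : ℝ)) Filter.atTop Filter.atTop :=
    Real.tendsto_log_atTop.comp tendsto_natCast_atTop_atTop
  have hlow : Filter.Tendsto (fun n : ℕ => 1 - 6 * Real.exp (-Real.log (n : ℝ)))
      Filter.atTop (nhds 1) := by
    have h1 : Filter.Tendsto (fun n : ℕ => Real.exp (-Real.log (n : ℝ))) Filter.atTop (nhds 0) :=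
      Real.tendsto_exp_neg_atTop_nhds_zero.comp hlog
    have h2 := (h1.const_mul 6).const_sub 1
    simpa using h2
  have hev : ∀ᶠ n : ℕ in Filter.atTop, 0 < p n ∧ p n ≤ 1 / 2 ∧
      1 - 6 * Real.exp (-Real.log (n : ℝ)) ≤ Pr (p n) (fun ω : Sym2 (Fin n) → Bool =>
        ∃ m : ℕ, (m : ℝ) ≤ C * Real.log n ∧ DefinedBy (gr ω) m) := by
    filter_upwards [hp, hlog.eventually hmain, hlog.eventually (range_ok hδ),
      Filter.eventually_gt_atTop 0] with n h1 h2 h3 h4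
    have hn0 : (0 : ℝ) < n := by exact_mod_cast h4
    have hp0 : 0 < p n := lt_of_lt_of_le (Real.rpow_pos_of_pos hn0 _) h1.1
    refine ⟨hp0, h1.2, ?_⟩
    have h5 := h2 n (p n) rfl hp0 h1.2 (h3 n (p n) rfl h1.1)
    rw [Pr_not] at h5
    linarith
  refine tendsto_of_tendsto_of_tendsto_of_le_of_le' hlow tendsto_const_nhds ?_ ?_
  · filter_upwards [hev] with n hn
    exact hn.2.2
  · filter_upwards [hev] with n hn
    exact Pr_le_one hn.1.le (by linarith [hn.2.1]) _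

theorem QD.closed (Q : (m : ℕ) → BF m → ℕ → Prop)
    (h1 : ∀ (m k' : ℕ), Q m FirstOrder.Language.BoundedFormula.falsum k')
    (h2 : ∀ (m k' : ℕ) (t₁ t₂ : FirstOrder.Language.Term FirstOrder.Language.graph (Empty ⊕ Fin m)),
      Q m (FirstOrder.Language.BoundedFormula.equal t₁ t₂) k')
    (h3 : ∀ (m k' l : ℕ) (R : FirstOrder.Language.graph.Relations l)
      (ts : Fin l → FirstOrder.Language.Term FirstOrder.Language.graph (Empty ⊕ Fin m)),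
      Q m (FirstOrder.Language.BoundedFormula.rel R ts) k')
    (h4 : ∀ (m k' : ℕ) (ψ χ : BF m), Q m ψ k' → Q m χ k' →
      Q m (FirstOrder.Language.BoundedFormula.imp ψ χ) k')
    (h5 : ∀ (m k' : ℕ) (ψ : BF (m + 1)), Q (m + 1) ψ k' →
      Q m (FirstOrder.Language.BoundedFormula.all ψ) (k' + 1))
    {m k : ℕ} {φ : BF m} (h : QD m φ k) : Q m φ k := by
  induction h with
  | falsum m k => exact h1 m k
  | equal m k t₁ t₂ => exact h2 m k t₁ t₂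
  | rel m k l R ts => exact h3 m k l R ts
  | imp m k ψ χ _ _ ih1 ih2 => exact h4 m k ψ χ ih1 ih2
  | all m k ψ _ ih => exact h5 m k ψ ih

end Pool.Agent.MPd11e37lc
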