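import Mathlib

/-!
Elementary product probability on `I → Bool`.
-/

set_option autoImplicit false
set_option linter.unusedSectionVars false

namespace Pool.Agent.MPd11e37lc

open Finset

variable {I : Type} [Fintype I] [DecidableEq I]

/-- Weight of a configuration. -/
noncomputable def wt (p : ℝ) (ω : I → Bool) : ℝ := ∏ e, if ω e then p else 1 - p

/-- Expectation. -/
noncomputable def Ex (p : ℝ) (f : (I → Bool) → ℝ) : ℝ := ∑ ω, wt p ω * f ω

open Classical in
/-- Probability. -/
noncomputable def Pr (p : ℝ) (A : (I → Bool) → Prop) : ℝ := Ex p fun ω => if A ω then 1 else 0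

/-- `f` depends only on the coordinates in `D`. -/
def DepOn {α : Type} (f : (I → Bool) → α) (D : Finset I) : Prop :=
  ∀ ω ω' : I → Bool, (∀ e ∈ D, ω e = ω' e) → f ω = f ω'

theorem wt_nonneg {p : ℝ} (h0 : 0 ≤ p) (h1 : p ≤ 1) (ω : I → Bool) : 0 ≤ wt p ω := by
  unfold wt
  apply Finset.prod_nonneg
  intro e _
  split_ifs <;> linarith

theorem Ex_one (p : ℝ) : Ex (I := I) p (fun _ => 1) = 1 := by
  unfold Ex wt
  have := Finset.prod_univ_sum (fun _ : I => (Finset.univ : Finset Bool))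
    (fun _ b => if b then p else 1 - p)
  rw [Fintype.piFinset_univ] at this
  simp only [mul_one]
  rw [← this]
  simp

theorem Ex_add (p : ℝ) (f g : (I → Bool) → ℝ) : Ex p (fun ω => f ω + g ω) = Ex p f + Ex p g := by
  unfold Ex
  rw [← Finset.sum_add_distrib]
  exact Finset.sum_congr rfl fun ω _ => by ring

theorem Ex_sub (p : ℝ) (f g : (I → Bool) → ℝ) : Ex p (fun ω => f ω - g ω) = Ex p f - Ex p g := by
  unfold Ex
  rw [← Finset.sum_sub_distrib]
  exact Finset.sum_congr rfl fun ω _ => by ring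

theorem Ex_mul_left (p c : ℝ) (f : (I → Bool) → ℝ) : Ex p (fun ω => c * f ω) = c * Ex p f := by
  unfold Ex
  rw [Finset.mul_sum]
  exact Finset.sum_congr rfl fun ω _ => by ring

theorem Ex_const (p c : ℝ) : Ex (I := I) p (fun _ => c) = c := by
  have := Ex_mul_left (I := I) p c (fun _ => 1)
  rw [Ex_one] at this
  simpa using this

theorem Ex_sum {ι : Type} (p : ℝ) (s : Finset ι) (f : ι → (I → Bool) → ℝ) :
    Ex p (fun ω => ∑ i ∈ s, f i ω) = ∑ i ∈ s, Ex p (f i) := by
  unfold Ex
  rw [Finset.sum_comm]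
  exact Finset.sum_congr rfl fun ω _ => by rw [Finset.mul_sum]

theorem Ex_mono {p : ℝ} (h0 : 0 ≤ p) (h1 : p ≤ 1) {f g : (I → Bool) → ℝ}
    (h : ∀ ω, f ω ≤ g ω) : Ex p f ≤ Ex p g := by
  unfold Ex
  exact Finset.sum_le_sum fun ω _ => mul_le_mul_of_nonneg_left (h ω) (wt_nonneg h0 h1 ω)

theorem Ex_nonneg {p : ℝ} (h0 : 0 ≤ p) (h1 : p ≤ 1) {f : (I → Bool) → ℝ}
    (h : ∀ ω, 0 ≤ f ω) : 0 ≤ Ex p f := by
  unfold Ex
  exact Finset.sum_nonneg fun ω _ => mul_nonneg (wt_nonneg h0 h1 ω) (h ω)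

/-- Merge two configurations. -/
def mrg (D : Finset I) (ω ω' : I → Bool) : I → Bool := fun e => if e ∈ D then ω e else ω' e

theorem wt_mrg (p : ℝ) (D : Finset I) (ω ω' : I → Bool) :
    wt p (mrg D ω ω') * wt p (mrg D ω' ω) = wt p ω * wt p ω' := by
  unfold wt
  rw [← Finset.prod_mul_distrib, ← Finset.prod_mul_distrib]
  apply Finset.prod_congr rfl
  intro e _
  unfold mrg
  by_cases h : e ∈ D
  · simp only [h, if_true]
  · simp only [h, if_false]
    rw [mul_comm]

/-- The swapping involution on pairs of configurations. -/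
def mrgEquiv (D : Finset I) : ((I → Bool) × (I → Bool)) ≃ ((I → Bool) × (I → Bool)) where
  toFun x := (mrg D x.1 x.2, mrg D x.2 x.1)
  invFun x := (mrg D x.1 x.2, mrg D x.2 x.1)
  left_inv x := by
    ext e <;> simp only [mrg] <;> split_ifs <;> rfl
  right_inv x := by
    ext e <;> simp only [mrg] <;> split_ifs <;> rfl

theorem Ex_mul {p : ℝ} {D D' : Finset I} (hD : Disjoint D D') {f g : (I → Bool) → ℝ}
    (hf : DepOn f D) (hg : DepOn g D') : Ex p (fun ω => f ω * g ω) = Ex p f * Ex p g := by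
  have h1 : Ex p f * Ex p g =
      ∑ x : (I → Bool) × (I → Bool), (wt p x.1 * wt p x.2) * (f x.1 * g x.2) := by
    unfold Ex
    rw [Finset.sum_mul_sum, ← Finset.univ_product_univ, Finset.sum_product]
    exact Finset.sum_congr rfl fun ω _ => Finset.sum_congr rfl fun ω' _ => by ring
  have h2 : Ex p (fun ω => f ω * g ω) * Ex (I := I) p (fun _ => 1) =
      ∑ x : (I → Bool) × (I → Bool), (wt p x.1 * wt p x.2) * (f x.1 * g x.1) := by
    unfold Ex
    rw [Finset.sum_mul_sum, ← Finset.univ_product_univ, Finset.sum_product]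
    exact Finset.sum_congr rfl fun ω _ => Finset.sum_congr rfl fun ω' _ => by ring
  rw [Ex_one, mul_one] at h2
  rw [h2, h1]
  symm
  apply Fintype.sum_equiv (mrgEquiv D)
  intro x
  obtain ⟨ω, ω'⟩ := x
  simp only [mrgEquiv, Equiv.coe_fn_mk]
  rw [wt_mrg]
  congr 2
  · apply hf
    intro e he
    simp [mrg, he]
  · apply hg
    intro e he
    have : e ∉ D := fun h => Finset.disjoint_left.1 hD h he
    simp [mrg, this]

theorem DepOn.mono {α : Type} {f : (I → Bool) → α} {D D' : Finset I} (h : DepOn f D)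
    (hD : D ⊆ D') : DepOn f D' := fun ω ω' h' => h ω ω' fun e he => h' e (hD he)

theorem DepOn.prod {ι : Type} {s : Finset ι} {f : ι → (I → Bool) → ℝ} {D : ι → Finset I}
    [DecidableEq ι]
    (h : ∀ i ∈ s, DepOn (f i) (D i)) : DepOn (fun ω => ∏ i ∈ s, f i ω) (s.biUnion D) := by
  intro ω ω' h'
  apply Finset.prod_congr rfl
  intro i hi
  exact h i hi ω ω' fun e he => h' e (Finset.mem_biUnion.2 ⟨i, hi, he⟩)

theorem Ex_prod {ι : Type} [DecidableEq ι] {p : ℝ} (s : Finset ι) (f : ι → (I → Bool) → ℝ)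
    (D : ι → Finset I) (h : ∀ i ∈ s, DepOn (f i) (D i))
    (hD : ∀ i ∈ s, ∀ j ∈ s, i ≠ j → Disjoint (D i) (D j)) :
    Ex p (fun ω => ∏ i ∈ s, f i ω) = ∏ i ∈ s, Ex p (f i) := by
  induction s using Finset.induction_on with
  | empty => simpa using Ex_one p
  | insert a s ha ih =>
    have h1 : (fun ω : I → Bool => ∏ i ∈ insert a s, f i ω) =
        fun ω => f a ω * ∏ i ∈ s, f i ω := by
      funext ω
      rw [Finset.prod_insert ha]
    rw [h1, Finset.prod_insert ha, Ex_mul (D := D a) (D' := s.biUnion D) _ (h a (by simp))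
      (DepOn.prod fun i hi => h i (by simp [hi])),
      ih (fun i hi => h i (by simp [hi])) (fun i hi j hj => hD i (by simp [hi]) j (by simp [hj]))]
    rw [Finset.disjoint_biUnion_right]
    intro i hi
    exact hD a (by simp) i (by simp [hi]) (fun h => ha (h ▸ hi))

open Classical in
theorem Pr_le_Ex {p : ℝ} (h0 : 0 ≤ p) (h1 : p ≤ 1) {A : (I → Bool) → Prop}
    {f : (I → Bool) → ℝ} (hf : ∀ ω, 0 ≤ f ω) (h : ∀ ω, A ω → 1 ≤ f ω) : Pr p A ≤ Ex p f := by
  unfold Pr
  apply Ex_mono h0 h1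
  intro ω
  split_ifs with hA
  · exact h ω hA
  · exact hf ω

theorem Pr_nonneg {p : ℝ} (h0 : 0 ≤ p) (h1 : p ≤ 1) (A : (I → Bool) → Prop) : 0 ≤ Pr p A := by
  unfold Pr
  apply Ex_nonneg h0 h1
  intro ω
  split_ifs <;> norm_num

theorem Pr_mono {p : ℝ} (h0 : 0 ≤ p) (h1 : p ≤ 1) {A B : (I → Bool) → Prop}
    (h : ∀ ω, A ω → B ω) : Pr p A ≤ Pr p B := by
  unfold Pr
  apply Ex_mono h0 h1
  intro ω
  by_cases hA : A ω
  · rw [if_pos hA, if_pos (h ω hA)]
  · rw [if_neg hA]
    split_ifs <;> norm_num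

theorem Pr_le_one {p : ℝ} (h0 : 0 ≤ p) (h1 : p ≤ 1) (A : (I → Bool) → Prop) : Pr p A ≤ 1 := by
  rw [← Ex_one (I := I) p]
  exact Ex_mono h0 h1 fun ω => by split_ifs <;> norm_num

theorem Pr_false {p : ℝ} {A : (I → Bool) → Prop} (h : ∀ ω, ¬ A ω) : Pr p A = 0 := by
  unfold Pr Ex
  simp [h]

theorem Pr_not (p : ℝ) (A : (I → Bool) → Prop) : Pr p (fun ω => ¬ A ω) = 1 - Pr p A := by
  have h : Pr p (fun ω => ¬ A ω) + Pr p A = 1 := by
    rw [← Ex_one (I := I) p]
    unfold Pr
    rw [← Ex_add]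
    congr 1
    funext ω
    by_cases hA : A ω <;> simp [hA]
  linarith

theorem Pr_exists_le {ι : Type} {p : ℝ} (h0 : 0 ≤ p) (h1 : p ≤ 1) (s : Finset ι)
    (A : ι → (I → Bool) → Prop) : Pr p (fun ω => ∃ i ∈ s, A i ω) ≤ ∑ i ∈ s, Pr p (A i) := by
  classical
  unfold Pr
  rw [← Ex_sum]
  apply Ex_mono h0 h1
  intro ω
  have hnn : ∀ i ∈ s, (0:ℝ) ≤ if A i ω then 1 else 0 := fun i _ => by split_ifs <;> norm_num
  split_ifs with h
  · obtain ⟨i, hi, hA⟩ := h
    have := Finset.single_le_sum hnn hi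
    rw [if_pos hA] at this
    exact this
  · exact Finset.sum_nonneg hnn

theorem Pr_or_le {p : ℝ} (h0 : 0 ≤ p) (h1 : p ≤ 1) (A B : (I → Bool) → Prop) :
    Pr p (fun ω => A ω ∨ B ω) ≤ Pr p A + Pr p B := by
  unfold Pr
  rw [← Ex_add]
  apply Ex_mono h0 h1
  intro ω
  by_cases hA : A ω <;> by_cases hB : B ω <;> simp [hA, hB]

/-- Independence for events. -/
theorem Pr_forall {ι : Type} [DecidableEq ι] {p : ℝ} (s : Finset ι) (A : ι → (I → Bool) → Prop)
    (D : ι → Finset I) (h : ∀ i ∈ s, DepOn (A i) (D i))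
    (hD : ∀ i ∈ s, ∀ j ∈ s, i ≠ j → Disjoint (D i) (D j)) :
    Pr p (fun ω => ∀ i ∈ s, A i ω) = ∏ i ∈ s, Pr p (A i) := by
  classical
  unfold Pr
  rw [← Ex_prod s (fun i ω => if A i ω then (1:ℝ) else 0) D _ hD]
  · congr 1
    funext ω
    rw [Finset.prod_ite_zero]
    simp
  · intro i hi ω ω' hω
    simp only [h i hi ω ω' hω]

theorem exp_neg_le_quad {a : ℝ} (ha : 0 ≤ a) : Real.exp (-a) ≤ 1 - a + a ^ 2 / 2 := by
  have h := Real.quadratic_le_exp_of_nonneg ha
  rw [Real.exp_neg]
  have hpos : 0 < Real.exp a := Real.exp_pos a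
  rw [inv_le_iff_one_le_mul₀ hpos]
  have h2 : 0 ≤ 1 - a + a ^ 2 / 2 := by nlinarith [sq_nonneg (a - 1)]
  have h3 : (1 - a + a ^ 2 / 2) * (1 + a + a ^ 2 / 2) ≤ (1 - a + a ^ 2 / 2) * Real.exp a :=
    mul_le_mul_of_nonneg_left h h2
  nlinarith [sq_nonneg (a ^ 2)]

theorem exp_le_quad {a : ℝ} (ha : 0 ≤ a) (ha1 : a ≤ 1) : Real.exp a ≤ 1 + a + a ^ 2 := by
  have h := Real.abs_exp_sub_one_sub_id_le (x := a) (by rw [abs_of_nonneg ha]; exact ha1)
  rw [abs_le] at h
  linarith [h.2]

open Classical in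
/-- Chernoff bound, lower tail. -/
theorem chernoff_lower {ι : Type} [DecidableEq ι] {p q l : ℝ} (h0 : 0 ≤ p) (h1 : p ≤ 1)
    (s : Finset ι) (X : ι → (I → Bool) → Prop) (D : ι → Finset I)
    (h : ∀ i ∈ s, DepOn (X i) (D i)) (hD : ∀ i ∈ s, ∀ j ∈ s, i ≠ j → Disjoint (D i) (D j))
    (hq0 : 0 ≤ q) (hq : ∀ i ∈ s, q ≤ Pr p (X i)) (hl : 0 ≤ l) :
    Pr p (fun ω => ((s.filter fun i => X i ω).card : ℝ) ≤ (1 - l) * (s.card * q)) ≤
      Real.exp (-(l ^ 2 * (s.card * q) / 2)) := by
  set μ := (s.card : ℝ) * q with hμ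
  set c := 1 - Real.exp (-l) with hc
  have hc0 : 0 ≤ c := by
    have : Real.exp (-l) ≤ 1 := Real.exp_le_one_iff.2 (by linarith)
    linarith
  have key : Pr p (fun ω => ((s.filter fun i => X i ω).card : ℝ) ≤ (1 - l) * μ) ≤
      Ex p (fun ω => Real.exp (l * ((1 - l) * μ)) *
        ∏ i ∈ s, (1 - c * (if X i ω then (1:ℝ) else 0))) := by
    apply Pr_le_Ex h0 h1
    · intro ω
      apply mul_nonneg (Real.exp_pos _).le
      apply Finset.prod_nonneg
      intro i _
      split_ifs
      · rw [hc]; linarith [Real.exp_pos (-l)]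
      · simp
    · intro ω hω
      have e : ∏ i ∈ s, (1 - c * (if X i ω then (1:ℝ) else 0)) =
          Real.exp (-(l * (s.filter fun i => X i ω).card)) := by
        have : ∀ i, (1 - c * (if X i ω then (1:ℝ) else 0)) =
            if X i ω then Real.exp (-l) else 1 := by
          intro i
          split_ifs
          · rw [hc]; ring
          · ring
        simp_rw [this]
        rw [Finset.prod_ite, Finset.prod_const, Finset.prod_const_one, mul_one,
          ← Real.exp_nat_mul]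
        congr 1
        ring
      rw [e, ← Real.exp_add]
      apply Real.one_le_exp
      have := mul_le_mul_of_nonneg_left hω hl
      linarith
  refine le_trans key ?_
  rw [Ex_mul_left, Ex_prod s _ D]
  · have h2 : ∏ i ∈ s, Ex p (fun ω => 1 - c * (if X i ω then (1:ℝ) else 0)) ≤
        ∏ i ∈ s, Real.exp (-(c * q)) := by
      apply Finset.prod_le_prod
      · intro i _
        apply Ex_nonneg h0 h1
        intro ω
        split_ifs
        · rw [hc]; linarith [Real.exp_pos (-l)]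
        · simp
      · intro i hi
        rw [Ex_sub, Ex_const, Ex_mul_left]
        have h3 := hq i hi
        unfold Pr at h3
        have h4 := Real.add_one_le_exp (-(c * q))
        have h5 := mul_le_mul_of_nonneg_left h3 hc0
        linarith
    rw [Finset.prod_const, ← Real.exp_nat_mul] at h2
    calc Real.exp (l * ((1 - l) * μ)) * ∏ i ∈ s, Ex p (fun ω => 1 - c * (if X i ω then (1:ℝ) else 0))
        ≤ Real.exp (l * ((1 - l) * μ)) * Real.exp (s.card * (-(c * q))) := by gcongr
      _ = Real.exp (l * ((1 - l) * μ) + s.card * (-(c * q))) := by rw [Real.exp_add]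
      _ ≤ Real.exp (-(l ^ 2 * μ / 2)) := by
          apply Real.exp_le_exp.2
          have hμ0 : 0 ≤ μ := by positivity
          have h6 := exp_neg_le_quad hl
          have h7 : l - l ^ 2 / 2 ≤ c := by rw [hc]; linarith
          have h8 : s.card * (-(c * q)) = -(c * μ) := by rw [hμ]; ring
          rw [h8]
          have h9 := mul_le_mul_of_nonneg_right h7 hμ0
          linarith
  · intro i hi ω ω' hω
    simp only [h i hi ω ω' hω]
  · exact hD

open Classical in
/-- Chernoff bound, upper tail. -/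
theorem chernoff_upper {ι : Type} [DecidableEq ι] {p q l : ℝ} (h0 : 0 ≤ p) (h1 : p ≤ 1)
    (s : Finset ι) (X : ι → (I → Bool) → Prop) (D : ι → Finset I)
    (h : ∀ i ∈ s, DepOn (X i) (D i)) (hD : ∀ i ∈ s, ∀ j ∈ s, i ≠ j → Disjoint (D i) (D j))
    (hq0 : 0 ≤ q) (hq : ∀ i ∈ s, Pr p (X i) ≤ q) (hl : 0 ≤ l) (hl1 : l ≤ 1) :
    Pr p (fun ω => (1 + l) * (s.card * q) ≤ ((s.filter fun i => X i ω).card : ℝ)) ≤
      Real.exp (-(l ^ 2 * (s.card * q) / 4)) := by
  set μ := (s.card : ℝ) * q with hμ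
  set a := l / 2 with ha
  set c := Real.exp a - 1 with hc
  have hc0 : 0 ≤ c := by
    have : 1 ≤ Real.exp a := Real.one_le_exp (by positivity)
    linarith
  have key : Pr p (fun ω => (1 + l) * μ ≤ ((s.filter fun i => X i ω).card : ℝ)) ≤
      Ex p (fun ω => Real.exp (-(a * ((1 + l) * μ))) *
        ∏ i ∈ s, (1 + c * (if X i ω then (1:ℝ) else 0))) := by
    apply Pr_le_Ex h0 h1
    · intro ω
      apply mul_nonneg (Real.exp_pos _).le
      apply Finset.prod_nonneg
      intro i _
      split_ifs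
      · linarith
      · simp
    · intro ω hω
      have e : ∏ i ∈ s, (1 + c * (if X i ω then (1:ℝ) else 0)) =
          Real.exp (a * (s.filter fun i => X i ω).card) := by
        have : ∀ i, (1 + c * (if X i ω then (1:ℝ) else 0)) =
            if X i ω then Real.exp a else 1 := by
          intro i
          split_ifs
          · rw [hc]; ring
          · ring
        simp_rw [this]
        rw [Finset.prod_ite, Finset.prod_const, Finset.prod_const_one, mul_one,
          ← Real.exp_nat_mul]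
        congr 1
        ring
      rw [e, ← Real.exp_add]
      apply Real.one_le_exp
      have := mul_le_mul_of_nonneg_left hω (show 0 ≤ a by positivity)
      linarith
  refine le_trans key ?_
  rw [Ex_mul_left, Ex_prod s _ D]
  · have h2 : ∏ i ∈ s, Ex p (fun ω => 1 + c * (if X i ω then (1:ℝ) else 0)) ≤
        ∏ i ∈ s, Real.exp (c * q) := by
      apply Finset.prod_le_prod
      · intro i _
        apply Ex_nonneg h0 h1
        intro ω
        split_ifs
        · linarith
        · simp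
      · intro i hi
        rw [Ex_add, Ex_const, Ex_mul_left]
        have h3 := hq i hi
        unfold Pr at h3
        have h4 := Real.add_one_le_exp (c * q)
        have h5 := mul_le_mul_of_nonneg_left h3 hc0
        linarith
    rw [Finset.prod_const, ← Real.exp_nat_mul] at h2
    calc Real.exp (-(a * ((1 + l) * μ))) *
          ∏ i ∈ s, Ex p (fun ω => 1 + c * (if X i ω then (1:ℝ) else 0))
        ≤ Real.exp (-(a * ((1 + l) * μ))) * Real.exp (s.card * (c * q)) := by gcongr
      _ = Real.exp (-(a * ((1 + l) * μ)) + s.card * (c * q)) := by rw [Real.exp_add]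
      _ ≤ Real.exp (-(l ^ 2 * μ / 4)) := by
          apply Real.exp_le_exp.2
          have hμ0 : 0 ≤ μ := by positivity
          have h6 := exp_le_quad (a := a) (by positivity) (by linarith)
          have h7 : c ≤ a + a ^ 2 := by rw [hc]; linarith
          have h8 : s.card * (c * q) = c * μ := by rw [hμ]; ring
          rw [h8]
          have h9 := mul_le_mul_of_nonneg_right h7 hμ0
          have h10 : (a + a ^ 2) * μ = a * μ + a ^ 2 * μ := by ring
          have h11 : a ^ 2 * μ = l ^ 2 * μ / 4 := by rw [ha]; ring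
          have h12 : a * ((1 + l) * μ) = a * μ + l ^ 2 * μ / 2 := by rw [ha]; ring
          linarith
  · intro i hi ω ω' hω
    simp only [h i hi ω ω' hω]
  · exact hD

end Pool.Agent.MPd11e37lc
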