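import Pool.Agent.Lib.MP_d11e37_lc.RG
import Pool.Agent.Lib.MP_d11e37_lc.Regime2

/-!
Failure probabilities of the pseudo-random properties.
-/

set_option autoImplicit false
set_option linter.unusedSectionVars false

namespace Pool.Agent.MPd11e37lc

open Finset

variable {V : Type} [Fintype V] [DecidableEq V]

open Classical in
theorem nb_singleton_card (ω : Sym2 V → Bool) (v : V) :
    nb (gr ω) {v} = (Finset.univ.erase v).filter fun u => ω s(v, u) = true := by
  ext u
  rw [mem_nb_singleton, gr_adj]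
  simp only [Finset.mem_filter, Finset.mem_erase, Finset.mem_univ, and_true]
  exact and_congr_left fun _ => ne_comm

theorem single_disjoint {v u u' : V} (h : u ≠ u') :
    Disjoint ({s(v, u)} : Finset (Sym2 V)) {s(v, u')} := by
  rw [Finset.disjoint_singleton]
  intro h'
  rw [Sym2.eq_iff] at h'
  rcases h' with ⟨_, h2⟩ | ⟨h1, h2⟩
  · exact h h2
  · exact h (h2.trans h1)

theorem prob_degLe {p η : ℝ} (h0 : 0 ≤ p) (h1 : p ≤ 1) (hη0 : 0 ≤ η) (hη1 : η ≤ 1) :
    Pr p (fun ω : Sym2 V → Bool => ¬ DegLe (gr ω) p η) ≤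
      (Fintype.card V : ℝ) * Real.exp (-(η ^ 2 * (((Fintype.card V : ℝ) - 1) * p) / 4)) := by
  classical
  have e1 : ∀ ω : Sym2 V → Bool, ¬ DegLe (gr ω) p η → ∃ v ∈ (Finset.univ : Finset V),
      (1 + η) * (((Finset.univ.erase v).card : ℝ) * p) ≤
        (((Finset.univ.erase v).filter fun u => ω s(v, u) = true).card : ℝ) := by
    intro ω h
    unfold DegLe at h
    push Not at h
    obtain ⟨v, hv⟩ := h
    refine ⟨v, Finset.mem_univ _, ?_⟩
    rw [nb_singleton_card] at hv
    refine le_trans ?_ hv.le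
    have : ((Finset.univ.erase v).card : ℝ) ≤ Fintype.card V := by
      exact_mod_cast Finset.card_le_univ _
    gcongr
  refine le_trans (Pr_mono h0 h1 e1) ?_
  refine le_trans (Pr_exists_le h0 h1 _ _) ?_
  have e2 : ∀ v ∈ (Finset.univ : Finset V), Pr p (fun ω : Sym2 V → Bool =>
      (1 + η) * (((Finset.univ.erase v).card : ℝ) * p) ≤
        (((Finset.univ.erase v).filter fun u => ω s(v, u) = true).card : ℝ)) ≤
      Real.exp (-(η ^ 2 * (((Fintype.card V : ℝ) - 1) * p) / 4)) := by
    intro v _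
    have := chernoff_upper (p := p) (q := p) (l := η) h0 h1 (Finset.univ.erase v)
      (fun u (ω : Sym2 V → Bool) => ω s(v, u) = true) (fun u => {s(v, u)})
      (fun u _ ω ω' h => by simp only [h _ (Finset.mem_singleton_self _)])
      (fun u _ u' _ h => single_disjoint h) h0 (fun u _ => (Pr_coord p _).le) hη0 hη1
    have hc : ((Finset.univ.erase v).card : ℝ) = (Fintype.card V : ℝ) - 1 := by
      rw [Finset.card_erase_of_mem (Finset.mem_univ v), Finset.card_univ, Nat.cast_sub]
      · simp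
      · exact Fintype.card_pos_iff.2 ⟨v⟩
    rw [hc] at this ⊢
    convert this using 6
    all_goals (ext u; simp only [Finset.mem_filter])
  refine le_trans (Finset.sum_le_sum e2) ?_
  rw [Finset.sum_const, Finset.card_univ, nsmul_eq_mul]

theorem prob_degGe {p η : ℝ} (h0 : 0 ≤ p) (h1 : p ≤ 1) (hη0 : 0 ≤ η)
    (hN : 2 ≤ η * ((Fintype.card V : ℝ) + 1)) :
    Pr p (fun ω : Sym2 V → Bool => ¬ DegGe (gr ω) p η) ≤
      (Fintype.card V : ℝ) * Real.exp (-((η / 2) ^ 2 * (((Fintype.card V : ℝ) - 1) * p) / 2)) := by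
  classical
  have hc : ∀ v : V, ((Finset.univ.erase v).card : ℝ) = (Fintype.card V : ℝ) - 1 := by
    intro v
    rw [Finset.card_erase_of_mem (Finset.mem_univ v), Finset.card_univ, Nat.cast_sub]
    · simp
    · exact Fintype.card_pos_iff.2 ⟨v⟩
  have e1 : ∀ ω : Sym2 V → Bool, ¬ DegGe (gr ω) p η → ∃ v ∈ (Finset.univ : Finset V),
      (((Finset.univ.erase v).filter fun u => ω s(v, u) = true).card : ℝ) ≤
      (1 - η / 2) * (((Finset.univ.erase v).card : ℝ) * p) := by
    intro ω h
    unfold DegGe at h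
    push Not at h
    obtain ⟨v, hv⟩ := h
    refine ⟨v, Finset.mem_univ _, ?_⟩
    rw [nb_singleton_card] at hv
    refine le_trans hv.le ?_
    rw [hc]
    have : (1 - η) * (Fintype.card V : ℝ) ≤ (1 - η / 2) * ((Fintype.card V : ℝ) - 1) := by
      nlinarith
    calc (1 - η) * ((Fintype.card V : ℝ) * p) = ((1 - η) * (Fintype.card V : ℝ)) * p := by ring
      _ ≤ ((1 - η / 2) * ((Fintype.card V : ℝ) - 1)) * p := by gcongr
      _ = _ := by ring
  refine le_trans (Pr_mono h0 h1 e1) ?_
  refine le_trans (Pr_exists_le h0 h1 _ _) ?_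
  have e2 : ∀ v ∈ (Finset.univ : Finset V), Pr p (fun ω : Sym2 V → Bool =>
      (((Finset.univ.erase v).filter fun u => ω s(v, u) = true).card : ℝ) ≤
      (1 - η / 2) * (((Finset.univ.erase v).card : ℝ) * p)) ≤
      Real.exp (-((η / 2) ^ 2 * (((Fintype.card V : ℝ) - 1) * p) / 2)) := by
    intro v _
    have := chernoff_lower (p := p) (q := p) (l := η / 2) h0 h1 (Finset.univ.erase v)
      (fun u (ω : Sym2 V → Bool) => ω s(v, u) = true) (fun u => {s(v, u)})
      (fun u _ ω ω' h => by simp only [h _ (Finset.mem_singleton_self _)])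
      (fun u _ u' _ h => single_disjoint h) h0 (fun u _ => (Pr_coord p _).ge) (by linarith)
    rw [hc] at this ⊢
    convert this using 6
    all_goals (ext u; simp only [Finset.mem_filter])
  refine le_trans (Finset.sum_le_sum e2) ?_
  rw [Finset.sum_const, Finset.card_univ, nsmul_eq_mul]

theorem pair_disjoint {v w u u' : V} (h : u ≠ u') (a1 : u ≠ v) (a2 : u ≠ w)
    : Disjoint ({s(v, u), s(w, u)} : Finset (Sym2 V)) {s(v, u'), s(w, u')} := by
  rw [Finset.disjoint_left]
  intro e he he'
  simp only [Finset.mem_insert, Finset.mem_singleton] at he he'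
  rcases he with rfl | rfl <;> rcases he' with he' | he' <;> rw [Sym2.eq_iff] at he' <;>
    rcases he' with ⟨c1, c2⟩ | ⟨c1, c2⟩
  · exact h c2
  · exact a1 c2
  · exact h c2
  · exact a2 c2
  · exact h c2
  · exact a1 c2
  · exact h c2
  · exact a2 c2

theorem prob_codegLe {p η : ℝ} (h0 : 0 ≤ p) (h1 : p ≤ 1) (hη0 : 0 ≤ η) (hη1 : η ≤ 1) :
    Pr p (fun ω : Sym2 V → Bool => ¬ CodegLe (gr ω) p η) ≤
      (Fintype.card V : ℝ) ^ 2 *
        Real.exp (-(η ^ 2 * (((Fintype.card V : ℝ) - 2) * p ^ 2) / 4)) := by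
  classical
  set W : V × V → Finset V := fun x => (Finset.univ.erase x.1).erase x.2 with hW
  have e1 : ∀ ω : Sym2 V → Bool, ¬ CodegLe (gr ω) p η → ∃ x ∈
      (Finset.univ.filter fun x : V × V => x.1 ≠ x.2),
      (1 + η) * (((W x).card : ℝ) * p ^ 2) ≤
        (((W x).filter fun u => ω s(x.1, u) = true ∧ ω s(x.2, u) = true).card : ℝ) := by
    intro ω h
    unfold CodegLe at h
    push Not at h
    obtain ⟨v, w, hvw, hv⟩ := h
    refine ⟨(v, w), by simp [hvw], ?_⟩
    have h2 : nb (gr ω) {v} ∩ nb (gr ω) {w} =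
        (W (v, w)).filter fun u => ω s(v, u) = true ∧ ω s(w, u) = true := by
      ext u
      simp only [Finset.mem_inter, mem_nb_singleton, gr_adj, Finset.mem_filter, hW,
        Finset.mem_erase, Finset.mem_univ, and_true]
      constructor
      · rintro ⟨⟨a, b⟩, c, d⟩
        exact ⟨⟨c.symm, a.symm⟩, b, d⟩
      · rintro ⟨⟨a, b⟩, c, d⟩
        exact ⟨⟨b.symm, c⟩, a.symm, d⟩
    rw [h2] at hv
    refine le_trans ?_ hv.le
    have : ((W (v, w)).card : ℝ) ≤ Fintype.card V := by
      exact_mod_cast Finset.card_le_univ _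
    gcongr
  refine le_trans (Pr_mono h0 h1 e1) ?_
  refine le_trans (Pr_exists_le h0 h1 _ _) ?_
  have e2 : ∀ x ∈ (Finset.univ.filter fun x : V × V => x.1 ≠ x.2),
      Pr p (fun ω : Sym2 V → Bool => (1 + η) * (((W x).card : ℝ) * p ^ 2) ≤
        (((W x).filter fun u => ω s(x.1, u) = true ∧ ω s(x.2, u) = true).card : ℝ)) ≤
      Real.exp (-(η ^ 2 * (((Fintype.card V : ℝ) - 2) * p ^ 2) / 4)) := by
    rintro ⟨v, w⟩ hx
    simp only [Finset.mem_filter, Finset.mem_univ, true_and] at hx
    have hnotmem : ∀ u ∈ W (v, w), u ≠ v ∧ u ≠ w := by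
      intro u hu
      simp only [hW, Finset.mem_erase, Finset.mem_univ, and_true] at hu
      exact ⟨hu.2, hu.1⟩
    have := chernoff_upper (p := p) (q := p ^ 2) (l := η) h0 h1 (W (v, w))
      (fun u (ω : Sym2 V → Bool) => ω s(v, u) = true ∧ ω s(w, u) = true)
      (fun u => {s(v, u), s(w, u)})
      (fun u _ ω ω' h => by simp only [h s(v, u) (by simp), h s(w, u) (by simp)])
      (fun u hu u' _ h => pair_disjoint h (hnotmem u hu).1 (hnotmem u hu).2)
      (by positivity)
      (fun u hu => by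
        obtain ⟨a1, a2⟩ := hnotmem u hu
        have : Pr p (fun ω : Sym2 V → Bool => ω s(v, u) = true ∧ ω s(w, u) = true) = p * p := by
          rw [Pr_and (D := {s(v, u)}) (D' := {s(w, u)}), Pr_coord, Pr_coord]
          · rw [Finset.disjoint_singleton]
            intro h
            rw [Sym2.eq_iff] at h
            rcases h with ⟨c1, _⟩ | ⟨c1, c2⟩
            · exact hx c1
            · exact a2 c2
          · intro ω ω' h
            simp only [h _ (Finset.mem_singleton_self _)]
          · intro ω ω' h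
            simp only [h _ (Finset.mem_singleton_self _)]
        rw [this, sq])
      hη0 hη1
    have hc : ((W (v, w)).card : ℝ) = (Fintype.card V : ℝ) - 2 := by
      have hcard : 2 ≤ Fintype.card V := by
        have : ({v, w} : Finset V).card ≤ Fintype.card V := Finset.card_le_univ _
        rw [Finset.card_pair hx] at this
        exact this
      rw [hW]
      simp only
      rw [Finset.card_erase_of_mem, Finset.card_erase_of_mem (Finset.mem_univ v),
        Finset.card_univ]
      · have : Fintype.card V - 1 - 1 = Fintype.card V - 2 := by omega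
        rw [this, Nat.cast_sub hcard]
        norm_num
      · rw [Finset.mem_erase]
        exact ⟨Ne.symm hx, Finset.mem_univ _⟩
    rw [hc] at this ⊢
    convert this using 6
    all_goals (ext u; simp only [Finset.mem_filter])
  refine le_trans (Finset.sum_le_sum e2) ?_
  rw [Finset.sum_const, nsmul_eq_mul]
  have : ((Finset.univ.filter fun x : V × V => x.1 ≠ x.2).card : ℝ) ≤ (Fintype.card V : ℝ) ^ 2 := by
    have h3 : (Finset.univ.filter fun x : V × V => x.1 ≠ x.2).card ≤ Fintype.card (V × V) :=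
      Finset.card_le_univ _
    rw [Fintype.card_prod] at h3
    rw [sq]
    exact_mod_cast h3
  gcongr

open Classical in
theorem prob_exp_one {p η : ℝ} (h0 : 0 ≤ p) (h1 : p ≤ 1 / 2) (hη0 : 0 ≤ η) (hη1 : η ≤ 1)
    (hNp : 2 ≤ (Fintype.card V : ℝ) * p) (B : Finset V) (hB : (B.card : ℝ) * p ≤ 1) :
    Pr p (fun ω : Sym2 V → Bool => ¬ ((1 - η - B.card * p) * ((Fintype.card V : ℝ) * p) * B.card ≤
      ((nb (gr ω) B).card : ℝ))) ≤
      Real.exp (-(η ^ 2 * ((Fintype.card V : ℝ) * p) / 8)) ^ B.card := by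
  set N := (Fintype.card V : ℝ) with hN
  set b := (B.card : ℝ) with hb
  set q := b * p - (b * p) ^ 2 / 2 with hq
  have hb0 : 0 ≤ b := by positivity
  have hbp0 : 0 ≤ b * p := by positivity
  have hq0 : 0 ≤ q := by rw [hq]; nlinarith
  have hqhalf : b * p / 2 ≤ q := by rw [hq]; nlinarith
  have hcompl : ((Bᶜ).card : ℝ) = N - b := by
    rw [Finset.card_compl, Nat.cast_sub (Finset.card_le_univ _)]
  have hN0 : 0 ≤ N := by positivity
  have hbN : b ≤ N / 2 := by
    -- b * p ≤ 1 ≤ N p / 2
    by_contra hcon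
    push Not at hcon
    have hp : 0 < p := by
      by_contra hp
      have : p = 0 := by linarith
      rw [this] at hNp
      linarith
    nlinarith
  have hch := chernoff_lower (p := p) (q := q) (l := η) h0 (by linarith) (Bᶜ)
    (fun v => hit v B) (fun v => star v B) (fun v _ => hit_depOn v B)
    (fun v hv v' hv' hne => star_disjoint (by simpa using hv) (Or.inl hne)) hq0
    (fun v hv => by
      rw [Pr_hit p (by simpa using hv)]
      have g1 := one_sub_pow_le_exp (p := p) (by linarith) B.card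
      have g2 := exp_neg_le_quad (a := p * b) (by positivity)
      rw [← hb] at g1
      rw [hq]
      have g3 : (p * b) ^ 2 = (b * p) ^ 2 := by ring
      have g4 : p * b = b * p := by ring
      rw [g3, g4] at g2
      rw [g4] at g1
      linarith) hη0
  have hmono : Pr p (fun ω : Sym2 V → Bool => ¬ ((1 - η - b * p) * (N * p) * b ≤
      ((nb (gr ω) B).card : ℝ))) ≤
      Pr p (fun ω => (((Bᶜ).filter fun i => hit i B ω).card : ℝ) ≤ (1 - η) * (((Bᶜ).card : ℝ) * q)) := by
    apply Pr_mono h0 (by linarith)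
    intro ω h
    push Not at h
    have g1 : (((Bᶜ).filter fun i => hit i B ω).card : ℝ) ≤ ((nb (gr ω) B).card : ℝ) := by
      have : (Bᶜ).filter (fun i => hit i B ω) ⊆ nb (gr ω) B := by
        intro v hv
        rw [Finset.mem_filter, Finset.mem_compl] at hv
        exact (hit_iff_mem_nb hv.1 ω).1 hv.2
      exact_mod_cast Finset.card_le_card this
    refine le_trans g1 (le_trans h.le ?_)
    rw [hcompl]
    -- (1 - η - b p) N p b ≤ (1 - η) (N - b) q
    have g2 : (N - b) * q ≥ N * (b * p) * (1 - b * p) := by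
      have g3 : q = b * p * (1 - b * p / 2) := by rw [hq]; ring
      rw [g3]
      have g4 : N - b ≥ N * (1 - b * p / 2) := by nlinarith
      have g5 : 0 ≤ b * p * (1 - b * p / 2) := by rw [← g3]; exact hq0
      calc (N - b) * (b * p * (1 - b * p / 2)) ≥ (N * (1 - b * p / 2)) * (b * p * (1 - b * p / 2)) := by
            gcongr
        _ = N * (b * p) * ((1 - b * p / 2) * (1 - b * p / 2)) := by ring
        _ ≥ N * (b * p) * (1 - b * p) := by
            have : 0 ≤ N * (b * p) := by positivity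
            apply mul_le_mul_of_nonneg_left _ this
            nlinarith [sq_nonneg (b * p)]
    have g6 : (1 - η) * ((N - b) * q) ≥ (1 - η) * (N * (b * p) * (1 - b * p)) :=
      mul_le_mul_of_nonneg_left g2 (by linarith)
    have g7 : 0 ≤ N * (b * p) * (η * (b * p)) := by positivity
    nlinarith
  refine le_trans hmono (le_trans hch ?_)
  rw [← Real.exp_nat_mul, ← hb]
  apply Real.exp_le_exp.2
  rw [hcompl]
  have g8 : N * (b * p) / 4 ≤ (N - b) * q := by
    calc N * (b * p) / 4 = (N / 2) * (b * p / 2) := by ring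
      _ ≤ (N - b) * q := by
          apply mul_le_mul _ hqhalf (by positivity) (by linarith)
          linarith
  have g9 : η ^ 2 * (N * (b * p) / 4) ≤ η ^ 2 * ((N - b) * q) := by gcongr
  nlinarith

theorem sum_pow_card (x : ℝ) : ∑ B : Finset V, x ^ B.card = (1 + x) ^ Fintype.card V := by
  have := Finset.sum_pow_mul_eq_add_pow x 1 (Finset.univ : Finset V)
  simp only [one_pow, mul_one, Finset.powerset_univ, Finset.card_univ] at this
  rw [this, add_comm]

theorem prob_expProp {p η : ℝ} (h0 : 0 ≤ p) (h1 : p ≤ 1 / 2) (hη0 : 0 ≤ η) (hη1 : η ≤ 1)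
    (hNp : 2 ≤ (Fintype.card V : ℝ) * p)
    (hsmall : (Fintype.card V : ℝ) * Real.exp (-(η ^ 2 * ((Fintype.card V : ℝ) * p) / 8)) ≤ 1) :
    Pr p (fun ω : Sym2 V → Bool => ¬ ExpProp (gr ω) p η) ≤
      2 * ((Fintype.card V : ℝ) * Real.exp (-(η ^ 2 * ((Fintype.card V : ℝ) * p) / 8))) := by
  classical
  set x := Real.exp (-(η ^ 2 * ((Fintype.card V : ℝ) * p) / 8)) with hx
  have hx0 : 0 ≤ x := (Real.exp_pos _).le
  have e1 : ∀ ω : Sym2 V → Bool, ¬ ExpProp (gr ω) p η → ∃ B ∈
      (Finset.univ.filter fun B : Finset V => B ≠ ∅ ∧ (B.card : ℝ) * p ≤ 1),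
      ¬ ((1 - η - B.card * p) * ((Fintype.card V : ℝ) * p) * B.card ≤
      ((nb (gr ω) B).card : ℝ)) := by
    intro ω h
    unfold ExpProp at h
    push Not at h
    obtain ⟨B, hB, hB2⟩ := h
    refine ⟨B, ?_, not_le.2 hB2⟩
    rw [Finset.mem_filter]
    refine ⟨Finset.mem_univ _, ?_, hB⟩
    rintro rfl
    simp at hB2
    have : (0:ℝ) ≤ ((nb (gr ω) ∅).card : ℝ) := by positivity
    linarith
  refine le_trans (Pr_mono h0 (by linarith) e1) ?_
  refine le_trans (Pr_exists_le h0 (by linarith) _ _) ?_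
  have e2 : ∀ B ∈ (Finset.univ.filter fun B : Finset V => B ≠ ∅ ∧ (B.card : ℝ) * p ≤ 1),
      Pr p (fun ω : Sym2 V → Bool => ¬ ((1 - η - B.card * p) * ((Fintype.card V : ℝ) * p) * B.card ≤
      ((nb (gr ω) B).card : ℝ))) ≤ x ^ B.card := by
    intro B hB
    rw [Finset.mem_filter] at hB
    exact prob_exp_one h0 h1 hη0 hη1 hNp B hB.2.2
  refine le_trans (Finset.sum_le_sum e2) ?_
  have e3 : ∑ B ∈ (Finset.univ.filter fun B : Finset V => B ≠ ∅ ∧ (B.card : ℝ) * p ≤ 1),
      x ^ B.card ≤ ∑ B ∈ (Finset.univ.erase (∅ : Finset V)), x ^ B.card := by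
    apply Finset.sum_le_sum_of_subset_of_nonneg
    · intro B hB
      rw [Finset.mem_filter] at hB
      rw [Finset.mem_erase]
      exact ⟨hB.2.1, Finset.mem_univ _⟩
    · intro B _ _
      positivity
  refine le_trans e3 ?_
  have e4 : ∑ B ∈ (Finset.univ.erase (∅ : Finset V)), x ^ B.card =
      (1 + x) ^ Fintype.card V - 1 := by
    rw [← sum_pow_card, ← Finset.add_sum_erase Finset.univ _ (Finset.mem_univ (∅ : Finset V))]
    simp
  rw [e4]
  have e5 : (1 + x) ^ Fintype.card V ≤ Real.exp ((Fintype.card V : ℝ) * x) := by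
    rw [Real.exp_nat_mul]
    gcongr
    linarith [Real.add_one_le_exp x]
  have e6 := exp_le_quad (a := (Fintype.card V : ℝ) * x) (by positivity) hsmall
  have e7 : ((Fintype.card V : ℝ) * x) ^ 2 ≤ (Fintype.card V : ℝ) * x := by
    have : 0 ≤ (Fintype.card V : ℝ) * x := by positivity
    nlinarith
  linarith

end Pool.Agent.MPd11e37lc
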