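import Pool.Agent.Lib.MP_d11e37_lc.Props
import Pool.Agent.Lib.MP_d11e37_lc.Extract

/-!
Failure probabilities of the pseudo-random properties, part two.
-/

set_option autoImplicit false
set_option linter.unusedSectionVars false

namespace Pool.Agent.MPd11e37lc

open Finset

variable {V : Type} [Fintype V] [DecidableEq V]

/-- The restricted neighbourhood of `a` has an atypical size. -/
def dev (p : ℝ) (B : Finset V) (a : V) (ω : Sym2 V → Bool) : Prop :=
  ¬ |((nb (gr ω) {a} ∩ B).card : ℝ) - B.card * p| ≤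
      (B.card * p) * ((B.card : ℝ) * p) ^ (-(1/4) : ℝ)

open Classical in
theorem nb_inter_eq {B : Finset V} {a : V} (ha : a ∉ B) (ω : Sym2 V → Bool) :
    nb (gr ω) {a} ∩ B = B.filter fun u => ω s(u, a) = true := by
  ext u
  rw [Finset.mem_inter, mem_nb_singleton, gr_adj, Finset.mem_filter, Sym2.eq_swap]
  constructor
  · rintro ⟨⟨_, h2⟩, h3⟩
    exact ⟨h3, h2⟩
  · rintro ⟨h1, h2⟩
    exact ⟨⟨fun h => ha (h ▸ h1), h2⟩, h1⟩

theorem dev_depOn {p : ℝ} {B : Finset V} {a : V} (ha : a ∉ B) : DepOn (dev p B a) (star a B) := by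
  classical
  intro ω ω' h
  unfold dev
  rw [nb_inter_eq ha, nb_inter_eq ha]
  have : (B.filter fun u => ω s(u, a) = true) = B.filter fun u => ω' s(u, a) = true := by
    apply Finset.filter_congr
    intro u hu
    rw [h _ (Finset.mem_image.2 ⟨u, hu, rfl⟩)]
  rw [this]

theorem prob_dev {p : ℝ} (h0 : 0 ≤ p) (h1 : p ≤ 1) {B : Finset V} {a : V} (ha : a ∉ B)
    (hB : 1 ≤ (B.card : ℝ) * p) :
    Pr p (dev p B a) ≤ 2 * Real.exp (-(Real.sqrt ((B.card : ℝ) * p) / 4)) := by
  classical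
  set μ := (B.card : ℝ) * p with hμ
  set r := μ ^ (-(1/4) : ℝ) with hr
  have hμ0 : 0 < μ := by linarith
  have hr0 : 0 ≤ r := by positivity
  have hr1 : r ≤ 1 := Real.rpow_le_one_of_one_le_of_nonpos hB (by norm_num)
  have hr2 : r ^ 2 * μ = Real.sqrt μ := by
    rw [hr, ← Real.rpow_natCast, ← Real.rpow_mul hμ0.le, Real.sqrt_eq_rpow]
    nth_rewrite 2 [← Real.rpow_one μ]
    rw [← Real.rpow_add hμ0]
    norm_num
  have hdisj : ∀ u ∈ B, ∀ u' ∈ B, u ≠ u' →
      Disjoint ({s(u, a)} : Finset (Sym2 V)) {s(u', a)} := by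
    intro u hu u' hu' hne
    rw [Finset.disjoint_singleton]
    intro h
    rw [Sym2.eq_iff] at h
    rcases h with ⟨h1, _⟩ | ⟨h1, _⟩
    · exact hne h1
    · exact ha (h1 ▸ hu)
  have c1 := chernoff_upper (p := p) (q := p) (l := r) h0 h1 B
      (fun u (ω : Sym2 V → Bool) => ω s(u, a) = true) (fun u => {s(u, a)})
      (fun u _ ω ω' h => by simp only [h _ (Finset.mem_singleton_self _)])
      hdisj h0 (fun u _ => (Pr_coord p _).le) hr0 hr1
  have c2 := chernoff_lower (p := p) (q := p) (l := r) h0 h1 B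
      (fun u (ω : Sym2 V → Bool) => ω s(u, a) = true) (fun u => {s(u, a)})
      (fun u _ ω ω' h => by simp only [h _ (Finset.mem_singleton_self _)])
      hdisj h0 (fun u _ => (Pr_coord p _).ge) hr0
  rw [← hμ, hr2] at c1 c2
  have c2' : Real.exp (-(Real.sqrt μ / 2)) ≤ Real.exp (-(Real.sqrt μ / 4)) := by
    apply Real.exp_le_exp.2
    have := Real.sqrt_nonneg μ
    linarith
  have e1 : Pr p (dev p B a) ≤ Pr p (fun ω : Sym2 V → Bool =>
      (1 + r) * μ ≤ ((B.filter fun u => ω s(u, a) = true).card : ℝ) ∨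
      ((B.filter fun u => ω s(u, a) = true).card : ℝ) ≤ (1 - r) * μ) := by
    apply Pr_mono h0 h1
    intro ω h
    unfold dev at h
    rw [nb_inter_eq ha, abs_le, not_and_or] at h
    push Not at h
    rcases h with h | h
    · right
      rw [← hμ, ← hr] at h
      linarith
    · left
      rw [← hμ, ← hr] at h
      linarith
  refine le_trans e1 (le_trans (Pr_or_le h0 h1 _ _) ?_)
  have c1' : Pr p (fun ω : Sym2 V → Bool =>
      (1 + r) * μ ≤ ((B.filter fun u => ω s(u, a) = true).card : ℝ)) ≤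
      Real.exp (-(Real.sqrt μ / 4)) := by
    convert c1 using 6
    all_goals (ext u; simp only [Finset.mem_filter])
  have c2'' : Pr p (fun ω : Sym2 V → Bool =>
      ((B.filter fun u => ω s(u, a) = true).card : ℝ) ≤ (1 - r) * μ) ≤
      Real.exp (-(Real.sqrt μ / 2)) := by
    convert c2 using 6
    all_goals (ext u; simp only [Finset.mem_filter])
  linarith

theorem prob_resProp {p K₀ : ℝ} (h0 : 0 ≤ p) (h1 : p ≤ 1) (hK1 : 1 ≤ K₀)
    (hθ : 2 * Real.exp (-(Real.sqrt K₀ / 4)) ≤ Real.exp (-10)) :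
    Pr p (fun ω : Sym2 V → Bool => ¬ ResProp (gr ω) p K₀) ≤
      Real.exp (-((Fintype.card V : ℝ) / 2)) := by
  classical
  set T : Finset (Finset V × Finset V) := Finset.univ.filter fun x =>
    K₀ ≤ (x.1.card : ℝ) * p ∧ 3 * x.1.card ≤ 2 * Fintype.card V ∧
      10 * x.2.card ≤ Fintype.card V with hT
  have e1 : ∀ ω : Sym2 V → Bool, ¬ ResProp (gr ω) p K₀ → ∃ x ∈ T,
      ∀ a ∈ (x.1 ∪ x.2)ᶜ, dev p x.1 a ω := by
    intro ω h
    unfold ResProp at h
    push Not at h
    obtain ⟨B, F, hB1, hB2, hF, hall⟩ := h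
    refine ⟨(B, F), ?_, ?_⟩
    · rw [hT, Finset.mem_filter]
      exact ⟨Finset.mem_univ _, hB1, hB2, hF⟩
    · intro a ha
      rw [Finset.mem_compl, Finset.mem_union, not_or] at ha
      exact not_le.2 (hall a ha.2)
  refine le_trans (Pr_mono h0 h1 e1) ?_
  refine le_trans (Pr_exists_le h0 h1 _ _) ?_
  have e2 : ∀ x ∈ T, Pr p (fun ω : Sym2 V → Bool => ∀ a ∈ (x.1 ∪ x.2)ᶜ, dev p x.1 a ω) ≤
      Real.exp (-(7 / 3 * (Fintype.card V : ℝ))) := by
    rintro ⟨B, F⟩ hx
    rw [hT, Finset.mem_filter] at hx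
    obtain ⟨-, hB1, hB2, hF⟩ := hx
    simp only at hB1 hB2 hF ⊢
    rw [Pr_forall _ _ (fun a => star a B)]
    · have h3 : ∀ a ∈ (B ∪ F)ᶜ, Pr p (dev p B a) ≤ Real.exp (-10) := by
        intro a ha
        rw [Finset.mem_compl, Finset.mem_union, not_or] at ha
        refine le_trans (prob_dev h0 h1 ha.1 (by linarith)) (le_trans ?_ hθ)
        gcongr
      calc ∏ a ∈ (B ∪ F)ᶜ, Pr p (dev p B a) ≤ ∏ a ∈ (B ∪ F)ᶜ, Real.exp (-10) :=
            Finset.prod_le_prod (fun a _ => Pr_nonneg h0 h1 _) h3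
        _ = Real.exp (-10) ^ ((B ∪ F)ᶜ).card := by rw [Finset.prod_const]
        _ ≤ Real.exp (-(7 / 3 * (Fintype.card V : ℝ))) := by
            rw [← Real.exp_nat_mul]
            apply Real.exp_le_exp.2
            have h4 : Fintype.card V ≤ ((B ∪ F)ᶜ).card + B.card + F.card := by
              rw [Finset.card_compl]
              have := Finset.card_union_le B F
              omega
            have h5 : 7 * Fintype.card V ≤ 30 * ((B ∪ F)ᶜ).card := by omega
            have h6 : (7 : ℝ) * Fintype.card V ≤ 30 * ((B ∪ F)ᶜ).card := by exact_mod_cast h5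
            linarith
    · intro a ha
      rw [Finset.mem_compl, Finset.mem_union, not_or] at ha
      exact dev_depOn ha.1
    · intro a ha a' ha' hne
      rw [Finset.mem_compl, Finset.mem_union, not_or] at ha
      exact star_disjoint ha.1 (Or.inl hne)
  refine le_trans (Finset.sum_le_sum e2) ?_
  rw [Finset.sum_const, nsmul_eq_mul]
  have h7 : (T.card : ℝ) ≤ Real.exp (1.4 * (Fintype.card V : ℝ)) := by
    have h8 : T.card ≤ Fintype.card (Finset V × Finset V) := Finset.card_le_univ _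
    rw [Fintype.card_prod, Fintype.card_finset] at h8
    have h9 : (T.card : ℝ) ≤ 2 ^ Fintype.card V * 2 ^ Fintype.card V := by exact_mod_cast h8
    have h10 : (2:ℝ) ≤ Real.exp 0.7 := by
      have h5 := Real.log_two_lt_d9
      have h6 : Real.log 2 ≤ 0.7 := by linarith
      calc (2:ℝ) = Real.exp (Real.log 2) := (Real.exp_log (by norm_num)).symm
        _ ≤ Real.exp 0.7 := Real.exp_le_exp.2 h6
    calc (T.card : ℝ) ≤ 2 ^ Fintype.card V * 2 ^ Fintype.card V := h9
      _ ≤ Real.exp 0.7 ^ Fintype.card V * Real.exp 0.7 ^ Fintype.card V := by gcongr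
      _ = Real.exp (1.4 * (Fintype.card V : ℝ)) := by
          rw [← Real.exp_nat_mul, ← Real.exp_add]
          congr 1
          ring
  calc (T.card : ℝ) * Real.exp (-(7 / 3 * (Fintype.card V : ℝ)))
      ≤ Real.exp (1.4 * (Fintype.card V : ℝ)) * Real.exp (-(7 / 3 * (Fintype.card V : ℝ))) := by
        gcongr
    _ = Real.exp (1.4 * (Fintype.card V : ℝ) + -(7 / 3 * (Fintype.card V : ℝ))) := by
        rw [Real.exp_add]
    _ ≤ Real.exp (-((Fintype.card V : ℝ) / 2)) := by
        apply Real.exp_le_exp.2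
        have : (0:ℝ) ≤ Fintype.card V := by positivity
        linarith

/-- `x` and `y` agree on whether they are joined to `S`. -/
def mat (x y : V) (S : Finset V) (ω : Sym2 V → Bool) : Prop := hit x S ω ↔ hit y S ω

theorem mat_depOn (x y : V) (S : Finset V) : DepOn (mat x y S) (star x S ∪ star y S) := by
  intro ω ω' h
  unfold mat
  rw [hit_depOn x S ω ω' (fun e he => h e (Finset.mem_union_left _ he)),
    hit_depOn y S ω ω' (fun e he => h e (Finset.mem_union_right _ he))]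

theorem prob_mat {p : ℝ} {x y : V} {S : Finset V} (hx : x ∉ S) (hy : y ∉ S) (hxy : x ≠ y) :
    Pr p (mat x y S) = (1 - (1 - p) ^ S.card) ^ 2 + ((1 - p) ^ S.card) ^ 2 := by
  unfold mat
  rw [Pr_iff (star_disjoint hx (Or.inl hxy)) (hit_depOn x S) (hit_depOn y S), Pr_hit p hx,
    Pr_hit p hy]
  ring

theorem prob_mat_le {p c₁ C₂ : ℝ} (h0 : 0 ≤ p) (h1 : p ≤ 1 / 2) (hc₁ : 0 ≤ c₁) {x y : V}
    {S : Finset V} (hx : x ∉ S) (hy : y ∉ S) (hxy : x ≠ y) (hS1 : c₁ ≤ (S.card : ℝ) * p)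
    (hS2 : (S.card : ℝ) * p ≤ C₂) :
    Pr p (mat x y S) ≤ Real.exp (-((1 - Real.exp (-c₁)) * Real.exp (-(2 * C₂)))) := by
  rw [prob_mat hx hy hxy]
  set a := (1 - p) ^ S.card with ha
  have h2 : a ≤ Real.exp (-c₁) := by
    refine le_trans (one_sub_pow_le_exp (by linarith) _) ?_
    apply Real.exp_le_exp.2
    linarith [mul_comm p (S.card : ℝ)]
  have h3 : Real.exp (-(2 * C₂)) ≤ a := by
    refine le_trans ?_ (exp_le_one_sub_pow h0 h1 _)
    apply Real.exp_le_exp.2
    linarith [mul_comm p (S.card : ℝ)]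
  have h4 : 0 ≤ 1 - Real.exp (-c₁) := by
    have : Real.exp (-c₁) ≤ 1 := Real.exp_le_one_iff.2 (by linarith)
    linarith
  have h5 : 0 < Real.exp (-(2 * C₂)) := Real.exp_pos _
  have h6 : (1 - Real.exp (-c₁)) * Real.exp (-(2 * C₂)) ≤ (1 - a) * a := by
    apply mul_le_mul (by linarith) h3 h5.le (by linarith)
  have h7 := Real.add_one_le_exp (-((1 - Real.exp (-c₁)) * Real.exp (-(2 * C₂))))
  have h8 : 0 ≤ (1 - Real.exp (-c₁)) * Real.exp (-(2 * C₂)) := mul_nonneg h4 h5.le
  nlinarith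

theorem prob_mat_single {p : ℝ} (h0 : 0 ≤ p) (h1 : p ≤ 1 / 2) {x y v : V}
    (hx : x ≠ v) (hy : y ≠ v) (hxy : x ≠ y) :
    Pr p (mat x y {v}) ≤ Real.exp (-p) := by
  rw [prob_mat (by simpa using hx) (by simpa using hy) hxy]
  simp only [Finset.card_singleton, pow_one]
  have := Real.add_one_le_exp (-p)
  nlinarith

theorem prob_twins {ι : Type} [DecidableEq ι] {p m : ℝ} (h0 : 0 ≤ p) (h1 : p ≤ 1) {s : ℕ}
    {g : Fin s ⊕ Fin s → V} (hg : Function.Injective g) (J : Finset ι) (S : ι → Finset V)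
    (hS : ∀ i ∈ J, ∀ j ∈ J, i ≠ j → Disjoint (S i) (S j)) (hout : ∀ a, ∀ j ∈ J, g a ∉ S j)
    (hm : ∀ i, ∀ j ∈ J, Pr p (mat (g (Sum.inl i)) (g (Sum.inr i)) (S j)) ≤ m) :
    Pr p (fun ω => ∀ z ∈ (Finset.univ : Finset (Fin s)) ×ˢ J,
      mat (g (Sum.inl z.1)) (g (Sum.inr z.1)) (S z.2) ω) ≤ m ^ (s * J.card) := by
  classical
  rw [Pr_forall _ (fun (z : Fin s × ι) => mat (g (Sum.inl z.1)) (g (Sum.inr z.1)) (S z.2))
    (fun z => star (g (Sum.inl z.1)) (S z.2) ∪ star (g (Sum.inr z.1)) (S z.2))]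
  · calc ∏ z ∈ (Finset.univ : Finset (Fin s)) ×ˢ J,
          Pr p (mat (g (Sum.inl z.1)) (g (Sum.inr z.1)) (S z.2))
        ≤ ∏ z ∈ (Finset.univ : Finset (Fin s)) ×ˢ J, m := by
          apply Finset.prod_le_prod
          · intro z _
            exact Pr_nonneg h0 h1 _
          · intro z hz
            rw [Finset.mem_product] at hz
            exact hm z.1 z.2 hz.2
      _ = m ^ (s * J.card) := by
          rw [Finset.prod_const, Finset.card_product, Finset.card_univ, Fintype.card_fin]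
  · intro z _
    exact mat_depOn _ _ _
  · intro z hz z' hz' hne
    rw [Finset.mem_product] at hz hz'
    have key : ∀ a a' : Fin s ⊕ Fin s, (a = Sum.inl z.1 ∨ a = Sum.inr z.1) →
        (a' = Sum.inl z'.1 ∨ a' = Sum.inr z'.1) →
        Disjoint (star (g a) (S z.2)) (star (g a') (S z'.2)) := by
      intro a a' ha ha'
      apply star_disjoint (hout a _ hz'.2)
      by_cases h2 : z.2 = z'.2
      · left
        intro h
        have := hg h
        have h1 : z.1 ≠ z'.1 := fun h1 => hne (Prod.ext h1 h2)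
        rcases ha with rfl | rfl <;> rcases ha' with rfl | rfl
        · exact h1 (Sum.inl.inj this)
        · exact absurd this (by simp)
        · exact absurd this (by simp)
        · exact h1 (Sum.inr.inj this)
      · right
        exact hS _ hz.2 _ hz'.2 h2
    rw [Finset.disjoint_union_left, Finset.disjoint_union_right, Finset.disjoint_union_right]
    exact ⟨⟨key _ _ (Or.inl rfl) (Or.inl rfl), key _ _ (Or.inl rfl) (Or.inr rfl)⟩,
      ⟨key _ _ (Or.inr rfl) (Or.inl rfl), key _ _ (Or.inr rfl) (Or.inr rfl)⟩⟩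

end Pool.Agent.MPd11e37lc
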