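import Pool.Agent.Lib.MP_d11e37_lc.Prob
import Pool.Agent.Lib.MP_d11e37_lc.Game

/-!
The random graph as a product measure on `Sym2 V → Bool`.
-/

set_option autoImplicit false
set_option linter.unusedSectionVars false

namespace Pool.Agent.MPd11e37lc

open Finset

section coord

variable {I : Type} [Fintype I] [DecidableEq I]

theorem Ex_prod_coord (p : ℝ) (g : I → Bool → ℝ) :
    Ex p (fun ω => ∏ e, g e (ω e)) = ∏ e, (p * g e true + (1 - p) * g e false) := by
  unfold Ex wt
  have := Finset.prod_univ_sum (fun _ : I => (Finset.univ : Finset Bool))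
    (fun e b => (if b then p else 1 - p) * g e b)
  rw [Fintype.piFinset_univ] at this
  simp_rw [← Finset.prod_mul_distrib]
  rw [← this]
  apply Finset.prod_congr rfl
  intro e _
  simp

theorem Pr_coord (p : ℝ) (e : I) : Pr p (fun ω : I → Bool => ω e = true) = p := by
  classical
  have h := Ex_prod_coord p (fun e' b => if e' = e then (if b then (1:ℝ) else 0) else 1)
  have h1 : ∀ ω : I → Bool, ∏ e', (if e' = e then (if ω e' then (1:ℝ) else 0) else 1) =
      if ω e = true then 1 else 0 := by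
    intro ω
    rw [Finset.prod_ite_eq' Finset.univ e]
    simp
  have h2 : ∏ e', (p * (if e' = e then (if true then (1:ℝ) else 0) else 1) +
      (1 - p) * (if e' = e then (if false then (1:ℝ) else 0) else 1)) = p := by
    have : ∀ e', (p * (if e' = e then (if true then (1:ℝ) else 0) else 1) +
      (1 - p) * (if e' = e then (if false then (1:ℝ) else 0) else 1)) = if e' = e then p else 1 := by
      intro e'
      by_cases he : e' = e <;> simp [he]
    rw [Finset.prod_congr rfl (fun e' _ => this e'), Finset.prod_ite_eq' Finset.univ e]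
    simp
  unfold Pr
  refine Eq.trans ?_ (h.trans h2)
  congr 1
  funext ω
  rw [h1]
  by_cases hω : ω e = true <;> simp [hω]

theorem Pr_coord_iff (p : ℝ) (e : I) (Q : Prop) [Decidable Q] :
    Pr p (fun ω : I → Bool => (ω e = true ↔ Q)) = if Q then p else 1 - p := by
  by_cases hQ : Q
  · simp only [hQ, iff_true, if_true]
    exact Pr_coord p e
  · simp only [hQ, iff_false, if_false]
    rw [Pr_not, Pr_coord]

theorem Pr_and {p : ℝ} {D D' : Finset I} (hD : Disjoint D D') {A B : (I → Bool) → Prop}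
    (hA : DepOn A D) (hB : DepOn B D') :
    Pr p (fun ω => A ω ∧ B ω) = Pr p A * Pr p B := by
  classical
  unfold Pr
  rw [← Ex_mul hD]
  · congr 1
    funext ω
    by_cases h1 : A ω <;> by_cases h2 : B ω <;> simp [h1, h2]
  · intro ω ω' h
    simp only [hA ω ω' h]
  · intro ω ω' h
    simp only [hB ω ω' h]

theorem DepOn.not {D : Finset I} {A : (I → Bool) → Prop} (hA : DepOn A D) :
    DepOn (fun ω => ¬ A ω) D := by
  intro ω ω' h
  simp only [hA ω ω' h]

theorem Pr_iff {p : ℝ} {D D' : Finset I} (hD : Disjoint D D') {A B : (I → Bool) → Prop}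
    (hA : DepOn A D) (hB : DepOn B D') :
    Pr p (fun ω => (A ω ↔ B ω)) = Pr p A * Pr p B + (1 - Pr p A) * (1 - Pr p B) := by
  classical
  have h1 : Pr p (fun ω => (A ω ↔ B ω)) =
      Pr p (fun ω => A ω ∧ B ω) + Pr p (fun ω => ¬ A ω ∧ ¬ B ω) := by
    unfold Pr
    rw [← Ex_add]
    congr 1
    funext ω
    by_cases h1 : A ω <;> by_cases h2 : B ω <;> simp [h1, h2]
  rw [h1, Pr_and hD hA hB, Pr_and hD hA.not hB.not, Pr_not, Pr_not]

end coord

variable {V : Type} [Fintype V] [DecidableEq V]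

/-- The graph of a configuration. -/
def gr (ω : Sym2 V → Bool) : SimpleGraph V where
  Adj x y := x ≠ y ∧ ω s(x, y) = true
  symm := by
    constructor
    intro x y h
    exact ⟨h.1.symm, by rw [Sym2.eq_swap]; exact h.2⟩
  loopless := by
    constructor
    intro x h
    exact h.1 rfl

theorem gr_adj {ω : Sym2 V → Bool} {x y : V} : (gr ω).Adj x y ↔ x ≠ y ∧ ω s(x, y) = true := Iff.rfl

theorem gr_eq_iff (ω : Sym2 V → Bool) (G : SimpleGraph V) :
    gr ω = G ↔ ∀ e ∈ (Finset.univ.filter fun e : Sym2 V => ¬ e.IsDiag), (ω e = true ↔ e ∈ G.edgeSet) := by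
  constructor
  · rintro rfl e he
    rw [Finset.mem_filter] at he
    induction e using Sym2.inductionOn with
    | hf x y =>
      simp only [Sym2.mk_isDiag_iff, Finset.mem_univ, true_and] at he
      rw [SimpleGraph.mem_edgeSet, gr_adj]
      exact ⟨fun h => ⟨he, h⟩, fun h => h.2⟩
  · intro h
    ext x y
    rw [gr_adj]
    constructor
    · rintro ⟨hne, hω⟩
      have := (h s(x, y) (by simp [hne])).1 hω
      exact this
    · intro hadj
      have hne := hadj.ne
      exact ⟨hne, (h s(x, y) (by simp [hne])).2 hadj⟩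

theorem Pr_gr_eq (n : ℕ) (p : ℝ) (G : SimpleGraph (Fin n)) :
    Pr p (fun ω : Sym2 (Fin n) → Bool => gr ω = G) =
      p ^ G.edgeSet.ncard * (1 - p) ^ (n.choose 2 - G.edgeSet.ncard) := by
  classical
  have h1 : (fun ω : Sym2 (Fin n) → Bool => gr ω = G) = fun ω =>
      ∀ e ∈ (Finset.univ.filter fun e : Sym2 (Fin n) => ¬ e.IsDiag), (ω e = true ↔ e ∈ G.edgeSet) := by
    funext ω
    exact propext (gr_eq_iff ω G)
  rw [h1, Pr_forall _ _ (fun e => {e})]
  · have h2 : ∀ e : Sym2 (Fin n), Pr p (fun ω : Sym2 (Fin n) → Bool => (ω e = true ↔ e ∈ G.edgeSet)) =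
        if e ∈ G.edgeSet then p else 1 - p := fun e => Pr_coord_iff p e _
    simp_rw [h2]
    rw [Finset.prod_ite, Finset.prod_const, Finset.prod_const, Finset.filter_filter,
      Finset.filter_filter]
    have h3 : (Finset.univ.filter fun e : Sym2 (Fin n) => ¬ e.IsDiag ∧ e ∈ G.edgeSet) =
        G.edgeFinset := by
      ext e
      simp only [Finset.mem_filter, Finset.mem_univ, true_and, SimpleGraph.mem_edgeFinset]
      exact ⟨fun h => h.2, fun h => ⟨G.not_isDiag_of_mem_edgeSet h, h⟩⟩
    have h4 : G.edgeSet.ncard = G.edgeFinset.card := by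
      rw [← SimpleGraph.coe_edgeFinset, Set.ncard_coe_finset]
    have h5 : (Finset.univ.filter fun e : Sym2 (Fin n) => ¬ e.IsDiag).card = n.choose 2 := by
      have := Sym2.card_subtype_not_diag (α := Fin n)
      rw [Fintype.card_fin] at this
      rw [← this, Fintype.card_subtype]
    have h6 : (Finset.univ.filter fun e : Sym2 (Fin n) => ¬ e.IsDiag ∧ e ∉ G.edgeSet).card =
        n.choose 2 - G.edgeSet.ncard := by
      have h7 := Finset.card_filter_add_card_filter_not
        (s := Finset.univ.filter fun e : Sym2 (Fin n) => ¬ e.IsDiag) (fun e => e ∈ G.edgeSet)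
      rw [Finset.filter_filter, Finset.filter_filter, h3, h5] at h7
      rw [h4]
      omega
    rw [h3, h6, h4]
  · intro e _ ω ω' h
    simp only [h e (by simp)]
  · intro e _ e' _ hne
    simpa using hne

open Classical in
theorem sum_graph_eq_Pr (n : ℕ) (p : ℝ) (Q : SimpleGraph (Fin n) → Prop) :
    ∑ G ∈ (Finset.univ.filter fun G : SimpleGraph (Fin n) => Q G),
      p ^ G.edgeSet.ncard * (1 - p) ^ (n.choose 2 - G.edgeSet.ncard) =
    Pr p (fun ω : Sym2 (Fin n) → Bool => Q (gr ω)) := by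
  simp_rw [← Pr_gr_eq]
  unfold Pr
  rw [← Ex_sum]
  congr 1
  funext ω
  rw [Finset.sum_ite_eq]
  simp

/-- Some element of `S` is joined to `x`. -/
def hit (x : V) (S : Finset V) (ω : Sym2 V → Bool) : Prop := ∃ u ∈ S, ω s(u, x) = true

/-- The pairs between `x` and `S`. -/
def star (x : V) (S : Finset V) : Finset (Sym2 V) := S.image fun u => s(u, x)

theorem hit_depOn (x : V) (S : Finset V) : DepOn (hit x S) (star x S) := by
  intro ω ω' h
  unfold hit
  apply propext
  apply exists_congr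
  intro u
  apply and_congr_right
  intro hu
  rw [h _ (Finset.mem_image.2 ⟨u, hu, rfl⟩)]

theorem hit_iff_mem_nb {x : V} {S : Finset V} (hx : x ∉ S) (ω : Sym2 V → Bool) :
    hit x S ω ↔ x ∈ nb (gr ω) S := by
  rw [mem_nb]
  unfold hit
  apply exists_congr
  intro u
  apply and_congr_right
  intro hu
  rw [gr_adj]
  exact ⟨fun h => ⟨fun h' => hx (h' ▸ hu), h⟩, fun h => h.2⟩

theorem star_disjoint {x x' : V} {S S' : Finset V} (hx : x ∉ S')
    (h : x ≠ x' ∨ Disjoint S S') : Disjoint (star x S) (star x' S') := by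
  rw [Finset.disjoint_left]
  intro e he he'
  unfold star at he he'
  rw [Finset.mem_image] at he he'
  obtain ⟨u, hu, rfl⟩ := he
  obtain ⟨u', hu', he'⟩ := he'
  rw [Sym2.eq_iff] at he'
  rcases he' with ⟨h1, h2⟩ | ⟨h1, h2⟩
  · rcases h with h | h
    · exact h h2.symm
    · rw [h1] at hu'
      exact Finset.disjoint_left.1 h hu hu'
  · rw [h1] at hu'
    exact hx hu'

theorem Pr_not_hit (p : ℝ) {x : V} {S : Finset V} (hx : x ∉ S) :
    Pr p (fun ω => ¬ hit x S ω) = (1 - p) ^ S.card := by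
  have h1 : (fun ω : Sym2 V → Bool => ¬ hit x S ω) = fun ω => ∀ u ∈ S, ¬ (ω s(u, x) = true) := by
    funext ω
    unfold hit
    push Not
    rfl
  rw [h1, Pr_forall _ _ (fun u => {s(u, x)})]
  · have : ∀ u ∈ S, Pr p (fun ω : Sym2 V → Bool => ¬ (ω s(u, x) = true)) = 1 - p := by
      intro u _
      rw [Pr_not, Pr_coord]
    rw [Finset.prod_congr rfl this, Finset.prod_const]
  · intro u _ ω ω' h
    simp only [h _ (Finset.mem_singleton_self _)]
  · intro u hu u' hu' hne
    rw [Finset.disjoint_singleton]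
    intro h
    rw [Sym2.eq_iff] at h
    rcases h with ⟨h1, _⟩ | ⟨h1, h2⟩
    · exact hne h1
    · exact hx (h1 ▸ hu)

theorem Pr_hit (p : ℝ) {x : V} {S : Finset V} (hx : x ∉ S) :
    Pr p (hit x S) = 1 - (1 - p) ^ S.card := by
  rw [← Pr_not_hit p hx, Pr_not]
  ring

theorem one_sub_pow_le_exp {p : ℝ} (hp1 : p ≤ 1) (b : ℕ) :
    (1 - p) ^ b ≤ Real.exp (-(p * b)) := by
  have h := Real.add_one_le_exp (-p)
  calc (1 - p) ^ b ≤ Real.exp (-p) ^ b := by
        apply pow_le_pow_left₀ (by linarith)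
        linarith
    _ = Real.exp (-(p * b)) := by rw [← Real.exp_nat_mul]; ring_nf

theorem exp_le_one_sub_pow {p : ℝ} (hp0 : 0 ≤ p) (hp1 : p ≤ 1 / 2) (b : ℕ) :
    Real.exp (-(2 * (p * b))) ≤ (1 - p) ^ b := by
  have h := exp_neg_le_quad (a := 2 * p) (by linarith)
  have h2 : Real.exp (-(2 * p)) ≤ 1 - p := by nlinarith
  calc Real.exp (-(2 * (p * b))) = Real.exp (-(2 * p)) ^ b := by
        rw [← Real.exp_nat_mul]; ring_nf
    _ ≤ (1 - p) ^ b := pow_le_pow_left₀ (Real.exp_pos _).le h2 b

end Pool.Agent.MPd11e37lc
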