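import Pool.Agent.Lib.MP_d11e37_lc.Family

/-!
Sparse regime: a family of disjoint definable sets of size about `1 / p`.
-/

set_option autoImplicit false
set_option linter.unusedSectionVars false

namespace Pool.Agent.MPd11e37lc

open Finset

variable {V : Type} [Fintype V] [DecidableEq V] {G : SimpleGraph V} {P : Finset V}

theorem fam_run {K p η κ : ℝ} {k : ℕ} (hN : 1 < (Fintype.card V : ℝ)) (hp0 : 0 < p)
    (hp1 : p < 1) (hNp : 1 ≤ (Fintype.card V : ℝ) * p) (hη : 0 ≤ η) (hκ0 : 0 ≤ κ)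
    (hdeg : DegLe G p η) (hexp : ExpProp G p η) {I i₀ : ℕ}
    (hrun : ∀ i, i₀ ≤ i → i < I → Msz (Fintype.card V) p i * p < 1)
    (hend : Msz (Fintype.card V) p I * p < K)
    (hκ : (2 * η + k * (8 * K / ((Fintype.card V : ℝ) * p))) * (128 * k) ≤ κ)
    (hIκ : I * κ ≤ 1 / 2) (hIη : (1 + η) ^ I ≤ 2)
    (hk : k * (8 * K / ((Fintype.card V : ℝ) * p)) ≤ 1)
    (hstart : ∃ S : Fin k → Finset V, (∀ j, Def G P i₀ (S j)) ∧
      (∀ i j, i ≠ j → Disjoint (S i) (S j)) ∧
      (∀ j, Msz (Fintype.card V) p i₀ / 8 ≤ ((S j).card : ℝ)) ∧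
      (∀ j, ((S j).card : ℝ) ≤ 4 * Msz (Fintype.card V) p i₀)) :
    ∀ i, i₀ ≤ i → i ≤ I → ∃ S : Fin k → Finset V, (∀ j, Def G P i (S j)) ∧
      (∀ i j, i ≠ j → Disjoint (S i) (S j)) ∧
      (∀ j, Msz (Fintype.card V) p i / 8 * (1 - ((i : ℝ) - i₀) * κ) ≤ ((S j).card : ℝ)) ∧
      (∀ j, ((S j).card : ℝ) ≤ 4 * Msz (Fintype.card V) p i * (1 + η) ^ (i - i₀)) := by
  have hM := Msz_bounds hN hp0 hp1 hNp
  -- monotonicity along the run
  have hmono : ∀ i, i₀ ≤ i → i ≤ I → Msz (Fintype.card V) p i ≤ Msz (Fintype.card V) p I := by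
    intro i hi0 hiI
    obtain ⟨e, rfl⟩ := Nat.exists_eq_add_of_le hiI
    clear hIκ hIη hend hκ hk
    induction e with
    | zero => simp
    | succ e ih =>
      have h1 := ih (fun j hj hj' => hrun j hj (by omega)) (by omega)
      refine le_trans h1 ?_
      rw [← add_assoc, Msz_succ_exp (hrun (i + e) (by omega) (by omega))]
      have := (hM (i + e)).1
      nlinarith
  intro i hi0
  induction i, hi0 using Nat.le_induction with
  | base =>
    intro _
    obtain ⟨S, h1, h2, h3, h4⟩ := hstart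
    exact ⟨S, h1, h2, by simpa using h3, by simpa using h4⟩
  | succ i hi0 ih =>
    intro hiI
    obtain ⟨S, h1, h2, h3, h4⟩ := ih (by omega)
    have hMi := (hM i).1
    set m := Msz (Fintype.card V) p i with hm
    set Np := (Fintype.card V : ℝ) * p with hNpdef
    have hNp0 : 0 < Np := by linarith
    have hms : Msz (Fintype.card V) p (i + 1) = m * Np := Msz_succ_exp (hrun i hi0 (by omega))
    have hmp : m * p ≤ K / Np := by
      rw [le_div_iff₀ hNp0]
      have := hmono (i + 1) (by omega) hiI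
      rw [hms] at this
      nlinarith
    have hpow : (1 + η) ^ (i - i₀) ≤ 2 := by
      refine le_trans ?_ hIη
      exact pow_le_pow_right₀ (by linarith) (by omega)
    have hpow0 : 0 < (1 + η) ^ (i - i₀) := by positivity
    have hii : ((i : ℝ) - i₀) * κ ≤ 1 / 2 := by
      refine le_trans ?_ hIκ
      have h5 : (i : ℝ) ≤ I := by exact_mod_cast (by omega : i ≤ I)
      have h6 : (0 : ℝ) ≤ i₀ := by positivity
      gcongr
      linarith
    have hA'8 : 4 * m * (1 + η) ^ (i - i₀) ≤ 8 * m := by nlinarith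
    have hA16 : m / 16 ≤ m / 8 * (1 - ((i : ℝ) - i₀) * κ) := by nlinarith
    have hc : k * (4 * m * (1 + η) ^ (i - i₀)) * p ≤ k * (8 * K / Np) := by
      calc k * (4 * m * (1 + η) ^ (i - i₀)) * p ≤ k * (8 * m) * p := by gcongr
        _ = k * (8 * (m * p)) := by ring
        _ ≤ k * (8 * (K / Np)) := by gcongr
        _ = k * (8 * K / Np) := by ring
    have hcκ : (2 * η + k * (4 * m * (1 + η) ^ (i - i₀)) * p) *
        (k * (4 * m * (1 + η) ^ (i - i₀))) ≤ κ * (m / 8 * (1 - ((i : ℝ) - i₀) * κ)) := by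
      calc (2 * η + k * (4 * m * (1 + η) ^ (i - i₀)) * p) * (k * (4 * m * (1 + η) ^ (i - i₀)))
          ≤ (2 * η + k * (8 * K / Np)) * (k * (8 * m)) := by
            have : 0 ≤ k * (8 * K / Np) := le_trans (by positivity) hc
            gcongr
        _ = ((2 * η + k * (8 * K / Np)) * (128 * k)) * (m / 16) := by ring
        _ ≤ κ * (m / 16) := by gcongr
        _ ≤ _ := by gcongr
    obtain ⟨S', g1, g2, g3, g4⟩ := fam_expand (A := m / 8 * (1 - ((i : ℝ) - i₀) * κ))
      (A' := 4 * m * (1 + η) ^ (i - i₀)) (κ := κ) hp0 hη hdeg hexp h1 h2 h3 h4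
      (le_trans hc hk) hcκ
    refine ⟨S', g1, g2, fun j => ?_, fun j => ?_⟩
    · refine le_trans ?_ (g3 j)
      rw [hms]
      push_cast
      have h7 : (1 - (((i : ℝ) + 1) - i₀) * κ) ≤ (1 - ((i : ℝ) - i₀) * κ) * (1 - κ) := by
        have h8 : 0 ≤ ((i : ℝ) - i₀) * κ * κ := by
          have h9 : (i₀ : ℝ) ≤ i := by exact_mod_cast hi0
          have h10 : 0 ≤ (i : ℝ) - i₀ := by linarith
          positivity
        nlinarith
      calc m * Np / 8 * (1 - (((i : ℝ) + 1) - i₀) * κ)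
          ≤ m * Np / 8 * ((1 - ((i : ℝ) - i₀) * κ) * (1 - κ)) := by
            gcongr
        _ = m / 8 * (1 - ((i : ℝ) - i₀) * κ) * Np * (1 - κ) := by ring
    · refine le_trans (g4 j) (le_of_eq ?_)
      rw [hms]
      have : i + 1 - i₀ = (i - i₀) + 1 := by omega
      rw [this, pow_succ]
      ring

theorem regime1 {K p η κ : ℝ} {k : ℕ} (hK : 32 ≤ K) (hN : 1 < (Fintype.card V : ℝ)) (hp0 : 0 < p)
    (hp1 : p < 1) (hNp : 1 ≤ (Fintype.card V : ℝ) * p) (hη : 0 ≤ η) (hκ0 : 0 ≤ κ)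
    (hdeg : DegLe G p η) (hexp : ExpProp G p η) (hres : ResProp G p (K / 2)) {I : ℕ}
    (h2 : ∀ i, i < I → Msz (Fintype.card V) p i * p ≤ 1 / K ∨ K ≤ Msz (Fintype.card V) p i * p)
    (h4 : ∀ i, 1 ≤ i → i ≤ I → K * Msz (Fintype.card V) p i ≤ (Fintype.card V : ℝ))
    (hE : ∀ j, j ≤ I → ∑ i ∈ range j, errS η (Fintype.card V) p i ≤ 1 / 2)
    (hend : Msz (Fintype.card V) p I * p < K)
    (hκ : (2 * η + k * (8 * K / ((Fintype.card V : ℝ) * p))) * (128 * k) ≤ κ)
    (hIκ : I * κ ≤ 1 / 2) (hIη : (1 + η) ^ I ≤ 2)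
    (hk : k * (8 * K / ((Fintype.card V : ℝ) * p)) ≤ 1)
    (hkp : 160 * (1 + η) * k * p ≤ 1) (hkV : k ≤ Fintype.card V) :
    ∃ P : Finset V, P.card ≤ I + 1 + k ∧ ∃ S : Fin k → Finset V, (∀ j, Def G P I (S j)) ∧
      (∀ i j, i ≠ j → Disjoint (S i) (S j)) ∧
      (∀ j, Msz (Fintype.card V) p I / 16 ≤ ((S j).card : ℝ)) ∧
      (∀ j, ((S j).card : ℝ) ≤ 8 * Msz (Fintype.card V) p I) := by
  classical
  have hM := Msz_bounds hN hp0 hp1 hNp
  have hMI := (hM I).1
  -- it suffices to have a starting family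
  suffices hs : ∃ i₀, i₀ ≤ I ∧ (∀ i, i₀ ≤ i → i < I → Msz (Fintype.card V) p i * p < 1) ∧
      ∃ P : Finset V, P.card ≤ I + 1 + k ∧ ∃ S : Fin k → Finset V, (∀ j, Def G P i₀ (S j)) ∧
      (∀ i j, i ≠ j → Disjoint (S i) (S j)) ∧
      (∀ j, Msz (Fintype.card V) p i₀ / 8 ≤ ((S j).card : ℝ)) ∧
      (∀ j, ((S j).card : ℝ) ≤ 4 * Msz (Fintype.card V) p i₀) by
    obtain ⟨i₀, hi₀, hrun, P, hP, hstart⟩ := hs
    obtain ⟨S, g1, g2, g3, g4⟩ := fam_run hN hp0 hp1 hNp hη hκ0 hdeg hexp hrun hend hκ hIκ hIη hk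
      hstart I hi₀ le_rfl
    refine ⟨P, hP, S, g1, g2, fun j => le_trans ?_ (g3 j), fun j => le_trans (g4 j) ?_⟩
    · have : ((I : ℝ) - i₀) * κ ≤ 1 / 2 := by
        refine le_trans ?_ hIκ
        have h6 : (0 : ℝ) ≤ i₀ := by positivity
        gcongr
        linarith
      nlinarith
    · have : (1 + η) ^ (I - i₀) ≤ 2 := by
        refine le_trans ?_ hIη
        exact pow_le_pow_right₀ (by linarith) (by omega)
      nlinarith
  have hex : ∃ i₀, i₀ ≤ I ∧ ∀ i, i₀ ≤ i → i < I → Msz (Fintype.card V) p i * p < 1 :=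
    ⟨I, le_rfl, fun i h1 h2 => by omega⟩
  set i₀ := Nat.find hex with hi₀def
  obtain ⟨hi₀, hrun⟩ := Nat.find_spec hex
  rw [← hi₀def] at hi₀ hrun
  refine ⟨i₀, hi₀, hrun, ?_⟩
  rcases Nat.eq_zero_or_pos i₀ with h0 | hpos
  · -- named vertices
    rw [h0]
    obtain ⟨f⟩ : Nonempty (Fin k ↪ V) := by
      rw [Function.Embedding.nonempty_iff_card_le]
      simpa using hkV
    refine ⟨Finset.univ.map f, by simp, fun j => {f j}, ?_, ?_, ?_, ?_⟩
    · intro j
      exact Def.sing 0 _ (by simp)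
    · intro i j hij
      rw [Finset.disjoint_singleton]
      exact fun h => hij (f.injective h)
    · intro j
      simp only [Msz_zero, Finset.card_singleton]
      norm_num
    · intro j
      simp only [Msz_zero, Finset.card_singleton]
      norm_num
  · obtain ⟨i', hi'⟩ : ∃ i', i₀ = i' + 1 := ⟨i₀ - 1, by omega⟩
    have hnot : ¬ (Msz (Fintype.card V) p i' * p < 1) := by
      have hmin := Nat.find_min hex (m := i') (by omega)
      intro hlt
      apply hmin
      refine ⟨by omega, fun i h1 h3 => ?_⟩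
      rcases Nat.eq_or_lt_of_le h1 with h | h
      · rw [← h]; exact hlt
      · exact hrun i (by omega) h3
    have hi'1 : 1 ≤ i' := by
      by_contra h
      have : i' = 0 := by omega
      rw [this, Msz_zero] at hnot
      apply hnot
      linarith
    have hKm : K ≤ Msz (Fintype.card V) p i' * p := by
      rcases h2 i' (by omega) with h | h
      · exfalso
        apply hnot
        refine lt_of_le_of_lt h ?_
        rw [div_lt_one (by linarith)]
        linarith
      · exact h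
    obtain ⟨P, B, hP, hB, hlow, hupp⟩ := walk (by linarith) hN hp0 hp1 hNp hη hdeg hexp hres h2 h4
      hE i' (by omega)
    have hEi := hE i' (by omega)
    set E := ∑ j ∈ range i', errS η (Fintype.card V) p j with hEdef
    have hMi := hM i'
    set m := Msz (Fintype.card V) p i' with hm
    have hm0 : 0 < m := by linarith [hMi.1]
    have hB2 : (B.card : ℝ) ≤ 2 * m := by
      calc (B.card : ℝ) ≤ m * Real.exp E := hupp
        _ ≤ m * Real.exp (1/2) := by gcongr
        _ ≤ m * 2 := by gcongr; exact exp_half_le_two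
        _ = 2 * m := by ring
    have hBlow : m / 2 ≤ (B.card : ℝ) := by
      nlinarith
    have hms : Msz (Fintype.card V) p i₀ = m * p := by
      rw [hi']; exact Msz_succ_res hnot
    have hq : K / 2 ≤ (B.card : ℝ) * p := by nlinarith
    have hB3 : 3 * B.card ≤ 2 * Fintype.card V := by
      have h5 := h4 i' hi'1 (by omega)
      rw [← hm] at h5
      have : (3 : ℝ) * B.card ≤ 2 * Fintype.card V := by nlinarith
      exact_mod_cast this
    obtain ⟨P', hPP', hP', S, g1, g2, g3, g4⟩ := select hp0 hη hdeg hres hB hi'1 hq (by linarith)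
      hB3 k hkp
    refine ⟨P', by omega, S, ?_, g2, ?_, ?_⟩
    · intro j
      exact (g1 j).mono_succ (by omega)
    · intro j
      refine le_trans ?_ (g3 j)
      rw [hms]
      nlinarith
    · intro j
      refine le_trans (g4 j) ?_
      rw [hms]
      nlinarith

end Pool.Agent.MPd11e37lc
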