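import Mathlib

/-!
The sequence of ideal sizes: a rotation on the circle in multiplicative form.
-/

set_option autoImplicit false

namespace Pool.Agent.MPd11e37lc

open Finset

/-- Ideal sizes of the sets in the walk. -/
noncomputable def Msz (N p : ℝ) : ℕ → ℝ
  | 0 => 1
  | i + 1 => if Msz N p i * p < 1 then Msz N p i * (N * p) else Msz N p i * p

theorem Msz_zero (N p : ℝ) : Msz N p 0 = 1 := rfl

theorem Msz_succ_exp {N p : ℝ} {i : ℕ} (h : Msz N p i * p < 1) :
    Msz N p (i + 1) = Msz N p i * (N * p) := by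
  rw [Msz, if_pos h]

theorem Msz_succ_res {N p : ℝ} {i : ℕ} (h : ¬ Msz N p i * p < 1) :
    Msz N p (i + 1) = Msz N p i * p := by
  rw [Msz, if_neg h]

theorem Msz_bounds {N p : ℝ} (hN : 1 < N) (hp0 : 0 < p) (hp1 : p < 1) (hNp : 1 ≤ N * p) (i : ℕ) :
    1 ≤ Msz N p i ∧ Msz N p i < N := by
  induction i with
  | zero => exact ⟨le_refl _, hN⟩
  | succ i ih =>
    obtain ⟨h1, h2⟩ := ih
    by_cases h : Msz N p i * p < 1
    · rw [Msz_succ_exp h]
      constructor
      · nlinarith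
      · have : Msz N p i * (N * p) = (Msz N p i * p) * N := by ring
        rw [this]
        nlinarith
    · rw [Msz_succ_res h]
      push Not at h
      exact ⟨h, by nlinarith⟩

theorem Msz_form (N p : ℝ) (i : ℕ) : ∃ a : ℕ, Msz N p i = N ^ a * p ^ i := by
  induction i with
  | zero => exact ⟨0, by simp [Msz]⟩
  | succ i ih =>
    obtain ⟨a, ha⟩ := ih
    by_cases h : Msz N p i * p < 1
    · exact ⟨a + 1, by rw [Msz_succ_exp h, ha]; ring⟩
    · exact ⟨a, by rw [Msz_succ_res h, ha]; ring⟩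

/-- `N ^ a * p ^ t` is within a factor `K` of `1` for some integer `a`. -/
def Near (K N p : ℝ) (t : ℕ) : Prop := ∃ a : ℤ, 1 / K < N ^ a * p ^ t ∧ N ^ a * p ^ t < K

theorem near_exists {K N p : ℝ} (hK : 1 < K) (hN : 1 < N) (hp0 : 0 < p) (hp1 : p < 1)
    (hNp : 1 ≤ N * p) {L : ℕ} (hL : N ≤ K ^ L) : ∃ t, 1 ≤ t ∧ t ≤ L ∧ Near K N p t := by
  have hN0 : (0:ℝ) < N := by linarith
  have hM := Msz_bounds hN hp0 hp1 hNp
  have hlogK : 0 < Real.log K := Real.log_pos hK
  -- pigeonhole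
  have key : ∃ i ∈ range (L + 1), ∃ j ∈ range (L + 1), i ≠ j ∧
      ⌊Real.logb K (Msz N p i)⌋₊ = ⌊Real.logb K (Msz N p j)⌋₊ := by
    apply Finset.exists_ne_map_eq_of_card_lt_of_maps_to (t := range L)
    · simp
    · intro i _
      simp only [Finset.coe_range, Set.mem_Iio]
      rw [Nat.floor_lt (Real.logb_nonneg hK (hM i).1)]
      rw [Real.logb_lt_iff_lt_rpow hK (by linarith [(hM i).1])]
      rw [Real.rpow_natCast]
      exact lt_of_lt_of_le (hM i).2 hL
  -- wlog
  have key2 : ∃ i j, i < j ∧ j ≤ L ∧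
      ⌊Real.logb K (Msz N p i)⌋₊ = ⌊Real.logb K (Msz N p j)⌋₊ := by
    obtain ⟨i, hi, j, hj, hne, he⟩ := key
    simp only [Finset.mem_range] at hi hj
    rcases lt_or_gt_of_ne hne with h | h
    · exact ⟨i, j, h, by omega, he⟩
    · exact ⟨j, i, h, by omega, he.symm⟩
  obtain ⟨i, j, hij, hj, he⟩ := key2
  refine ⟨j - i, by omega, by omega, ?_⟩
  obtain ⟨a, ha⟩ := Msz_form N p i
  obtain ⟨b, hb⟩ := Msz_form N p j
  have hMi : 0 < Msz N p i := by linarith [(hM i).1]
  have hMj : 0 < Msz N p j := by linarith [(hM j).1]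
  have hratio : N ^ ((b:ℤ) - (a:ℤ)) * p ^ (j - i) = Msz N p j / Msz N p i := by
    rw [ha, hb, zpow_sub₀ hN0.ne', zpow_natCast, zpow_natCast]
    have : p ^ j = p ^ (j - i) * p ^ i := by
      rw [← pow_add]; congr 1; omega
    rw [this]
    field_simp
  have hfl : |Real.logb K (Msz N p j) - Real.logb K (Msz N p i)| < 1 := by
    have h1 := Nat.floor_le (Real.logb_nonneg hK (hM i).1)
    have h2 := Nat.lt_floor_add_one (Real.logb K (Msz N p i))
    have h3 := Nat.floor_le (Real.logb_nonneg hK (hM j).1)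
    have h4 := Nat.lt_floor_add_one (Real.logb K (Msz N p j))
    rw [abs_lt]
    rw [he] at h1 h2
    constructor <;> linarith
  have hlog : Real.logb K (Msz N p j / Msz N p i) =
      Real.logb K (Msz N p j) - Real.logb K (Msz N p i) :=
    Real.logb_div hMj.ne' hMi.ne'
  rw [← hlog, abs_lt] at hfl
  have hq : 0 < Msz N p j / Msz N p i := div_pos hMj hMi
  refine ⟨(b:ℤ) - (a:ℤ), ?_, ?_⟩
  · rw [hratio]
    have := (Real.lt_logb_iff_rpow_lt hK hq).1 hfl.1
    rw [Real.rpow_neg (by linarith), Real.rpow_one] at this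
    rwa [one_div]
  · rw [hratio]
    have := (Real.logb_lt_iff_lt_rpow hK hq).1 hfl.2
    rwa [Real.rpow_one] at this

theorem not_near_form {K N p : ℝ} {t : ℕ} (h : ¬ Near K N p t) (a : ℤ) :
    N ^ a * p ^ t ≤ 1 / K ∨ K ≤ N ^ a * p ^ t := by
  by_contra hcon
  push Not at hcon
  exact h ⟨a, hcon.1, hcon.2⟩

/-- Main properties of the sequence of sizes. -/
theorem seq_main {K N p : ℝ} (hK : 1 < K) (hN : 1 < N) (hp0 : 0 < p) (hp1 : p ≤ 1 / K)
    (hNp : K ≤ N * p) {L : ℕ} (hL : N ≤ K ^ L) :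
    ∃ I : ℕ, I + 1 ≤ L ∧ (1 / K < Msz N p I * p ∧ Msz N p I * p < K) ∧
      (∀ i, i < I → Msz N p i * p ≤ 1 / K ∨ K ≤ Msz N p i * p) ∧
      (∀ i j, i < j → j < I → Msz N p j * p ≤ (Msz N p i * p) / K ∨
        K * (Msz N p i * p) ≤ Msz N p j * p) ∧
      (∀ i, 1 ≤ i → i ≤ I → K * Msz N p i ≤ N) := by
  classical
  have hK0 : 0 < K := by linarith
  have hN0 : (0:ℝ) < N := by linarith
  have hp1' : p < 1 := lt_of_le_of_lt hp1 (by rw [div_lt_one hK0]; exact hK)
  have hM := Msz_bounds hN hp0 hp1' (le_trans hK.le hNp)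
  have hex := near_exists hK hN hp0 hp1' (le_trans hK.le hNp) hL
  have hex' : ∃ t, 1 ≤ t ∧ Near K N p t := by
    obtain ⟨t, h1, _, h3⟩ := hex
    exact ⟨t, h1, h3⟩
  set T := Nat.find hex' with hT
  obtain ⟨hT1, hTn⟩ := Nat.find_spec hex'
  rw [← hT] at hT1 hTn
  have hTmin : ∀ t, 1 ≤ t → t < T → ¬ Near K N p t := by
    intro t h1 h2 h3
    exact Nat.find_min hex' h2 ⟨h1, h3⟩
  have hTL : T ≤ L := by
    obtain ⟨t, h1, h2, h3⟩ := hex
    exact le_trans (Nat.find_min' hex' ⟨h1, h3⟩) h2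
  have hMp : ∀ i, ∃ a : ℤ, Msz N p i * p = N ^ a * p ^ (i + 1) := by
    intro i
    obtain ⟨a, ha⟩ := Msz_form N p i
    exact ⟨a, by rw [ha, zpow_natCast]; ring⟩
  refine ⟨T - 1, by omega, ?_, ?_, ?_, ?_⟩
  · obtain ⟨b, hb⟩ := hMp (T - 1)
    have hT' : T - 1 + 1 = T := by omega
    rw [hT'] at hb
    obtain ⟨a, ha1, ha2⟩ := hTn
    have hρ : 0 < N ^ a * p ^ T := lt_trans (by positivity) ha1
    have hbound1 : p ≤ Msz N p (T - 1) * p := by nlinarith [(hM (T-1)).1]
    have hbound2 : Msz N p (T - 1) * p < N * p := by nlinarith [(hM (T-1)).2]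
    have hba : b = a := by
      by_contra hne
      rcases lt_or_gt_of_ne hne with h | h
      · -- b < a : too small
        have h1 : N ^ b * p ^ T ≤ (N ^ a * p ^ T) / N := by
          have : N ^ b ≤ N ^ (a - 1) := zpow_le_zpow_right₀ hN.le (by omega)
          rw [zpow_sub_one₀ hN0.ne'] at this
          calc N ^ b * p ^ T ≤ (N ^ a * N⁻¹) * p ^ T := by gcongr
            _ = (N ^ a * p ^ T) / N := by rw [div_eq_mul_inv]; ring
        have h2 : (N ^ a * p ^ T) / N < K / N := by gcongr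
        have h3 : p < K / N := by
          rw [hb] at hbound1; linarith
        rw [lt_div_iff₀ hN0] at h3
        linarith [mul_comm p N]
      · have h1 : (N ^ a * p ^ T) * N ≤ N ^ b * p ^ T := by
          have : N ^ (a + 1) ≤ N ^ b := zpow_le_zpow_right₀ hN.le (by omega)
          rw [zpow_add_one₀ hN0.ne'] at this
          calc (N ^ a * p ^ T) * N = (N ^ a * N) * p ^ T := by ring
            _ ≤ N ^ b * p ^ T := by gcongr
        have h2 : (1 / K) * N < (N ^ a * p ^ T) * N := by gcongr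
        have h3 : (1 / K) * N < N * p := by
          rw [hb] at hbound2; linarith
        have h4 : 1 / K < p := by
          rw [mul_comm] at h3
          exact lt_of_mul_lt_mul_left h3 hN0.le
        linarith
    rw [hb, hba]
    exact ⟨ha1, ha2⟩
  · intro i hi
    obtain ⟨b, hb⟩ := hMp i
    rw [hb]
    exact not_near_form (hTmin (i + 1) (by omega) (by omega)) b
  · intro i j hij hj
    have hnn := hTmin (j - i) (by omega) (by omega)
    obtain ⟨a, ha⟩ := Msz_form N p i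
    obtain ⟨b, hb⟩ := Msz_form N p j
    have hMi : 0 < Msz N p i := by linarith [(hM i).1]
    have hratio : N ^ ((b:ℤ) - (a:ℤ)) * p ^ (j - i) = Msz N p j / Msz N p i := by
      rw [ha, hb, zpow_sub₀ hN0.ne', zpow_natCast, zpow_natCast]
      have : p ^ j = p ^ (j - i) * p ^ i := by
        rw [← pow_add]; congr 1; omega
      rw [this]
      field_simp
    rcases not_near_form hnn ((b:ℤ) - (a:ℤ)) with h | h
    · left
      rw [hratio, div_le_div_iff₀ hMi hK0] at h
      rw [le_div_iff₀ hK0]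
      nlinarith
    · right
      rw [hratio, le_div_iff₀ hMi] at h
      nlinarith
  · intro i hi1 hi2
    have hnn := hTmin i hi1 (by omega)
    obtain ⟨b, hb⟩ := Msz_form N p i
    have hratio : N ^ ((b:ℤ) - 1) * p ^ i = Msz N p i / N := by
      rw [hb, zpow_sub_one₀ hN0.ne', zpow_natCast]
      field_simp
    rcases not_near_form hnn ((b:ℤ) - 1) with h | h
    · rw [hratio, div_le_div_iff₀ hN0 hK0] at h
      linarith
    · rw [hratio, le_div_iff₀ hN0] at h
      have := (hM i).2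
      nlinarith

theorem sum_geo {ι : Type} (s : Finset ι) (g : ι → ℝ) (hg : ∀ i ∈ s, 1 ≤ g i)
    (hsep : ∀ i ∈ s, ∀ j ∈ s, i ≠ j → 1 ≤ |g i - g j|) {x : ℝ} (hx0 : 0 < x) (hx1 : x < 1) :
    ∑ i ∈ s, x ^ (g i) ≤ x / (1 - x) := by
  classical
  have h1 : ∀ i ∈ s, x ^ (g i) ≤ x * x ^ (⌊g i⌋₊ - 1) := by
    intro i hi
    have hfl : (⌊g i⌋₊ : ℝ) ≤ g i := Nat.floor_le (by linarith [hg i hi])
    have hfl1 : 1 ≤ ⌊g i⌋₊ := by
      rw [Nat.one_le_floor_iff]
      exact hg i hi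
    calc x ^ (g i) ≤ x ^ ((⌊g i⌋₊ : ℝ)) :=
          Real.rpow_le_rpow_of_exponent_ge hx0 hx1.le hfl
      _ = x ^ (⌊g i⌋₊) := Real.rpow_natCast _ _
      _ = x * x ^ (⌊g i⌋₊ - 1) := by
          rw [← pow_succ']; congr 1; omega
  have hinj : Set.InjOn (fun i => ⌊g i⌋₊ - 1) s := by
    intro i hi j hj hij
    by_contra hne
    have := hsep i hi j hj hne
    have a1 : 1 ≤ ⌊g i⌋₊ := by
      rw [Nat.one_le_floor_iff]; exact hg i hi
    have a2 : 1 ≤ ⌊g j⌋₊ := by
      rw [Nat.one_le_floor_iff]; exact hg j hj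
    have e : ⌊g i⌋₊ = ⌊g j⌋₊ := by
      simp only at hij
      omega
    have h1 := Nat.floor_le (show 0 ≤ g i by linarith [hg i hi])
    have h2 := Nat.lt_floor_add_one (g i)
    have h3 := Nat.floor_le (show 0 ≤ g j by linarith [hg j hj])
    have h4 := Nat.lt_floor_add_one (g j)
    rw [e] at h1 h2
    have : |g i - g j| < 1 := by
      rw [abs_lt]; constructor <;> linarith
    linarith
  calc ∑ i ∈ s, x ^ (g i) ≤ ∑ i ∈ s, x * x ^ (⌊g i⌋₊ - 1) := Finset.sum_le_sum h1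
    _ = x * ∑ i ∈ s, x ^ (⌊g i⌋₊ - 1) := by rw [Finset.mul_sum]
    _ = x * ∑ m ∈ s.image (fun i => ⌊g i⌋₊ - 1), x ^ m := by
        rw [Finset.sum_image hinj]
    _ ≤ x * ∑' m : ℕ, x ^ m := by
        gcongr
        exact Summable.sum_le_tsum _ (fun _ _ => by positivity)
          (summable_geometric_of_lt_one hx0.le hx1)
    _ = x / (1 - x) := by
        rw [tsum_geometric_of_lt_one hx0.le hx1, div_eq_mul_inv]

end Pool.Agent.MPd11e37lc
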