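import Pool.Agent.Lib.MP_d11e37_lc.DefLemmas
import Pool.Agent.Lib.MP_d11e37_lc.Err

/-!
The walk of definable sets.
-/

set_option autoImplicit false
set_option linter.unusedSectionVars false

namespace Pool.Agent.MPd11e37lc

open Finset

variable {V : Type} [Fintype V] [DecidableEq V] {G : SimpleGraph V} {P : Finset V}

/-- Upper bound on all degrees. -/
def DegLe (G : SimpleGraph V) (p η : ℝ) : Prop :=
  ∀ v, ((nb G {v}).card : ℝ) ≤ (1 + η) * ((Fintype.card V : ℝ) * p)

/-- Expansion of all small sets. -/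
def ExpProp (G : SimpleGraph V) (p η : ℝ) : Prop :=
  ∀ B : Finset V, (B.card : ℝ) * p ≤ 1 →
    (1 - η - B.card * p) * ((Fintype.card V : ℝ) * p) * B.card ≤ ((nb G B).card : ℝ)

/-- Existence of good restricting vertices for all sets. -/
def ResProp (G : SimpleGraph V) (p K₀ : ℝ) : Prop :=
  ∀ B F : Finset V, K₀ ≤ (B.card : ℝ) * p → 3 * B.card ≤ 2 * Fintype.card V →
    10 * F.card ≤ Fintype.card V →
    ∃ a, a ∉ F ∧ |((nb G {a} ∩ B).card : ℝ) - B.card * p| ≤
      (B.card * p) * ((B.card : ℝ) * p) ^ (-(1/4) : ℝ)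

theorem nb_eq_biUnion (B : Finset V) : nb G B = B.biUnion fun u => nb G {u} := by
  ext v
  simp [mem_nb]

theorem card_nb_le {p η : ℝ} (h : DegLe G p η) (B : Finset V) :
    ((nb G B).card : ℝ) ≤ (1 + η) * ((Fintype.card V : ℝ) * p) * B.card := by
  rw [nb_eq_biUnion]
  calc ((B.biUnion fun u => nb G {u}).card : ℝ) ≤ ((∑ u ∈ B, (nb G {u}).card : ℕ) : ℝ) := by
        exact_mod_cast Finset.card_biUnion_le
    _ = ∑ u ∈ B, ((nb G {u}).card : ℝ) := by push_cast; rfl
    _ ≤ ∑ u ∈ B, (1 + η) * ((Fintype.card V : ℝ) * p) := Finset.sum_le_sum fun u _ => h u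
    _ = (1 + η) * ((Fintype.card V : ℝ) * p) * B.card := by
        rw [Finset.sum_const, nsmul_eq_mul]; ring

theorem rpow_neg_quarter_le {x y : ℝ} (hx : 0 < x) (h : x / 2 ≤ y) :
    y ^ (-(1/4) : ℝ) ≤ 2 * x ^ (-(1/4) : ℝ) := by
  have h1 : y ^ (-(1/4) : ℝ) ≤ (x / 2) ^ (-(1/4) : ℝ) :=
    Real.rpow_le_rpow_of_nonpos (by positivity) h (by norm_num)
  have h2 : (x / 2) ^ (-(1/4) : ℝ) = x ^ (-(1/4) : ℝ) * 2 ^ ((1/4) : ℝ) := by
    rw [Real.div_rpow hx.le (by norm_num), div_eq_mul_inv,
      Real.rpow_neg (by norm_num : (0:ℝ) ≤ 2) (1/4), inv_inv]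
  have h3 : (2:ℝ) ^ ((1/4) : ℝ) ≤ 2 := by
    calc (2:ℝ) ^ ((1/4) : ℝ) ≤ 2 ^ (1:ℝ) :=
          Real.rpow_le_rpow_of_exponent_le (by norm_num) (by norm_num)
      _ = 2 := Real.rpow_one 2
  calc y ^ (-(1/4) : ℝ) ≤ x ^ (-(1/4) : ℝ) * 2 ^ ((1/4) : ℝ) := by rw [← h2]; exact h1
    _ ≤ x ^ (-(1/4) : ℝ) * 2 := by gcongr
    _ = 2 * x ^ (-(1/4) : ℝ) := by ring

theorem exp_half_le_two : Real.exp (1/2) ≤ 2 := by
  have h := Real.exp_one_lt_d9
  have h2 : Real.exp (1/2) ^ 2 = Real.exp 1 := by
    rw [← Real.exp_nat_mul]; norm_num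
  nlinarith [Real.exp_pos (1/2)]

/-- The walk. -/
theorem walk {K p η : ℝ} (hK : 4 ≤ K) (hN : 1 < (Fintype.card V : ℝ)) (hp0 : 0 < p) (hp1 : p < 1)
    (hNp : 1 ≤ (Fintype.card V : ℝ) * p) (hη : 0 ≤ η)
    (hdeg : DegLe G p η) (hexp : ExpProp G p η) (hres : ResProp G p (K / 2)) {I : ℕ}
    (h2 : ∀ i, i < I → Msz (Fintype.card V) p i * p ≤ 1 / K ∨ K ≤ Msz (Fintype.card V) p i * p)
    (h4 : ∀ i, 1 ≤ i → i ≤ I → K * Msz (Fintype.card V) p i ≤ (Fintype.card V : ℝ))
    (hE : ∀ j, j ≤ I → ∑ i ∈ range j, errS η (Fintype.card V) p i ≤ 1 / 2) :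
    ∀ i, i ≤ I → ∃ P B : Finset V, P.card ≤ i + 1 ∧ Def G P i B ∧
      Msz (Fintype.card V) p i * (1 - ∑ j ∈ range i, errS η (Fintype.card V) p j) ≤ B.card ∧
      (B.card : ℝ) ≤ Msz (Fintype.card V) p i *
        Real.exp (∑ j ∈ range i, errS η (Fintype.card V) p j) := by
  have hM := Msz_bounds hN hp0 hp1 hNp
  have herr0 : ∀ i, 0 ≤ errS η (Fintype.card V) p i := by
    intro i
    unfold errS
    have : 0 < Msz (Fintype.card V) p i * p := mul_pos (by linarith [(hM i).1]) hp0
    split_ifs
    · positivity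
    · positivity
  intro i
  induction i with
  | zero =>
    intro _
    have hne : Nonempty V := by
      rw [← Fintype.card_pos_iff]
      have : (0:ℝ) < Fintype.card V := by linarith
      exact_mod_cast this
    obtain ⟨b⟩ := hne
    refine ⟨{b}, {b}, by simp, Def.sing 0 b (by simp), ?_, ?_⟩
    · simp [Msz_zero]
    · simp [Msz_zero]
  | succ i ih =>
    intro hi
    obtain ⟨P, B, hP, hB, hlow, hupp⟩ := ih (by omega)
    have hEi := hE i (by omega)
    have hEi1 := hE (i + 1) hi
    rw [Finset.sum_range_succ] at hEi1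
    rw [Finset.sum_range_succ]
    set E := ∑ j ∈ range i, errS η (Fintype.card V) p j with hEdef
    have hE0 : 0 ≤ E := Finset.sum_nonneg fun j _ => herr0 j
    have hMi := hM i
    set m := Msz (Fintype.card V) p i with hm
    have hm0 : 0 < m := by linarith [hMi.1]
    have hB2 : (B.card : ℝ) ≤ 2 * m := by
      calc (B.card : ℝ) ≤ m * Real.exp E := hupp
        _ ≤ m * Real.exp (1/2) := by gcongr
        _ ≤ m * 2 := by gcongr; exact exp_half_le_two
        _ = 2 * m := by ring
    have hBlow : m / 2 ≤ (B.card : ℝ) := by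
      nlinarith
    have hK0 : 0 < K := by linarith
    by_cases hexpand : m * p < 1
    · -- expand
      have hmp : m * p ≤ 1 / K := by
        rcases h2 i (by omega) with h | h
        · exact h
        · exfalso
          rw [← hm] at h
          linarith
      have herr : errS η (Fintype.card V) p i = η + 2 * (m * p) := by
        unfold errS
        rw [if_pos hexpand]
      rw [herr] at hEi1 ⊢
      have hMs : Msz (Fintype.card V) p (i + 1) = m * ((Fintype.card V : ℝ) * p) :=
        Msz_succ_exp hexpand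
      refine ⟨P, nb G B, by omega, Def.nbr _ _ hB, ?_, ?_⟩
      · have hBp : (B.card : ℝ) * p ≤ 1 := by
          have h1K : 1 / K ≤ 1 / 4 := by
            apply one_div_le_one_div_of_le <;> linarith
          nlinarith
        have h5 := hexp B hBp
        rw [hMs]
        refine le_trans ?_ h5
        have hc1 : (1 - η - 2 * (m * p)) ≤ 1 - η - (B.card : ℝ) * p := by nlinarith
        have hc0 : 0 ≤ 1 - η - 2 * (m * p) := by linarith
        have hprod : m * (1 - E) ≤ (B.card : ℝ) := hlow
        have hNp0 : 0 ≤ (Fintype.card V : ℝ) * p := by linarith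
        have hm1E : 0 ≤ m * (1 - E) := mul_nonneg hm0.le (by linarith)
        calc m * ((Fintype.card V : ℝ) * p) * (1 - (E + (η + 2 * (m * p))))
            ≤ (1 - η - 2 * (m * p)) * ((Fintype.card V : ℝ) * p) * (m * (1 - E)) := by
              have h6 : (1 - (E + (η + 2 * (m * p)))) ≤ (1 - η - 2 * (m * p)) * (1 - E) := by
                have : 0 ≤ (η + 2 * (m * p)) * E := by positivity
                nlinarith
              calc m * ((Fintype.card V : ℝ) * p) * (1 - (E + (η + 2 * (m * p))))
                  ≤ m * ((Fintype.card V : ℝ) * p) * ((1 - η - 2 * (m * p)) * (1 - E)) := by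
                    gcongr
                _ = _ := by ring
          _ ≤ (1 - η - (B.card : ℝ) * p) * ((Fintype.card V : ℝ) * p) * B.card := by
              refine mul_le_mul (mul_le_mul_of_nonneg_right hc1 hNp0) hprod hm1E ?_
              exact mul_nonneg (le_trans hc0 hc1) hNp0
      · rw [hMs]
        calc ((nb G B).card : ℝ) ≤ (1 + η) * ((Fintype.card V : ℝ) * p) * B.card :=
              card_nb_le hdeg B
          _ ≤ (1 + η) * ((Fintype.card V : ℝ) * p) * (m * Real.exp E) := by gcongr
          _ = m * ((Fintype.card V : ℝ) * p) * (Real.exp E * (1 + η)) := by ring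
          _ ≤ m * ((Fintype.card V : ℝ) * p) * (Real.exp E * Real.exp (η + 2 * (m * p))) := by
              gcongr
              have := Real.add_one_le_exp (η + 2 * (m * p))
              have h7 : 0 ≤ m * p := by positivity
              linarith
          _ = m * ((Fintype.card V : ℝ) * p) * Real.exp (E + (η + 2 * (m * p))) := by
              rw [Real.exp_add E]
    · -- restrict
      have hmp : K ≤ m * p := by
        rcases h2 i (by omega) with h | h
        · exfalso
          apply hexpand
          rw [← hm] at h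
          refine lt_of_le_of_lt h ?_
          rw [div_lt_one hK0]; linarith
        · exact h
      have hi1 : 1 ≤ i := by
        by_contra h0
        have : i = 0 := by omega
        rw [this, Msz_zero] at hm
        rw [hm] at hmp
        linarith
      have herr : errS η (Fintype.card V) p i = 2 * (m * p) ^ (-(1/4) : ℝ) := by
        unfold errS
        rw [if_neg hexpand]
      rw [herr] at hEi1 ⊢
      have hMs : Msz (Fintype.card V) p (i + 1) = m * p := Msz_succ_res hexpand
      have hKm := h4 i hi1 (by omega)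
      have hBp0 : m * p / 2 ≤ (B.card : ℝ) * p := by nlinarith
      have hBcard : 3 * B.card ≤ 2 * Fintype.card V := by
        have : (3 : ℝ) * B.card ≤ 2 * Fintype.card V := by
          rw [← hm] at hKm
          nlinarith
        exact_mod_cast this
      obtain ⟨a, -, ha⟩ := hres B ∅ (by linarith) hBcard (by simp)
      set r := ((B.card : ℝ) * p) ^ (-(1/4) : ℝ) with hr
      have hr1 : r ≤ 2 * (m * p) ^ (-(1/4) : ℝ) :=
        rpow_neg_quarter_le (by positivity) hBp0
      set e := 2 * (m * p) ^ (-(1/4) : ℝ) with he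
      have hBp : 0 ≤ (B.card : ℝ) * p := by positivity
      rw [abs_le] at ha
      have h11 : (B.card : ℝ) * p * r ≤ (B.card : ℝ) * p * e := mul_le_mul_of_nonneg_left hr1 hBp
      have hP' : Def G (insert a P) (i + 1) (nb G {a} ∩ B) := by
        have h8 : Def G (insert a P) 1 (nb G {a}) :=
          Def.nbr 0 _ (Def.sing 0 a (by simp))
        have h9 : Def G (insert a P) i B := hB.mono (Finset.subset_insert _ _)
        exact (h8.mono_succ (by omega)).inter' (h9.mono_succ (by omega))
      refine ⟨insert a P, nb G {a} ∩ B, ?_, hP', ?_, ?_⟩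
      · exact le_trans (Finset.card_insert_le _ _) (by omega)
      · rw [hMs]
        have h10 : (B.card : ℝ) * p * (1 - e) ≤ ((nb G {a} ∩ B).card : ℝ) := by
          linarith [ha.1]
        refine le_trans ?_ h10
        have he1 : 0 ≤ 1 - e := by linarith
        have he0 : 0 ≤ e := by rw [he]; positivity
        have hmp0 : 0 ≤ m * p := by positivity
        have hEe : 0 ≤ E * e := mul_nonneg hE0 he0
        calc m * p * (1 - (E + e)) ≤ m * p * ((1 - E) * (1 - e)) := by
              apply mul_le_mul_of_nonneg_left _ hmp0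
              nlinarith
          _ = (m * (1 - E)) * p * (1 - e) := by ring
          _ ≤ (B.card : ℝ) * p * (1 - e) := by
              apply mul_le_mul_of_nonneg_right _ he1
              exact mul_le_mul_of_nonneg_right hlow hp0.le
      · rw [hMs]
        have h10 : ((nb G {a} ∩ B).card : ℝ) ≤ (B.card : ℝ) * p * (1 + e) := by
          linarith [ha.2]
        refine le_trans h10 ?_
        have he0 : 0 ≤ e := by rw [he]; positivity
        calc (B.card : ℝ) * p * (1 + e) ≤ (m * Real.exp E) * p * (1 + e) := by gcongr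
          _ = m * p * (Real.exp E * (1 + e)) := by ring
          _ ≤ m * p * (Real.exp E * Real.exp e) := by
              gcongr
              linarith [Real.add_one_le_exp e]
          _ = m * p * Real.exp (E + e) := by rw [Real.exp_add]

end Pool.Agent.MPd11e37lc
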